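import Pool.Agent.H13.Mono
import Pool.Agent.H25.NS.Circuit

/-!
The approximation method for monotone programs, with an abstract bound for the number of minimal
members of closed families.
-/

namespace Pool.Agent.H25.RS

open Finset Classical H13
open Pool.Agent.H25.NS (MGate MonoSize)

section
variable {X Ω A : Type*} [Fintype X] [DecidableEq X] [Fintype Ω] [Fintype A]

theorem geo_theta {θ : ℝ} (h0 : 0 ≤ θ) (h1 : θ ≤ 1 / 4) (a c : ℕ) :
    ∑ l ∈ Finset.Icc a c, θ ^ l ≤ 4 / 3 * θ ^ a := by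
  have h : ∀ n : ℕ, ∑ l ∈ Finset.range n, θ ^ (a + l) ≤ 4 / 3 * θ ^ a * (1 - θ ^ n) := by
    intro n
    induction n with
    | zero => simp
    | succ n ih =>
      rw [Finset.sum_range_succ]
      have h2 : (0 : ℝ) ≤ θ ^ a * θ ^ n := by positivity
      have h3 : θ ^ (a + n) = θ ^ a * θ ^ n := pow_add _ _ _
      have h4 : θ ^ (n + 1) = θ ^ n * θ := pow_succ _ _
      rw [h3, h4]
      nlinarith
  have h2 : ∑ l ∈ Finset.Icc a c, θ ^ l = ∑ l ∈ Finset.range (c + 1 - a), θ ^ (a + l) := by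
    rw [← Finset.sum_Ico_eq_sum_range]
    rfl
  rw [h2]
  refine (h _).trans ?_
  have h3 : (0 : ℝ) ≤ θ ^ (c + 1 - a) := by positivity
  have h4 : (0 : ℝ) ≤ 4 / 3 * θ ^ a := by positivity
  nlinarith

/-- The data needed by the approximation method. -/
structure Data (N : Ω → Finset X) (Y : A → Finset X) (c' : ℕ) (R θ δ : ℝ) : Prop where
  hc : 1 ≤ c'
  hR : 0 < R
  hθ0 : 0 ≤ θ
  hθ : θ ≤ 1 / 4
  hδ : 0 ≤ δ
  hcount : ∀ G : Finset (Finset X), Closed N (2 * c') δ G → ∀ l, l ≤ 2 * c' →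
    (((mins G).filter (fun S => S.card = l)).card : ℝ) ≤ R ^ l
  hpos : ∀ S : Finset X, S.card ≤ 2 * c' →
    cnt (fun α => S ⊆ Y α) * R ^ S.card ≤ θ ^ S.card * Fintype.card A
  hneg : ((univ.filter (fun T : Finset X => T.card ≤ 2 * c')).card : ℝ) * δ ≤ (1 / 4) ^ c'

/-- Few positive inputs contain a minimal member of size at least `a`. -/
theorem Data.pos {N : Ω → Finset X} {Y : A → Finset X} {c' : ℕ} {R θ δ : ℝ}
    (hD : Data N Y c' R θ δ) (𝓜 : Finset (Finset X))
    (hcount : ∀ l, l ≤ 2 * c' → ((𝓜.filter (fun S => S.card = l)).card : ℝ) ≤ R ^ l) (a : ℕ) :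
    cnt (fun α => ∃ S ∈ 𝓜, a ≤ S.card ∧ S.card ≤ 2 * c' ∧ S ⊆ Y α)
      ≤ 4 / 3 * θ ^ a * Fintype.card A := by
  have hR0 := hD.hR
  calc cnt (fun α => ∃ S ∈ 𝓜, a ≤ S.card ∧ S.card ≤ 2 * c' ∧ S ⊆ Y α)
      ≤ cnt (fun α => ∃ l ∈ Finset.Icc a (2 * c'), ∃ S ∈ 𝓜.filter (fun S => S.card = l),
          S ⊆ Y α) := by
        apply cnt_mono
        rintro α ⟨S, hS, h1, h2, h3⟩
        exact ⟨S.card, Finset.mem_Icc.2 ⟨h1, h2⟩, S, Finset.mem_filter.2 ⟨hS, rfl⟩, h3⟩
    _ ≤ ∑ l ∈ Finset.Icc a (2 * c'), ∑ S ∈ 𝓜.filter (fun S => S.card = l),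
          cnt (fun α => S ⊆ Y α) :=
        (cnt_exists _ _).trans (Finset.sum_le_sum fun l _ => cnt_exists _ _)
    _ ≤ ∑ l ∈ Finset.Icc a (2 * c'), θ ^ l * Fintype.card A := by
        apply Finset.sum_le_sum
        intro l hl
        rw [Finset.mem_Icc] at hl
        calc ∑ S ∈ 𝓜.filter (fun S => S.card = l), cnt (fun α => S ⊆ Y α)
            ≤ ∑ S ∈ 𝓜.filter (fun S => S.card = l), θ ^ l * (Fintype.card A : ℝ) / R ^ l := by
              apply Finset.sum_le_sum
              intro S hS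
              rw [Finset.mem_filter] at hS
              rw [le_div_iff₀ (by positivity)]
              have := hD.hpos S (by omega)
              rwa [hS.2] at this
          _ = ((𝓜.filter (fun S => S.card = l)).card : ℝ) *
                (θ ^ l * (Fintype.card A : ℝ) / R ^ l) := by
              rw [Finset.sum_const, nsmul_eq_mul]
          _ ≤ R ^ l * (θ ^ l * (Fintype.card A : ℝ) / R ^ l) :=
              mul_le_mul_of_nonneg_right (hcount l hl.2) (by
                have := hD.hθ0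
                positivity)
          _ = θ ^ l * Fintype.card A := by
              field_simp
    _ = (∑ l ∈ Finset.Icc a (2 * c'), θ ^ l) * Fintype.card A := by rw [Finset.sum_mul]
    _ ≤ _ := mul_le_mul_of_nonneg_right (geo_theta hD.hθ0 hD.hθ a _) (by positivity)

theorem trim_step {N : Ω → Finset X} {Y : A → Finset X} {c' : ℕ} {R θ δ : ℝ}
    (hD : Data N Y c' R θ δ) (F : Finset (Finset X)) (hF : ∀ S ∈ F, S.card ≤ 2 * c') :
    ∃ (EP : A → Prop) (EN : Ω → Prop) (F' : Finset (Finset X)),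
      cnt EP ≤ (1 / 4) ^ c' * Fintype.card A ∧ cnt EN ≤ (1 / 4) ^ c' * Fintype.card Ω ∧
      (∀ S ∈ F', S.card ≤ c') ∧
      (∀ l, l ≤ 2 * c' → ((F'.filter (fun S => S.card = l)).card : ℝ) ≤ R ^ l) ∧
      (∀ α, ¬ EP α → acc F (Y α) → acc F' (Y α)) ∧
      (∀ w, ¬ EN w → acc F' (N w) → acc F (N w)) := by
  obtain ⟨G, hFG, hGc, hGs, hGe⟩ := closure_exists N (2 * c') δ hD.hδ F
  have hcount := hD.hcount G hGc
  have hGsize : ∀ S ∈ G, S.card ≤ 2 * c' := by
    intro S hS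
    rcases hGs S hS with h | h
    · exact hF S h
    · exact h
  refine ⟨fun α => ∃ S ∈ mins G, c' + 1 ≤ S.card ∧ S.card ≤ 2 * c' ∧ S ⊆ Y α,
    fun w => acc G (N w) ∧ ¬ acc F (N w), (mins G).filter (fun S => S.card ≤ c'), ?_, ?_, ?_, ?_,
    ?_, ?_⟩
  · refine (hD.pos (mins G) hcount (c' + 1)).trans ?_
    apply mul_le_mul_of_nonneg_right _ (by positivity)
    have h0 := hD.hθ0
    have h1 := hD.hθ
    have h2 : θ ^ c' ≤ (1 / 4) ^ c' := pow_le_pow_left₀ h0 h1 c'
    have h3 : 0 ≤ θ ^ c' := by positivity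
    rw [pow_succ]
    nlinarith
  · refine hGe.trans ?_
    rw [← mul_assoc]
    exact mul_le_mul_of_nonneg_right hD.hneg (by positivity)
  · intro S hS
    exact (Finset.mem_filter.1 hS).2
  · intro l hl
    refine le_trans ?_ (hcount l hl)
    rw [Nat.cast_le]
    apply Finset.card_le_card
    intro S hS
    rw [Finset.mem_filter, Finset.mem_filter] at hS
    exact Finset.mem_filter.2 ⟨hS.1.1, hS.2⟩
  · intro α hα hacc
    obtain ⟨S, hS, hSY⟩ := hacc
    obtain ⟨S', hS', hS'Y⟩ := acc_mins G (Y α) ⟨S, hFG hS, hSY⟩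
    refine ⟨S', Finset.mem_filter.2 ⟨hS', ?_⟩, hS'Y⟩
    by_contra hbig
    apply hα
    exact ⟨S', hS', by omega, hGsize S' (mem_mins.1 hS').1, hS'Y⟩
  · intro w hw hacc
    obtain ⟨S, hS, hSN⟩ := hacc
    by_contra hno
    apply hw
    exact ⟨⟨S, (mem_mins.1 (Finset.mem_filter.1 hS).1).1, hSN⟩, hno⟩

theorem good_step {N : Ω → Finset X} {Y : A → Finset X} {c' : ℕ} {R θ δ : ℝ}
    (hD : Data N Y c' R θ δ) {BP : A → Prop} {BN : Ω → Prop} {s : ℕ}
    (hst : St Ω A c' BP BN s) {h : Finset X → Prop}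
    (hg : ∃ F : Finset (Finset X), (∀ S ∈ F, S.card ≤ 2 * c') ∧
      (∀ α, ¬ BP α → h (Y α) → acc F (Y α)) ∧ (∀ w, ¬ BN w → acc F (N w) → h (N w))) :
    ∃ BP' BN', St Ω A c' BP' BN' (s + 1) ∧ (∀ α, BP α → BP' α) ∧ (∀ w, BN w → BN' w) ∧
      Good N Y c' BP' BN' h := by
  obtain ⟨F, hF, hP, hN⟩ := hg
  obtain ⟨EP, EN, F', hEP, hEN, hF', _, hPP, hNN⟩ := trim_step hD F hF
  refine ⟨fun α => BP α ∨ EP α, fun w => BN w ∨ EN w, hst.add hEP hEN, fun α h => Or.inl h,
    fun w h => Or.inl h, F', hF', ?_, ?_⟩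
  · intro α hα hh
    rw [not_or] at hα
    exact hPP α hα.2 (hP α hα.1 hh)
  · intro w hw hacc
    rw [not_or] at hw
    exact hN w hw.1 (hNN w hw.2 hacc)

theorem good_or {N : Ω → Finset X} {Y : A → Finset X} {c' : ℕ} {R θ δ : ℝ}
    (hD : Data N Y c' R θ δ) {BP : A → Prop} {BN : Ω → Prop} {s : ℕ}
    (hst : St Ω A c' BP BN s) {h1 h2 : Finset X → Prop}
    (hg1 : Good N Y c' BP BN h1) (hg2 : Good N Y c' BP BN h2) :
    ∃ BP' BN', St Ω A c' BP' BN' (s + 1) ∧ (∀ α, BP α → BP' α) ∧ (∀ w, BN w → BN' w) ∧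
      Good N Y c' BP' BN' (fun y => h1 y ∨ h2 y) := by
  obtain ⟨F1, hF1, hP1, hN1⟩ := hg1
  obtain ⟨F2, hF2, hP2, hN2⟩ := hg2
  apply good_step hD hst
  refine ⟨F1 ∪ F2, ?_, ?_, ?_⟩
  · intro S hS
    rw [Finset.mem_union] at hS
    rcases hS with hS | hS
    · have := hF1 S hS; omega
    · have := hF2 S hS; omega
  · intro α hα hh
    rcases hh with hh | hh
    · obtain ⟨S, hS, hSY⟩ := hP1 α hα hh
      exact ⟨S, Finset.mem_union_left _ hS, hSY⟩
    · obtain ⟨S, hS, hSY⟩ := hP2 α hα hh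
      exact ⟨S, Finset.mem_union_right _ hS, hSY⟩
  · rintro w hw ⟨S, hS, hSN⟩
    rw [Finset.mem_union] at hS
    rcases hS with hS | hS
    · exact Or.inl (hN1 w hw ⟨S, hS, hSN⟩)
    · exact Or.inr (hN2 w hw ⟨S, hS, hSN⟩)

theorem good_and {N : Ω → Finset X} {Y : A → Finset X} {c' : ℕ} {R θ δ : ℝ}
    (hD : Data N Y c' R θ δ) {BP : A → Prop} {BN : Ω → Prop} {s : ℕ}
    (hst : St Ω A c' BP BN s) {h1 h2 : Finset X → Prop}
    (hg1 : Good N Y c' BP BN h1) (hg2 : Good N Y c' BP BN h2) :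
    ∃ BP' BN', St Ω A c' BP' BN' (s + 1) ∧ (∀ α, BP α → BP' α) ∧ (∀ w, BN w → BN' w) ∧
      Good N Y c' BP' BN' (fun y => h1 y ∧ h2 y) := by
  obtain ⟨F1, hF1, hP1, hN1⟩ := hg1
  obtain ⟨F2, hF2, hP2, hN2⟩ := hg2
  apply good_step hD hst
  refine ⟨(F1 ×ˢ F2).image (fun p => p.1 ∪ p.2), ?_, ?_, ?_⟩
  · intro S hS
    rw [Finset.mem_image] at hS
    obtain ⟨p, hp, rfl⟩ := hS
    rw [Finset.mem_product] at hp
    have h3 := hF1 _ hp.1
    have h4 := hF2 _ hp.2
    have h5 := Finset.card_union_le p.1 p.2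
    omega
  · intro α hα hh
    obtain ⟨S1, hS1, hSY1⟩ := hP1 α hα hh.1
    obtain ⟨S2, hS2, hSY2⟩ := hP2 α hα hh.2
    exact ⟨S1 ∪ S2, Finset.mem_image.2 ⟨(S1, S2), Finset.mem_product.2 ⟨hS1, hS2⟩, rfl⟩,
      Finset.union_subset hSY1 hSY2⟩
  · rintro w hw ⟨S, hS, hSN⟩
    rw [Finset.mem_image] at hS
    obtain ⟨p, hp, rfl⟩ := hS
    rw [Finset.mem_product] at hp
    exact ⟨hN1 w hw ⟨p.1, hp.1, Finset.subset_union_left.trans hSN⟩,
      hN2 w hw ⟨p.2, hp.2, Finset.subset_union_right.trans hSN⟩⟩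

/-- One gate of a program. -/
theorem good_gate {N : Ω → Finset X} {Y : A → Finset X} {c' : ℕ} {R θ δ : ℝ}
    {Z : Type} (emb : Finset X → Finset Z)
    (hemb : ∀ z : Z, (∀ y, z ∉ emb y) ∨ (∀ y, z ∈ emb y) ∨ ∃ x, ∀ y, z ∈ emb y ↔ x ∈ y)
    (hD : Data N Y c' R θ δ) (f : ℕ → Finset Z → Prop) {n i : ℕ} (hi : i ≤ n)
    (hgate : MGate f i)
    {BP : A → Prop} {BN : Ω → Prop} {s : ℕ} (hst : St Ω A c' BP BN s)
    (hprev : ∀ j < i, Good N Y c' BP BN (fun y => f j (emb y))) :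
    ∃ BP' BN', St Ω A c' BP' BN' (s + n) ∧ (∀ α, BP α → BP' α) ∧
      (∀ w, BN w → BN' w) ∧ Good N Y c' BP' BN' (fun y => f i (emb y)) := by
  have hc := hD.hc
  have hcard : ∀ S : Finset ℕ, (∀ j ∈ S, j < i) → S.card ≤ n := by
    intro S hS
    have h1 : S ⊆ Finset.range i := fun j hj => Finset.mem_range.2 (hS j hj)
    have h2 := Finset.card_le_card h1
    rw [Finset.card_range] at h2
    omega
  have hTrue : Good N Y c' BP BN (fun _ => True) := by
    refine ⟨{∅}, ?_, ?_, ?_⟩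
    · intro S hS
      rw [Finset.mem_singleton.1 hS]
      simp
    · intro α _ _
      exact ⟨∅, Finset.mem_singleton_self _, Finset.empty_subset _⟩
    · intro w _ _
      trivial
  have hFalse : Good N Y c' BP BN (fun _ => False) := by
    refine ⟨∅, ?_, ?_, ?_⟩
    · intro S hS
      exact absurd hS (Finset.notMem_empty _)
    · intro α _ h
      exact h.elim
    · rintro w _ ⟨S, hS, _⟩
      exact absurd hS (Finset.notMem_empty _)
  rcases hgate with ⟨z, hz⟩ | ⟨S, hS, h⟩ | ⟨S, hS, h⟩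
  · refine ⟨BP, BN, hst.le (by omega), fun _ h => h, fun _ h => h, ?_⟩
    rcases hemb z with h1 | h1 | ⟨x, h1⟩
    · exact hFalse.congr fun y => by
        rw [hz]
        exact ⟨fun h => h.elim, fun h => h1 y h⟩
    · exact hTrue.congr fun y => by
        rw [hz]
        exact ⟨fun _ => h1 y, fun _ => trivial⟩
    · refine ⟨{{x}}, ?_, ?_, ?_⟩
      · intro S hS
        rw [Finset.mem_singleton.1 hS, Finset.card_singleton]
        exact hc
      · intro α _ hh
        rw [hz, h1] at hh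
        exact ⟨{x}, Finset.mem_singleton_self _, Finset.singleton_subset_iff.2 hh⟩
      · rintro w _ ⟨S, hS, hSN⟩
        rw [Finset.mem_singleton.1 hS, Finset.singleton_subset_iff] at hSN
        rw [hz, h1]
        exact hSN
  · have key : ∀ P : Finset ℕ, P ⊆ S →
        ∃ BP' BN', St Ω A c' BP' BN' (s + P.card) ∧ (∀ α, BP α → BP' α) ∧
        (∀ w, BN w → BN' w) ∧ Good N Y c' BP' BN' (fun y => ∀ j ∈ P, f j (emb y)) := by
      intro P
      induction P using Finset.induction_on with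
      | empty =>
        intro _
        refine ⟨BP, BN, hst.le (by omega), fun _ h => h, fun _ h => h, ?_⟩
        exact hTrue.congr (fun y => by simp)
      | insert p P hp ih =>
        intro hsub
        obtain ⟨BP1, BN1, hst1, hP1, hN1, hg1⟩ := ih ((Finset.subset_insert _ _).trans hsub)
        have hg2 := (hprev p (hS p (hsub (Finset.mem_insert_self _ _)))).mono hP1 hN1
        obtain ⟨BP2, BN2, hst2, hP2, hN2, hg⟩ := good_and hD hst1 hg1 hg2
        refine ⟨BP2, BN2, ?_, fun α h => hP2 α (hP1 α h), fun w h => hN2 w (hN1 w h), ?_⟩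
        · rw [Finset.card_insert_of_notMem hp]
          exact hst2.le (by omega)
        · refine hg.congr (fun y => ?_)
          rw [Finset.forall_mem_insert]
          exact and_comm
    obtain ⟨BP', BN', hst', hP', hN', hg⟩ := key _ (Finset.Subset.refl _)
    refine ⟨BP', BN', hst'.le (by
      have := hcard S hS
      omega), hP', hN', hg.congr (fun y => ?_)⟩
    rw [h]
  · have key : ∀ P : Finset ℕ, P ⊆ S →
        ∃ BP' BN', St Ω A c' BP' BN' (s + P.card) ∧ (∀ α, BP α → BP' α) ∧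
        (∀ w, BN w → BN' w) ∧ Good N Y c' BP' BN' (fun y => ∃ j ∈ P, f j (emb y)) := by
      intro P
      induction P using Finset.induction_on with
      | empty =>
        intro _
        refine ⟨BP, BN, hst.le (by omega), fun _ h => h, fun _ h => h, ?_⟩
        exact hFalse.congr (fun y => by simp)
      | insert p P hp ih =>
        intro hsub
        obtain ⟨BP1, BN1, hst1, hP1, hN1, hg1⟩ := ih ((Finset.subset_insert _ _).trans hsub)
        have hg2 := (hprev p (hS p (hsub (Finset.mem_insert_self _ _)))).mono hP1 hN1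
        obtain ⟨BP2, BN2, hst2, hP2, hN2, hg⟩ := good_or hD hst1 hg1 hg2
        refine ⟨BP2, BN2, ?_, fun α h => hP2 α (hP1 α h), fun w h => hN2 w (hN1 w h), ?_⟩
        · rw [Finset.card_insert_of_notMem hp]
          exact hst2.le (by omega)
        · refine hg.congr (fun y => ?_)
          rw [Finset.exists_mem_insert]
          exact or_comm
    obtain ⟨BP', BN', hst', hP', hN', hg⟩ := key _ (Finset.Subset.refl _)
    refine ⟨BP', BN', hst'.le (by
      have := hcard S hS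
      omega), hP', hN', hg.congr (fun y => ?_)⟩
    rw [h]

/-- All gates of a program. -/
theorem good_all {N : Ω → Finset X} {Y : A → Finset X} {c' : ℕ} {R θ δ : ℝ}
    {Z : Type} (emb : Finset X → Finset Z)
    (hemb : ∀ z : Z, (∀ y, z ∉ emb y) ∨ (∀ y, z ∈ emb y) ∨ ∃ x, ∀ y, z ∈ emb y ↔ x ∈ y)
    (hD : Data N Y c' R θ δ) (f : ℕ → Finset Z → Prop) {s : ℕ} (hf : ∀ i < s, MGate f i)
    (n : ℕ) (hn : n ≤ s) :
    ∃ BP BN, St Ω A c' BP BN (n * s) ∧
      ∀ i < n, Good N Y c' BP BN (fun y => f i (emb y)) := by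
  induction n with
  | zero =>
    refine ⟨fun _ => False, fun _ => False, ⟨?_, ?_⟩, fun i hi => absurd hi (Nat.not_lt_zero _)⟩
    · rw [cnt_eq_zero (fun _ h => h)]
      simp
    · rw [cnt_eq_zero (fun _ h => h)]
      simp
  | succ n ih =>
    obtain ⟨BP, BN, hst, hg⟩ := ih (by omega)
    obtain ⟨BP', BN', hst', hP, hN, hgn⟩ := good_gate (n := s) emb hemb hD f (by omega)
      (hf n (by omega)) hst (fun j hj => hg j hj)
    refine ⟨BP', BN', ?_, ?_⟩
    · have : (n + 1) * s = n * s + s := by ring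
      rw [this]
      exact hst'
    · intro i hi
      rcases Nat.lt_succ_iff_lt_or_eq.1 hi with h | h
      · exact (hg i h).mono hP hN
      · rw [h]
        exact hgn

/-- **The alternative given by the approximation method.** -/
theorem approx_main {N : Ω → Finset X} {Y : A → Finset X} {c' : ℕ} {R θ δ : ℝ}
    {Z : Type} (emb : Finset X → Finset Z)
    (hemb : ∀ z : Z, (∀ y, z ∉ emb y) ∨ (∀ y, z ∈ emb y) ∨ ∃ x, ∀ y, z ∈ emb y ↔ x ∈ y)
    (hD : Data N Y c' R θ δ) {s : ℕ} {f : Finset Z → Prop} (hf : MonoSize s f) :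
    cnt (fun w => ¬ f (emb (N w))) ≤ (s * s + 1 : ℕ) * ((1 / 4) ^ c' * Fintype.card Ω) ∨
      cnt (fun α => f (emb (Y α))) ≤ (s * s + 1 : ℕ) * ((1 / 4) ^ c' * Fintype.card A) +
        4 / 3 * θ * Fintype.card A := by
  obtain ⟨f', hf', i, hi, hif⟩ := hf
  obtain ⟨BP, BN, hst, hg⟩ := good_all emb hemb hD f' hf' s le_rfl
  obtain ⟨F, hF, hFP, hFN⟩ := hg i hi
  obtain ⟨EP, EN, F', hEP, hEN, hF', hcount, hPP, hNN⟩ := trim_step hD F
    (fun S hS => by have := hF S hS; omega)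
  have hst1 := hst.add hEP hEN
  by_cases hemp : ∅ ∈ F'
  · left
    refine le_trans (cnt_mono ?_) hst1.2
    intro w hw
    by_contra hno
    rw [not_or] at hno
    apply hw
    rw [hif]
    exact hFN w hno.1 (hNN w hno.2 ⟨∅, hemp, Finset.empty_subset _⟩)
  · right
    have h1 : cnt (fun α => f (emb (Y α))) ≤ cnt (fun α => BP α ∨ EP α)
        + cnt (fun α => ∃ S ∈ F', 1 ≤ S.card ∧ S.card ≤ 2 * c' ∧ S ⊆ Y α) := by
      refine (cnt_mono ?_).trans (cnt_or _ _)
      intro α hα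
      by_contra hno
      rw [not_or, not_or] at hno
      rw [hif] at hα
      obtain ⟨S, hS, hSY⟩ := hPP α hno.1.2 (hFP α hno.1.1 hα)
      apply hno.2
      refine ⟨S, hS, ?_, ?_, hSY⟩
      · rcases Nat.eq_zero_or_pos S.card with h | h
        · rw [Finset.card_eq_zero] at h
          rw [h] at hS
          exact absurd hS hemp
        · exact h
      · have := hF' S hS
        omega
    have h4 := hD.pos F' hcount 1
    rw [pow_one] at h4
    have h5 := hst1.1
    linarith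

end

end Pool.Agent.H25.RS
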