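import Pool.Agent.H25.RS.Core
import Pool.Agent.H25.NM.Asymp

/-!
The alternative for monotone programs of size `2 ^ (v ^ c)` and random formulas with `v ^ κ`
clauses on `v` variables.
-/

namespace Pool.Agent.H25.RS

open Finset Filter Classical H13
open Pool.Agent.H25.NS (MonoSize)

/-- **Parameters.** -/
theorem params (k : ℕ) (hk : 2 ≤ k) {κ ε c : ℝ} (hκ : 0 ≤ κ) (hε : 0 < ε) (hc : 0 < c)
    (h : κ + ε < (1 - 2 * c) * ((k : ℝ) - 1)) :
    ∃ v₀ : ℕ, ∀ v ≥ v₀, 1 ≤ v ∧ ∃ c' b : ℕ, 1 ≤ c' ∧ 1 ≤ b ∧ v < 2 ^ b ∧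
      2 * (v : ℝ) ^ c + 1 ≤ c' ∧
      ∃ Y : ℝ, 1 ≤ Y ∧ Y ≤ v ∧
        2 * ((8 * b : ℝ) * (2 * ((2 * c' * (k * (b + 1) + 1) : ℕ) * b : ℝ)) *
          (k * (2 * c' : ℕ)) + (2 * c' : ℕ)) ≤ Y ∧
        8 * k * (k.factorial : ℝ) * (v : ℝ) ^ κ * Y ^ (k - 1) ≤
          1 / 2 * (v : ℝ) ^ (-ε) * (v : ℝ) ^ (k - 1) ∧
        (v : ℝ) ^ (-ε) ≤ 1 / 2 ∧ 3 * (v : ℝ) ^ ε ≤ 2 ^ ((v : ℝ) ^ c) ∧ 1 ≤ (v : ℝ) ^ c := by
  have hk1 : (1 : ℝ) ≤ (k : ℝ) - 1 := by
    have : (2 : ℝ) ≤ k := by exact_mod_cast hk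
    linarith
  set Δ : ℝ := (1 - 2 * c) * ((k : ℝ) - 1) - κ - ε with hΔ
  have hΔ0 : 0 < Δ := by linarith
  set η : ℝ := Δ / (2 * ((k : ℝ) - 1)) with hη
  have hη0 : 0 < η := by positivity
  have hηk : η * ((k : ℝ) - 1) = Δ / 2 := by
    rw [hη]
    field_simp
  have h2c : 2 * c + η ≤ 1 := by
    have h1 : (2 * c + η) * ((k : ℝ) - 1) ≤ 1 * ((k : ℝ) - 1) := by
      rw [add_mul, hηk]
      have : Δ = (1 - 2 * c) * ((k : ℝ) - 1) - κ - ε := hΔ
      nlinarith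
    exact le_of_mul_le_mul_right h1 (by linarith)
  have E1 := NM.ev_log (32832 * (k : ℝ) ^ 2) 3 hη0
  have E2 := NM.ev_const (16 * k * (k.factorial : ℝ)) (r := Δ / 2) (by positivity)
  have E3 := NM.ev_const 2 hε
  have E4 := NM.ev_log (2 * ε + 4) 1 hc
  have E5 := eventually_ge_atTop 1
  obtain ⟨v₀, hv₀⟩ := eventually_atTop.1 (E1.and (E2.and (E3.and (E4.and E5))))
  refine ⟨v₀, fun v hv => ?_⟩
  obtain ⟨h1, h2, h3, h4, h5⟩ := hv₀ v hv
  have hv1 : (1 : ℝ) ≤ v := by exact_mod_cast h5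
  have hv0 : (0 : ℝ) < v := by linarith
  set l : ℝ := (v : ℝ) ^ c with hl
  have hl1 : 1 ≤ l := Real.one_le_rpow hv1 hc.le
  set c' : ℕ := ⌈2 * l⌉₊ + 1 with hc'
  set b : ℕ := Nat.log 2 v + 1 with hb
  have hlog0 : 0 ≤ Real.log v := Real.log_nonneg hv1
  set lam : ℝ := Real.log v + 1 with hlam
  have hlam1 : 1 ≤ lam := by linarith
  have hvb : v < 2 ^ b := Nat.lt_pow_succ_log_self (by norm_num) v
  have hbR : (b : ℝ) ≤ 2 * lam := by
    have h6 : ((2 : ℝ) ^ (Nat.log 2 v)) ≤ v := by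
      exact_mod_cast Nat.pow_log_le_self 2 (by omega)
    have h7 := Real.log_le_log (by positivity) h6
    rw [Real.log_pow] at h7
    have h8 := Real.log_two_gt_d9
    have h9 : (0 : ℝ) ≤ (Nat.log 2 v : ℝ) := Nat.cast_nonneg _
    rw [hb, hlam]
    push_cast
    nlinarith
  have hb1 : (1 : ℝ) ≤ b := by
    rw [hb]
    push_cast
    have : (0 : ℝ) ≤ (Nat.log 2 v : ℝ) := Nat.cast_nonneg _
    linarith
  have hc'1 : 2 * l + 1 ≤ c' := by
    rw [hc']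
    push_cast
    linarith [Nat.le_ceil (2 * l)]
  have hc'2 : (c' : ℝ) ≤ 4 * l := by
    rw [hc']
    push_cast
    have := Nat.ceil_lt_add_one (show 0 ≤ 2 * l by linarith)
    linarith
  have hc'3 : (1 : ℝ) ≤ c' := by linarith
  refine ⟨h5, c', b, by rw [hc']; omega, by rw [hb]; omega, hvb, hc'1,
    (v : ℝ) ^ (2 * c + η), ?_, ?_, ?_, ?_, ?_, ?_, hl1⟩
  · exact Real.one_le_rpow hv1 (by positivity)
  · calc (v : ℝ) ^ (2 * c + η) ≤ (v : ℝ) ^ (1 : ℝ) := Real.rpow_le_rpow_of_exponent_le hv1 h2c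
      _ = v := Real.rpow_one _
  · have hkR : (2 : ℝ) ≤ k := by exact_mod_cast hk
    have e1 : (v : ℝ) ^ (2 * c + η) = (v : ℝ) ^ η * l ^ 2 := by
      rw [Real.rpow_add hv0, mul_comm, mul_comm 2 c, Real.rpow_mul hv0.le, hl]
      congr 1
      exact_mod_cast Real.rpow_natCast _ 2
    rw [e1]
    have e2 : 2 * ((8 * b : ℝ) * (2 * ((2 * c' * (k * (b + 1) + 1) : ℕ) * b : ℝ)) *
          (k * (2 * c' : ℕ)) + (2 * c' : ℕ)) =
        4 * c' * (32 * c' * ((k * (b + 1) + 1) * b ^ 2 * k) + 1) := by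
      push_cast
      ring
    rw [e2]
    have e3 : (k : ℝ) * (b + 1) + 1 ≤ 4 * k * lam := by nlinarith
    have e4 : (b : ℝ) ^ 2 ≤ 4 * lam ^ 2 := by nlinarith
    have e5 : ((k : ℝ) * (b + 1) + 1) * b ^ 2 * k ≤ (4 * k * lam) * (4 * lam ^ 2) * k := by
      gcongr
    have e6 : 4 * (c' : ℝ) * (32 * c' * ((k * (b + 1) + 1) * b ^ 2 * k) + 1) ≤
        4 * (4 * l) * (32 * (4 * l) * ((4 * k * lam) * (4 * lam ^ 2) * k) + 1) := by
      gcongr
    refine e6.trans ?_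
    have e7 : (1 : ℝ) ≤ l * (k ^ 2 * lam ^ 3) := by
      have : (1 : ℝ) ≤ k ^ 2 * lam ^ 3 := by
        have h8 : (1 : ℝ) ≤ (k : ℝ) ^ 2 := by nlinarith
        have h9 : (1 : ℝ) ≤ lam ^ 3 := one_le_pow₀ hlam1
        nlinarith
      nlinarith
    calc 4 * (4 * l) * (32 * (4 * l) * ((4 * k * lam) * (4 * lam ^ 2) * k) + 1)
        = 16 * l * (2048 * (l * ((k : ℝ) ^ 2 * lam ^ 3)) + 1) := by ring
      _ ≤ 16 * l * (2048 * (l * ((k : ℝ) ^ 2 * lam ^ 3)) + 4 * (l * ((k : ℝ) ^ 2 * lam ^ 3))) := by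
          gcongr
          linarith
      _ = (32832 * (k : ℝ) ^ 2 * lam ^ 3) * l ^ 2 := by ring
      _ ≤ (v : ℝ) ^ η * l ^ 2 := by gcongr
  · have e1 : ((v : ℝ) ^ (2 * c + η)) ^ (k - 1) = (v : ℝ) ^ ((2 * c + η) * ((k : ℝ) - 1)) := by
      rw [← Real.rpow_natCast, ← Real.rpow_mul hv0.le]
      congr 2
      rw [Nat.cast_sub (by omega)]
      push_cast
      ring
    have e2 : (v : ℝ) ^ (k - 1) = (v : ℝ) ^ ((k : ℝ) - 1) := by
      rw [← Real.rpow_natCast]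
      congr 1
      rw [Nat.cast_sub (by omega)]
      push_cast
      ring
    rw [e1, e2]
    have e3 : (v : ℝ) ^ ((k : ℝ) - 1) =
        (v : ℝ) ^ (κ + (2 * c + η) * ((k : ℝ) - 1) + ε) * (v : ℝ) ^ (Δ / 2) := by
      rw [← Real.rpow_add hv0]
      congr 1
      have h8 : η * ((k : ℝ) - 1) = Δ / 2 := hηk
      have h9 : Δ = (1 - 2 * c) * ((k : ℝ) - 1) - κ - ε := hΔ
      linarith
    rw [e3, Real.rpow_add hv0 _ ε, Real.rpow_add hv0, Real.rpow_neg hv0.le]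
    have hε0 : (0 : ℝ) < (v : ℝ) ^ ε := Real.rpow_pos_of_pos hv0 _
    have e4 : 1 / 2 * ((v : ℝ) ^ ε)⁻¹ * ((v : ℝ) ^ κ * (v : ℝ) ^ ((2 * c + η) * ((k : ℝ) - 1)) *
        (v : ℝ) ^ ε * (v : ℝ) ^ (Δ / 2)) = 1 / 2 * (v : ℝ) ^ (Δ / 2) * ((v : ℝ) ^ κ *
          (v : ℝ) ^ ((2 * c + η) * ((k : ℝ) - 1))) := by
      field_simp
    rw [e4]
    have e5 : (0 : ℝ) ≤ (v : ℝ) ^ κ * (v : ℝ) ^ ((2 * c + η) * ((k : ℝ) - 1)) := by positivity
    nlinarith
  · rw [Real.rpow_neg hv0.le]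
    have hε0 : (0 : ℝ) < (v : ℝ) ^ ε := Real.rpow_pos_of_pos hv0 _
    rw [inv_le_comm₀ hε0 (by norm_num)]
    norm_num
    linarith
  · rw [pow_one] at h4
    have h6 : (3 : ℝ) ≤ 2 ^ (2 : ℝ) := by norm_num
    have h7 : (v : ℝ) ^ ε ≤ 2 ^ (2 * ε * lam) := by
      rw [Real.rpow_def_of_pos hv0, Real.rpow_def_of_pos (by norm_num : (0 : ℝ) < 2)]
      refine Real.exp_le_exp.2 ?_
      have h8 := Real.log_two_gt_d9
      have h9 : Real.log v ≤ lam := by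
        rw [hlam]
        linarith
      nlinarith [mul_nonneg hε.le (by linarith : (0 : ℝ) ≤ lam)]
    calc 3 * (v : ℝ) ^ ε ≤ 2 ^ (2 : ℝ) * 2 ^ (2 * ε * lam) := by gcongr
      _ = 2 ^ (2 + 2 * ε * lam) := by rw [← Real.rpow_add (by norm_num)]
      _ ≤ 2 ^ l := by
          refine Real.rpow_le_rpow_of_exponent_le (by norm_num) ?_
          nlinarith

/-- **The alternative.** -/
theorem alternative (k : ℕ) (hk : 2 ≤ k) {κ ε c : ℝ} (hκ : 0 ≤ κ) (hε : 0 < ε) (hc : 0 < c)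
    (h : κ + ε < (1 - 2 * c) * ((k : ℝ) - 1)) :
    ∃ v₀ : ℕ, ∀ v ≥ v₀, ∀ (E : Type) [Fintype E] [DecidableEq E]
      (lit : E → Fin k → Fin v × Bool), Function.Injective lit →
      (v : ℝ) ^ k ≤ k.factorial * Fintype.card E →
      ∀ m s : ℕ, (m : ℝ) ≤ (v : ℝ) ^ κ → (s : ℝ) ≤ 2 ^ ((v : ℝ) ^ c) →
      ∀ (Z : Type) (emb : Finset E → Finset Z),
        (∀ z : Z, (∀ y, z ∉ emb y) ∨ (∀ y, z ∈ emb y) ∨ ∃ x, ∀ y, z ∈ emb y ↔ x ∈ y) →
      ∀ f : Finset Z → Prop, MonoSize s f →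
        cnt (fun a : Fin v → Bool => ¬ f (emb (neg lit a))) ≤ 2 ^ (-(v : ℝ) ^ c) * 2 ^ v ∨
        cnt (fun α : Fin m → E => f (emb (univ.image α))) ≤
          (v : ℝ) ^ (-ε) * (Fintype.card E : ℝ) ^ m := by
  obtain ⟨v₀, hv₀⟩ := params k hk hκ hε hc h
  refine ⟨v₀, fun v hv E _ _ lit hlit hE m s hm hs Z emb hemb f hf => ?_⟩
  obtain ⟨hv1, c', b, hc1, hb1, hvb, hc2, Y, hY1, hYv, hY, hmain, hhalf, hexp, hl1⟩ := hv₀ v hv
  have hv1R : (1 : ℝ) ≤ v := by exact_mod_cast hv1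
  have hv0 : (0 : ℝ) < v := by linarith
  have hE0 : 0 < Fintype.card E := by
    by_contra h0
    have h1 : Fintype.card E = 0 := by omega
    rw [h1, Nat.cast_zero, mul_zero] at hE
    have : (0 : ℝ) < (v : ℝ) ^ k := by positivity
    linarith
  have hE0R : (0 : ℝ) < Fintype.card E := by exact_mod_cast hE0
  set g : ℕ := 2 * c' * (k * (b + 1) + 1) with hg
  set l : ℝ := (v : ℝ) ^ c with hl
  have hfac : (0 : ℝ) < k.factorial := by exact_mod_cast Nat.factorial_pos k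
  have hk1 : 1 ≤ k := by omega
  have hkR : (1 : ℝ) ≤ k := by exact_mod_cast hk1
  have hcardE : Fintype.card E ≤ (2 * v) ^ k := by
    have h1 := Fintype.card_le_of_injective lit hlit
    rw [Fintype.card_fun, Fintype.card_prod, Fintype.card_fin, Fintype.card_fin,
      Fintype.card_bool, mul_comm v 2] at h1
    exact h1
  have hgb : (Fintype.card E + 1) ^ (2 * c') * 4 ^ c' ≤ 2 ^ g := by
    have h1 : Fintype.card E + 1 ≤ 2 ^ ((b + 1) * k) := by
      calc Fintype.card E + 1 ≤ (2 * v) ^ k + 1 := by omega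
        _ ≤ (2 * v + 1) ^ k := by
            have h2 : (2 * v) ^ k < (2 * v + 1) ^ k := Nat.pow_lt_pow_left (by omega) (by omega)
            omega
        _ ≤ (2 ^ (b + 1)) ^ k := by
            refine Nat.pow_le_pow_left ?_ k
            rw [pow_succ]
            omega
        _ = 2 ^ ((b + 1) * k) := by rw [pow_mul]
    calc (Fintype.card E + 1) ^ (2 * c') * 4 ^ c'
        ≤ (2 ^ ((b + 1) * k)) ^ (2 * c') * 4 ^ c' :=
          Nat.mul_le_mul_right _ (Nat.pow_le_pow_left h1 _)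
      _ = 2 ^ g := by
          rw [hg, show (4 : ℕ) = 2 ^ 2 by norm_num, ← pow_mul, ← pow_mul, ← pow_add]
          congr 1
          ring
  set θ : ℝ := 1 / 2 * (v : ℝ) ^ (-ε) with hθ
  have hq : 0 < 2 * (g * b) := by
    have : 0 < g := by
      rw [hg]
      positivity
    positivity
  have hcore := core lit hlit (m := m) (c' := c') (g := g) (ρ := b) (q := 2 * (g * b))
    (R := 8 * k * v * Y ^ (k - 1)) (θ := θ) (L := 8 * b) (Y := Y) hc1 hgb
    (by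
      have h1 : ((2 * c' : ℕ) : ℝ) ≤ v := by
        refine le_trans ?_ (hY.trans hYv)
        have h2 : (0 : ℝ) ≤ (8 * b : ℝ) * (2 * ((2 * c' * (k * (b + 1) + 1) : ℕ) * b : ℝ)) *
          (k * (2 * c' : ℕ)) := by positivity
        have h3 : (0 : ℝ) ≤ ((2 * c' : ℕ) : ℝ) := Nat.cast_nonneg _
        linarith
      have h2 : 2 * c' ≤ v := by exact_mod_cast h1
      omega)
    hq le_rfl
    (by
      have : (1 : ℝ) ≤ b := by exact_mod_cast hb1
      linarith)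
    le_rfl
    (by
      refine le_trans (le_of_eq ?_) hY
      rw [hg]
      push_cast
      ring)
    le_rfl hYv hk1 hv1
    (by
      have h1 : (1 : ℝ) ≤ Y ^ (k - 1) := one_le_pow₀ hY1
      have h2 : (1 : ℝ) ≤ k * v := by nlinarith
      nlinarith)
    (by
      rw [hθ]
      linarith)
    (by
      -- R m ≤ θ |E|
      have h1 : 8 * k * (k.factorial : ℝ) * m * Y ^ (k - 1) ≤ θ * (v : ℝ) ^ (k - 1) := by
        refine le_trans ?_ hmain
        gcongr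
      have h2 : (v : ℝ) ^ k = (v : ℝ) ^ (k - 1) * v := by
        rw [← pow_succ]
        congr 1
        omega
      have hθ0 : 0 ≤ θ := by
        rw [hθ]
        positivity
      have h3 : (k.factorial : ℝ) * (8 * k * v * Y ^ (k - 1) * m) ≤
          k.factorial * (θ * Fintype.card E) := by
        calc (k.factorial : ℝ) * (8 * k * v * Y ^ (k - 1) * m)
            = (8 * k * (k.factorial : ℝ) * m * Y ^ (k - 1)) * v := by ring
          _ ≤ (θ * (v : ℝ) ^ (k - 1)) * v := mul_le_mul_of_nonneg_right h1 hv0.le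
          _ = θ * (v : ℝ) ^ k := by
              rw [h2]
              ring
          _ ≤ θ * (k.factorial * Fintype.card E) := mul_le_mul_of_nonneg_left hE hθ0
          _ = _ := by ring
      exact le_of_mul_le_mul_left h3 hfac)
    hE0 emb hemb hf
  -- the error term
  have herr : ((s * s + 1 : ℕ) : ℝ) * (1 / 4) ^ c' ≤ 2 ^ (-(2 * l + 1)) := by
    have h1 : ((s * s + 1 : ℕ) : ℝ) ≤ 2 ^ (2 * l + 1) := by
      push_cast
      have h2 : (s : ℝ) * s ≤ 2 ^ l * 2 ^ l := by gcongr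
      have h3 : (1 : ℝ) ≤ 2 ^ l * 2 ^ l := by
        have : (1 : ℝ) ≤ 2 ^ l := Real.one_le_rpow (by norm_num) (by linarith)
        nlinarith
      have h4 : (2 : ℝ) ^ (2 * l + 1) = 2 * (2 ^ l * 2 ^ l) := by
        rw [Real.rpow_add (by norm_num), Real.rpow_one, two_mul l, Real.rpow_add (by norm_num)]
        ring
      rw [h4]
      linarith
    have h2 : (1 / 4 : ℝ) ^ c' ≤ 2 ^ (-(4 * l + 2)) := by
      have h3 : (1 / 4 : ℝ) ^ c' = 2 ^ (-(2 * (c' : ℝ))) := by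
        rw [Real.rpow_neg (by norm_num), Real.rpow_mul (by norm_num), Real.rpow_natCast, one_div,
          inv_pow]
        norm_num
      rw [h3]
      refine Real.rpow_le_rpow_of_exponent_le (by norm_num) ?_
      linarith
    calc ((s * s + 1 : ℕ) : ℝ) * (1 / 4) ^ c' ≤ 2 ^ (2 * l + 1) * 2 ^ (-(4 * l + 2)) := by gcongr
      _ = _ := by
          rw [← Real.rpow_add (by norm_num)]
          congr 1
          ring
  rcases hcore with h1 | h1
  · left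
    refine h1.trans ?_
    rw [← mul_assoc]
    refine mul_le_mul_of_nonneg_right (herr.trans ?_) (by positivity)
    exact Real.rpow_le_rpow_of_exponent_le (by norm_num) (by linarith)
  · right
    refine h1.trans (mul_le_mul_of_nonneg_right ?_ (by positivity))
    have hε0 : (0 : ℝ) < (v : ℝ) ^ ε := Real.rpow_pos_of_pos hv0 _
    have h2 : (2 : ℝ) ^ (-(2 * l + 1)) ≤ 1 / 3 * (v : ℝ) ^ (-ε) := by
      have h3 : (2 : ℝ) ^ (-(2 * l + 1)) ≤ 2 ^ (-l) :=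
        Real.rpow_le_rpow_of_exponent_le (by norm_num) (by linarith)
      refine h3.trans ?_
      rw [Real.rpow_neg (by norm_num), Real.rpow_neg hv0.le]
      rw [inv_le_comm₀ (by positivity) (by positivity)]
      have h4 : (1 / 3 * ((v : ℝ) ^ ε)⁻¹)⁻¹ = 3 * (v : ℝ) ^ ε := by
        field_simp
      rw [h4]
      exact hexp
    have h3 : 4 / 3 * θ = 2 / 3 * (v : ℝ) ^ (-ε) := by
      rw [hθ]
      ring
    rw [h3]
    linarith [herr]

end Pool.Agent.H25.RS
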