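import Pool.Agent.H25.NS.Circuit

/-!
Monotone circuits whose gates are indexed by any finite type.
-/

namespace Pool.Agent.H25.RS

open Finset
open Pool.Agent.H25.NS (Circuit)

/-- A monotone circuit whose gates are indexed by any finite type. -/
theorem exists_circuit {Y T : Type} [Fintype T] (fn : T → Finset Y → Prop) (rank : T → ℕ)
    (gate : ∀ i, (∃ c, ∀ F, fn i F ↔ c ∈ F) ∨
      (∃ S : Finset T, (∀ j ∈ S, rank j < rank i) ∧ ∀ F, fn i F ↔ ∀ j ∈ S, fn j F) ∨
      (∃ S : Finset T, (∀ j ∈ S, rank j < rank i) ∧ ∀ F, fn i F ↔ ∃ j ∈ S, fn j F)) :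
    ∃ (C : Circuit Y (Fintype.card T) 0 0) (e : T ≃ Fin (Fintype.card T)),
      ∀ i, C.fn (e i) = fn i := by
  classical
  set N := Fintype.card T with hN
  let g : T → ℕ ×ₗ Fin N := fun t => toLex (rank t, Fintype.equivFin T t)
  have hg : Function.Injective g := by
    intro a b hab
    have h1 : (rank a, Fintype.equivFin T a) = (rank b, Fintype.equivFin T b) :=
      toLex.injective hab
    exact (Fintype.equivFin T).injective (Prod.ext_iff.1 h1).2
  have hF : (univ.image g).card = N := by
    rw [Finset.card_image_of_injective _ hg, Finset.card_univ]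
  let h : T ≃ (univ.image g : Finset (ℕ ×ₗ Fin N)) := Equiv.ofBijective
    (fun t => ⟨g t, Finset.mem_image_of_mem _ (Finset.mem_univ t)⟩) ⟨fun a b hab =>
      hg (Subtype.ext_iff.1 hab), fun b => by
        obtain ⟨t, _, ht⟩ := Finset.mem_image.1 b.2
        exact ⟨t, Subtype.ext ht⟩⟩
  let e : T ≃ Fin N := h.trans ((univ.image g).orderIsoOfFin hF).symm.toEquiv
  have he : ∀ i j, rank j < rank i → e j < e i := by
    intro i j hij
    show ((univ.image g).orderIsoOfFin hF).symm (h j) < ((univ.image g).orderIsoOfFin hF).symm (h i)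
    rw [OrderIso.lt_iff_lt]
    show g j < g i
    exact Prod.Lex.toLex_lt_toLex.2 (Or.inl hij)
  refine ⟨⟨fun i => fn (e.symm i), ∅, by simp, ?_⟩, e, ?_⟩
  · intro i
    have hlt : ∀ S : Finset T, (∀ j ∈ S, rank j < rank (e.symm i)) →
        ∀ j ∈ S.map e.toEmbedding, j < i := by
      intro S hS j hj
      obtain ⟨j', hj', rfl⟩ := Finset.mem_map.1 hj
      have := he (e.symm i) j' (hS _ hj')
      rwa [Equiv.apply_symm_apply] at this
    rcases gate (e.symm i) with h1 | ⟨S, hS, h1⟩ | ⟨S, hS, h1⟩
    · exact Or.inl h1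
    · refine Or.inr (Or.inl ⟨S.map e.toEmbedding, hlt S hS, fun F => ?_⟩)
      rw [h1]
      constructor
      · intro hh j hj
        obtain ⟨j', hj', rfl⟩ := Finset.mem_map.1 hj
        show fn (e.symm (e j')) F
        rw [Equiv.symm_apply_apply]
        exact hh j' hj'
      · intro hh j hj
        have := hh (e j) (Finset.mem_map_of_mem e.toEmbedding hj)
        rwa [Equiv.symm_apply_apply] at this
    · refine Or.inr (Or.inr (Or.inl ⟨S.map e.toEmbedding, hlt S hS, fun F => ?_⟩))
      rw [h1]
      constructor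
      · rintro ⟨j, hj, h2⟩
        refine ⟨e j, Finset.mem_map_of_mem e.toEmbedding hj, ?_⟩
        rw [Equiv.symm_apply_apply]
        exact h2
      · rintro ⟨j, hj, h2⟩
        obtain ⟨j', hj', rfl⟩ := Finset.mem_map.1 hj
        refine ⟨j', hj', ?_⟩
        have h3 : fn (e.symm (e j')) F := h2
        rwa [Equiv.symm_apply_apply] at h3
  · intro i
    show fn (e.symm (e i)) = fn i
    rw [Equiv.symm_apply_apply]

end Pool.Agent.H25.RS
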