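import Pool.Agent.H25.RS.Lower

/-!
Circuits with few special gates detect random formulas on few of many disjoint blocks.
-/

namespace Pool.Agent.H25.RS

open Finset Classical H13
open Pool.Agent.H25.NS (Circuit MonoSize)

/-- Choosing one coordinate again. -/
theorem resample {J : ℕ} {β : Type*} [Fintype β] (j : Fin J) (H : (Fin J → β) → Prop)
    (Q : (Fin J → β) → β → Prop) (hH : ∀ ω y, H (Function.update ω j y) ↔ H ω)
    (hQ : ∀ ω y z, Q (Function.update ω j y) z ↔ Q ω z) {K : ℝ}
    (hK : ∀ ω, H ω → cnt (fun y => Q ω y) ≤ K) (hK0 : 0 ≤ K) :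
    Fintype.card β * cnt (fun ω => H ω ∧ Q ω (ω j)) ≤ K * Fintype.card (Fin J → β) := by
  let e : (Fin J → β) × β ≃ (Fin J → β) × β :=
    { toFun := fun p => (Function.update p.1 j p.2, p.1 j)
      invFun := fun p => (Function.update p.1 j p.2, p.1 j)
      left_inv := fun p => by
        simp only [Function.update_idem, Function.update_eq_self, Function.update_self]
      right_inv := fun p => by
        simp only [Function.update_idem, Function.update_eq_self, Function.update_self] }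
  have h1 : (Fintype.card β : ℝ) * cnt (fun ω => H ω ∧ Q ω (ω j)) =
      cnt (fun p : (Fin J → β) × β => H p.1 ∧ Q p.1 (p.1 j)) := by
    rw [← sum_cnt_prod (fun (ω : Fin J → β) (_ : β) => H ω ∧ Q ω (ω j)),
      sum_cnt_comm (fun (ω : Fin J → β) (_ : β) => H ω ∧ Q ω (ω j)), Finset.sum_const,
      Finset.card_univ, nsmul_eq_mul]
  rw [h1, cnt_equiv e]
  have h2 : cnt (fun p : (Fin J → β) × β => H (e p).1 ∧ Q (e p).1 ((e p).1 j)) =
      cnt (fun p : (Fin J → β) × β => H p.1 ∧ Q p.1 p.2) := by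
    refine cnt_congr fun p => ?_
    show H (Function.update p.1 j p.2) ∧
      Q (Function.update p.1 j p.2) (Function.update p.1 j p.2 j) ↔ _
    rw [hH, hQ, Function.update_self]
  rw [h2, ← sum_cnt_prod (fun (ω : Fin J → β) (y : β) => H ω ∧ Q ω y)]
  have h3 : ∀ ω : Fin J → β, cnt (fun y => H ω ∧ Q ω y) ≤ K := by
    intro ω
    by_cases h : H ω
    · exact (cnt_mono fun y hy => hy.2).trans (hK ω h)
    · rw [cnt_eq_zero fun y hy => h hy.1]
      exact hK0
  refine (Finset.sum_le_sum fun ω _ => h3 ω).trans (le_of_eq ?_)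
  rw [Finset.sum_const, Finset.card_univ, nsmul_eq_mul, mul_comm]

section

variable {n k v J : ℕ}

/-- The clauses of the first `j` blocks which are satisfied by the assignments of the blocks. -/
noncomputable def pre (V : Fin J → Finset (Fin n)) (φ : Fin J → Fin n → Fin v) (j : ℕ)
    (ω : Fin J → Fin v → Bool) : Finset (Clause n k) :=
  univ.filter fun C => ∃ i : Fin J, i.1 < j ∧ (∀ p ∈ C.lits, p.1 ∈ V i) ∧
    Sat (fun x => ω i (φ i x)) C

theorem mem_pre {V : Fin J → Finset (Fin n)} {φ : Fin J → Fin n → Fin v} {j : ℕ}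
    {ω : Fin J → Fin v → Bool} {C : Clause n k} :
    C ∈ pre V φ j ω ↔ ∃ i : Fin J, i.1 < j ∧ (∀ p ∈ C.lits, p.1 ∈ V i) ∧
      Sat (fun x => ω i (φ i x)) C := by
  unfold pre
  exact mem_ufilter

theorem pre_mono {V : Fin J → Finset (Fin n)} {φ : Fin J → Fin n → Fin v} {j : ℕ}
    {ω : Fin J → Fin v → Bool} : (pre V φ j ω : Finset (Clause n k)) ⊆ pre V φ (j + 1) ω := by
  intro C hC
  obtain ⟨i, h1, h2⟩ := mem_pre.1 hC
  exact mem_pre.2 ⟨i, by omega, h2⟩

theorem pre_update {V : Fin J → Finset (Fin n)} {φ : Fin J → Fin n → Fin v} {j : Fin J}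
    {ω : Fin J → Fin v → Bool} {y : Fin v → Bool} :
    (pre V φ j (Function.update ω j y) : Finset (Clause n k)) = pre V φ j ω := by
  ext C
  rw [mem_pre, mem_pre]
  constructor
  · rintro ⟨i, h1, h2, h3⟩
    refine ⟨i, h1, h2, ?_⟩
    have hij : i ≠ j := fun h => by
      rw [h] at h1
      exact lt_irrefl _ h1
    rw [Function.update_of_ne hij] at h3
    exact h3
  · rintro ⟨i, h1, h2, h3⟩
    refine ⟨i, h1, h2, ?_⟩
    have hij : i ≠ j := fun h => by
      rw [h] at h1
      exact lt_irrefl _ h1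
    rw [Function.update_of_ne hij]
    exact h3

/-- The embedding of the formulas on a block. -/
noncomputable def embd (H : Finset (Clause n k)) (V : Finset (Fin n))
    (y : Finset (ClauseOn k V)) : Finset (Clause n k) :=
  H ∪ y.image Subtype.val

theorem embd_spec (H : Finset (Clause n k)) (V : Finset (Fin n)) (z : Clause n k) :
    (∀ y, z ∉ embd H V y) ∨ (∀ y, z ∈ embd H V y) ∨
      ∃ x : ClauseOn k V, ∀ y, z ∈ embd H V y ↔ x ∈ y := by
  by_cases hz : z ∈ H
  · exact Or.inr (Or.inl fun y => Finset.mem_union_left _ hz)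
  · by_cases hV : ∀ p ∈ z.lits, p.1 ∈ V
    · refine Or.inr (Or.inr ⟨⟨z, hV⟩, fun y => ?_⟩)
      unfold embd
      rw [Finset.mem_union, Finset.mem_image]
      constructor
      · rintro (h | ⟨x, hx, hxz⟩)
        · exact absurd h hz
        · have : x = ⟨z, hV⟩ := Subtype.ext hxz
          rwa [this] at hx
      · exact fun h => Or.inr ⟨_, h, rfl⟩
    · refine Or.inl fun y h => ?_
      unfold embd at h
      rw [Finset.mem_union, Finset.mem_image] at h
      rcases h with h | ⟨x, _, hxz⟩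
      · exact hz h
      · rw [← hxz] at hV
        exact hV x.2

theorem pre_succ {V : Fin J → Finset (Fin n)} {φ : Fin J → Fin n → Fin v} {j : Fin J}
    {ω : Fin J → Fin v → Bool} : (pre V φ (j.1 + 1) ω : Finset (Clause n k)) =
      embd (pre V φ j ω) (V j) (neg (litOf Subtype.val (φ j)) (ω j)) := by
  ext C
  unfold embd
  rw [Finset.mem_union, mem_pre, mem_pre, Finset.mem_image]
  constructor
  · rintro ⟨i, h1, h2, h3⟩
    by_cases hij : i = j
    · right
      subst hij
      exact ⟨⟨C, h2⟩, mem_neg_litOf.2 h3, rfl⟩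
    · left
      have : i.1 ≠ j.1 := fun h => hij (Fin.ext h)
      exact ⟨i, by omega, h2, h3⟩
  · rintro (⟨i, h1, h2, h3⟩ | ⟨x, hx, rfl⟩)
    · exact ⟨i, by omega, h2, h3⟩
    · exact ⟨j, by omega, x.2, mem_neg_litOf.1 hx⟩

theorem pre_sat {V : Fin J → Finset (Fin n)} (hV : ∀ i j, i ≠ j → Disjoint (V i) (V j))
    {φ : Fin J → Fin n → Fin v} {j : ℕ} {ω : Fin J → Fin v → Bool} :
    Satisfiable (pre V φ j ω : Finset (Clause n k)) := by
  refine ⟨fun x => if h : ∃ i, x ∈ V i then ω h.choose (φ h.choose x) else false, ?_⟩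
  intro C hC
  obtain ⟨i, _, h2, p, hp, h3⟩ := mem_pre.1 hC
  refine ⟨p, hp, ?_⟩
  have hex : ∃ i, p.1 ∈ V i := ⟨i, h2 p hp⟩
  have hi : hex.choose = i := by
    by_contra hne
    exact Finset.disjoint_left.1 (hV _ _ hne) hex.choose_spec (h2 p hp)
  show (if h : ∃ i, p.1 ∈ V i then ω h.choose (φ h.choose p.1) else false) = p.2
  rw [dif_pos hex, hi]
  exact h3

theorem pre_on {V : Fin J → Finset (Fin n)} (hV : ∀ i j, i ≠ j → Disjoint (V i) (V j))
    {φ : Fin J → Fin n → Fin v} {j : Fin J} {ω : Fin J → Fin v → Bool} :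
    On (pre V φ j ω : Finset (Clause n k)) (V j)ᶜ := by
  intro C hC p hp
  obtain ⟨i, h1, h2, _⟩ := mem_pre.1 hC
  rw [Finset.mem_compl]
  have hij : i ≠ j := fun h => by
    rw [h] at h1
    exact lt_irrefl _ h1
  exact fun h => Finset.disjoint_left.1 (hV i j hij) (h2 p hp) h

/-- One monotone function has few jumps. -/
theorem jumps {V : Fin J → Finset (Fin n)} {φ : Fin J → Fin n → Fin v}
    {M : Finset (Clause n k) → Prop} (hM : ∀ x y, x ⊆ y → M x → M y)
    (Bad : Fin J → (Fin J → Fin v → Bool) → Prop)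
    (hBad : ∀ j ω y, Bad j (Function.update ω j y) ↔ Bad j ω) {η : ℝ} (hη : 0 ≤ η)
    (hjump : ∀ j ω, Bad j ω → cnt (fun y : Fin v → Bool =>
      ¬ M (embd (pre V φ j ω) (V j) (neg (litOf Subtype.val (φ j)) y))) ≤ η * 2 ^ v) :
    ∑ j : Fin J, cnt (fun ω => ¬ M (pre V φ j ω) ∧ Bad j ω) ≤
      (1 + J * η) * Fintype.card (Fin J → Fin v → Bool) := by
  have hβ : (Fintype.card (Fin v → Bool) : ℝ) = 2 ^ v := by
    rw [Fintype.card_fun, Fintype.card_fin, Fintype.card_bool]
    push_cast
    rfl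
  have h1 : ∀ j : Fin J, cnt (fun ω => ¬ M (pre V φ j ω) ∧ Bad j ω) ≤
      η * Fintype.card (Fin J → Fin v → Bool) +
        (cnt (fun ω => M (pre V φ (j.1 + 1) ω)) - cnt (fun ω => M (pre V φ j ω))) := by
    intro j
    have h2 : cnt (fun ω => ¬ M (pre V φ j ω) ∧ Bad j ω) ≤
        cnt (fun ω => Bad j ω ∧ ¬ M (embd (pre V φ j ω) (V j)
          (neg (litOf Subtype.val (φ j)) (ω j)))) +
        cnt (fun ω => ¬ M (pre V φ j ω) ∧ M (pre V φ (j.1 + 1) ω)) := by
      refine le_trans (cnt_mono fun ω hω => ?_) (cnt_or _ _)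
      by_cases h : M (pre V φ (j.1 + 1) ω)
      · exact Or.inr ⟨hω.1, h⟩
      · refine Or.inl ⟨hω.2, ?_⟩
        rw [← pre_succ]
        exact h
    have h3 := resample j (Bad j) (fun ω y => ¬ M (embd (pre V φ j ω) (V j)
      (neg (litOf Subtype.val (φ j)) y))) (hBad j) (fun ω y z => by
        rw [pre_update]) (K := η * 2 ^ v) (hjump j) (by positivity)
    rw [hβ] at h3
    have h4 : cnt (fun ω => Bad j ω ∧ ¬ M (embd (pre V φ j ω) (V j)
        (neg (litOf Subtype.val (φ j)) (ω j)))) ≤ η * Fintype.card (Fin J → Fin v → Bool) := by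
      have h5 : (0 : ℝ) < 2 ^ v := by positivity
      refine le_of_mul_le_mul_left (h3.trans (le_of_eq ?_)) h5
      ring
    have h5 : cnt (fun ω => ¬ M (pre V φ j ω) ∧ M (pre V φ (j.1 + 1) ω)) +
        cnt (fun ω => M (pre V φ j ω)) = cnt (fun ω => M (pre V φ (j.1 + 1) ω)) := by
      unfold cnt
      rw [← Nat.cast_add, ← Finset.card_union_of_disjoint]
      · congr 2
        ext ω
        rw [Finset.mem_union, mem_ufilter (P := fun ω => M (pre V φ (j.1 + 1) ω)),
          mem_ufilter (P := fun ω => M (pre V φ j ω)),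
          mem_ufilter (P := fun ω => ¬ M (pre V φ j ω) ∧ M (pre V φ (j.1 + 1) ω))]
        constructor
        · rintro (h | h)
          · exact h.2
          · exact hM _ _ pre_mono h
        · intro h
          by_cases h' : M (pre V φ j ω)
          · exact Or.inr h'
          · exact Or.inl ⟨h', h⟩
      · rw [Finset.disjoint_left]
        intro ω hω hω'
        rw [mem_ufilter (P := fun ω => M (pre V φ j ω))] at hω'
        rw [mem_ufilter (P := fun ω => ¬ M (pre V φ j ω) ∧ M (pre V φ (j.1 + 1) ω))] at hω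
        exact hω.1 hω'
    linarith
  refine (Finset.sum_le_sum fun j _ => h1 j).trans ?_
  rw [Finset.sum_add_distrib, Finset.sum_const, Finset.card_univ, Fintype.card_fin, nsmul_eq_mul]
  have h2 : ∑ j : Fin J, (cnt (fun ω => M (pre V φ (j.1 + 1) ω)) -
      cnt (fun ω => M (pre V φ j ω))) =
      cnt (fun ω => M (pre V φ J ω)) - cnt (fun ω => M (pre V φ 0 ω)) := by
    rw [Fin.sum_univ_eq_sum_range (fun j => cnt (fun ω => M (pre V φ (j + 1) ω)) -
      cnt (fun ω => M (pre V φ j ω))) J]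
    exact Finset.sum_range_sub (fun j => cnt (fun ω => M (pre V φ j ω))) J
  rw [h2]
  have h3 := cnt_le_card (fun ω => M (pre V φ J ω))
  have h4 := cnt_nonneg (fun ω => M (pre V φ 0 ω))
  linarith

/-- **Disjoint blocks.** -/
theorem blocks {L l m s r t : ℕ} (hk : 2 ≤ k) (hL : 1 ≤ L) (hv1 : 1 ≤ v) (hv : v ≤ 2 ^ L)
    (hkl : k * L ≤ l) (hm : 1 ≤ m) (hs : s ≤ 2 ^ l) (C : Circuit (Clause n k) s r t)
    (out : Fin s) (V : Fin J → Finset (Fin n)) (hVc : ∀ j, (V j).card = v)
    (hV : ∀ i j, i ≠ j → Disjoint (V i) (V j)) :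
    ∑ j : Fin J, cnt (fun c : Fin m → ClauseOn k (V j) =>
      Detects (C.fn out) (V j) (formula fun i => (c i).1)) ≤
      (r * t + 1) * (J * (4 * m * ((2 ^ 18 * k ^ 4 * l ^ 2 * L ^ 3 : ℝ) / v) ^ (k - 1)) +
        2 ^ r * (1 + J * (1 / 2) ^ l)) * (v.choose k * 2 ^ k) ^ m := by
  obtain ⟨B, I, M, b, hB, hI, hM, hb, hloc⟩ := family C out
  set θ : ℝ := 4 * m * ((2 ^ 18 * k ^ 4 * l ^ 2 * L ^ 3 : ℝ) / v) ^ (k - 1) with hθ
  have hθ0 : 0 ≤ θ := by
    rw [hθ]
    positivity
  set N : ℝ := ((v.choose k * 2 ^ k : ℕ) : ℝ) ^ m with hN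
  have hN0 : 0 ≤ N := by
    rw [hN]
    positivity
  have hNe : ((v.choose k : ℝ) * 2 ^ k) ^ m = N := by
    rw [hN]
    push_cast
    rfl
  rw [hNe]
  -- renaming of the variables
  have hφ : ∀ j : Fin J, ∃ φ : Fin n → Fin v, ∀ x ∈ V j, ∀ y ∈ V j, φ x = φ y → x = y := by
    intro j
    let e := (V j).equivFin
    refine ⟨fun x => if h : x ∈ V j then Fin.cast (hVc j) (e ⟨x, h⟩) else ⟨0, hv1⟩, ?_⟩
    intro x hx y hy hxy
    simp only [dif_pos hx, dif_pos hy] at hxy
    have h1 := e.injective (Fin.cast_injective _ hxy)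
    exact congrArg Subtype.val h1
  choose φ hφ using hφ
  have hcardj : ∀ j, Fintype.card (ClauseOn k (V j)) = v.choose k * 2 ^ k := fun j => by
    rw [card_clauseOn, hVc]
  -- the bad events
  let Fm : ∀ j : Fin J, (Fin m → ClauseOn k (V j)) → Finset (ClauseOn k (V j)) := fun j c =>
    univ.image c
  let Bad : Finset (Fin s) → Fin s → Fin J → (Fin J → Fin v → Bool) → Prop := fun β i j ω =>
    θ * N < cnt (fun c : Fin m → ClauseOn k (V j) =>
      M β i (embd (pre V φ j ω) (V j) (Fm j c)))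
  have halt : ∀ β i j ω, Bad β i j ω → cnt (fun y : Fin v → Bool =>
      ¬ M β i (embd (pre V φ j ω) (V j) (neg (litOf Subtype.val (φ j)) y))) ≤
      (1 / 2) ^ l * 2 ^ v := by
    intro β i j ω hbad
    have h := explicit hk hL hv1 hv hkl hm hs (E := ClauseOn k (V j))
      (litOf Subtype.val (φ j))
      (litOf_injective (V := V j) Subtype.val_injective (fun e => e.2) (hφ j))
      (by
        intro h
        rw [hcardj]
        exact pow_le_card h) (embd (pre V φ j ω) (V j))
      (embd_spec (pre V φ j ω) (V j)) (hM β i)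
    rcases h with h | h
    · exact h
    · exfalso
      rw [hcardj, ← hN, ← hθ] at h
      exact absurd hbad (not_lt.2 h)
  have hjumps : ∀ β i, ∑ j : Fin J, cnt (fun ω => ¬ M β i (pre V φ j ω) ∧ Bad β i j ω) ≤
      (1 + J * (1 / 2) ^ l) * Fintype.card (Fin J → Fin v → Bool) := by
    intro β i
    refine jumps (fun x y hxy h => MonoSize.monotone (hM β i) hxy h) (Bad β i) ?_
      (by positivity) (fun j ω h => halt β i j ω h)
    intro j ω y
    show θ * N < _ ↔ θ * N < _
    rw [pre_update]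
  -- detection
  have hdet : ∀ (j : Fin J) (ω : Fin J → Fin v → Bool),
      cnt (fun c : Fin m → ClauseOn k (V j) =>
        Detects (C.fn out) (V j) (formula fun i => (c i).1)) ≤
      I.card * (θ * N) + ∑ β ∈ B, ∑ i ∈ I,
        (if ¬ M β i (pre V φ j ω) ∧ Bad β i j ω then N else 0) := by
    intro j ω
    set x : Finset (Clause n k) := pre V φ j ω with hx
    have h1 : cnt (fun c : Fin m → ClauseOn k (V j) =>
        Detects (C.fn out) (V j) (formula fun i => (c i).1)) ≤
        ∑ i ∈ I, cnt (fun c : Fin m → ClauseOn k (V j) =>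
          ¬ M (b x) i x ∧ M (b x) i (embd x (V j) (Fm j c))) := by
      refine le_trans (cnt_mono fun c hc => ?_) (cnt_exists I _)
      have h2 := hc x (pre_sat hV) (pre_on hV)
      have h3 : x ∪ formula (fun i => (c i).1) = embd x (V j) (Fm j c) := by
        unfold embd formula
        congr 1
        ext C'
        simp only [Fm, Finset.mem_image, Finset.mem_univ, true_and]
        constructor
        · rintro ⟨i, rfl⟩
          exact ⟨c i, ⟨i, rfl⟩, rfl⟩
        · rintro ⟨_, ⟨i, rfl⟩, rfl⟩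
          exact ⟨i, rfl⟩
      rw [h3] at h2
      by_contra hcon
      push Not at hcon
      apply h2
      refine hloc x _ fun i hi => ?_
      constructor
      · intro h
        exact MonoSize.monotone (hM (b x) i) Finset.subset_union_left h
      · intro h
        by_contra h'
        exact hcon i hi h' h
    refine h1.trans ?_
    have h2 : ∀ i ∈ I, cnt (fun c : Fin m → ClauseOn k (V j) =>
          ¬ M (b x) i x ∧ M (b x) i (embd x (V j) (Fm j c))) ≤
        θ * N + ∑ β ∈ B, (if ¬ M β i x ∧ Bad β i j ω then N else 0) := by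
      intro i hi
      have hsum0 : ∀ β ∈ B, (0 : ℝ) ≤ (if ¬ M β i x ∧ Bad β i j ω then N else 0) := by
        intro β _
        split_ifs
        · exact hN0
        · exact le_rfl
      have hθN : 0 ≤ θ * N := mul_nonneg hθ0 hN0
      by_cases hMx : M (b x) i x
      · rw [cnt_eq_zero fun c hc => hc.1 hMx]
        exact add_nonneg hθN (Finset.sum_nonneg hsum0)
      · by_cases hbad : Bad (b x) i j ω
        · have h3 := Finset.single_le_sum hsum0 (hb x)
          rw [if_pos ⟨hMx, hbad⟩] at h3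
          have h4 : cnt (fun c : Fin m → ClauseOn k (V j) =>
              ¬ M (b x) i x ∧ M (b x) i (embd x (V j) (Fm j c))) ≤ N := by
            refine (cnt_le_card _).trans (le_of_eq ?_)
            rw [Fintype.card_fun, hcardj, Fintype.card_fin, hN]
            push_cast
            rfl
          linarith
        · have h3 : cnt (fun c : Fin m → ClauseOn k (V j) =>
              ¬ M (b x) i x ∧ M (b x) i (embd x (V j) (Fm j c))) ≤ θ * N :=
            (cnt_mono fun c hc => hc.2).trans (not_lt.1 hbad)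
          linarith [Finset.sum_nonneg hsum0]
    refine (Finset.sum_le_sum h2).trans (le_of_eq ?_)
    rw [Finset.sum_add_distrib, Finset.sum_const, nsmul_eq_mul, Finset.sum_comm]
  -- summation
  set Ω : ℝ := (Fintype.card (Fin J → Fin v → Bool) : ℝ) with hΩ
  have hΩ0 : 0 < Ω := by
    rw [hΩ]
    exact_mod_cast Fintype.card_pos
  have hIc : (I.card : ℝ) ≤ r * t + 1 := by exact_mod_cast hI
  have hBc : (B.card : ℝ) ≤ 2 ^ r := by exact_mod_cast hB
  have h5 : Ω * ∑ j : Fin J, cnt (fun c : Fin m → ClauseOn k (V j) =>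
      Detects (C.fn out) (V j) (formula fun i => (c i).1)) ≤
      Ω * (J * (I.card * (θ * N))) + (B.card * I.card) * (N * ((1 + J * (1 / 2) ^ l) * Ω)) := by
    have h6 : ∀ j : Fin J, Ω * cnt (fun c : Fin m → ClauseOn k (V j) =>
        Detects (C.fn out) (V j) (formula fun i => (c i).1)) ≤
        Ω * (I.card * (θ * N)) + ∑ β ∈ B, ∑ i ∈ I, N *
          cnt (fun ω => ¬ M β i (pre V φ j ω) ∧ Bad β i j ω) := by
      intro j
      have h7 := Finset.sum_le_sum fun (ω : Fin J → Fin v → Bool) (_ : ω ∈ univ) => hdet j ω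
      rw [Finset.sum_const, Finset.card_univ, nsmul_eq_mul, Finset.sum_add_distrib,
        Finset.sum_const, Finset.card_univ, nsmul_eq_mul] at h7
      refine h7.trans (le_of_eq ?_)
      congr 1
      rw [Finset.sum_comm]
      refine Finset.sum_congr rfl fun β _ => ?_
      rw [Finset.sum_comm]
      refine Finset.sum_congr rfl fun i _ => ?_
      rw [← Finset.sum_filter, Finset.sum_const, nsmul_eq_mul, mul_comm]
      exact congrArg (N * ·) (cnt_eq_card _ _).symm
    rw [Finset.mul_sum]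
    refine (Finset.sum_le_sum fun j _ => h6 j).trans ?_
    rw [Finset.sum_add_distrib, Finset.sum_const, Finset.card_univ, Fintype.card_fin,
      nsmul_eq_mul]
    have h8 : ∑ j : Fin J, ∑ β ∈ B, ∑ i ∈ I, N *
          cnt (fun ω => ¬ M β i (pre V φ j ω) ∧ Bad β i j ω) ≤
        (B.card * I.card) * (N * ((1 + J * (1 / 2) ^ l) * Ω)) := by
      rw [Finset.sum_comm]
      have h9 : ∀ β ∈ B, ∑ j : Fin J, ∑ i ∈ I, N *
          cnt (fun ω => ¬ M β i (pre V φ j ω) ∧ Bad β i j ω) ≤
          I.card * (N * ((1 + J * (1 / 2) ^ l) * Ω)) := by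
        intro β _
        rw [Finset.sum_comm]
        have h10 : ∀ i ∈ I, ∑ j : Fin J, N *
          cnt (fun ω => ¬ M β i (pre V φ j ω) ∧ Bad β i j ω) ≤
          N * ((1 + J * (1 / 2) ^ l) * Ω) := by
          intro i _
          rw [← Finset.mul_sum]
          exact mul_le_mul_of_nonneg_left (hjumps β i) hN0
        refine (Finset.sum_le_sum h10).trans (le_of_eq ?_)
        rw [Finset.sum_const, nsmul_eq_mul]
      refine (Finset.sum_le_sum h9).trans (le_of_eq ?_)
      rw [Finset.sum_const, nsmul_eq_mul]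
      ring
    have h9 : (J : ℝ) * (Ω * (I.card * (θ * N))) = Ω * (J * (I.card * (θ * N))) := by ring
    rw [h9]
    linarith
  refine le_of_mul_le_mul_left (h5.trans ?_) hΩ0
  have hη : (0 : ℝ) ≤ 1 + J * (1 / 2) ^ l := by positivity
  have h6 : Ω * (J * (I.card * (θ * N))) ≤ Ω * (J * ((r * t + 1) * (θ * N))) := by
    gcongr
  have h7 : (B.card * I.card : ℝ) * (N * ((1 + J * (1 / 2) ^ l) * Ω)) ≤
      (2 ^ r * (r * t + 1)) * (N * ((1 + J * (1 / 2) ^ l) * Ω)) := by
    gcongr
  calc _ ≤ Ω * (J * ((r * t + 1) * (θ * N))) +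
        (2 ^ r * (r * t + 1)) * (N * ((1 + J * (1 / 2) ^ l) * Ω)) := add_le_add h6 h7
    _ = _ := by ring

end

end Pool.Agent.H25.RS
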