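import Pool.Agent.H13.Spread

/-!
A random assignment satisfies a member of a spread family of consistent sets of literals up to an
exponentially small probability.
-/

namespace Pool.Agent.H25.RS

open Finset Classical H13

theorem cnt_cons {n : ℕ} {A : Type*} [Fintype A] (P : (Fin (n + 1) → A) → Prop) :
    cnt P = ∑ a : A, cnt fun z : Fin n → A => P (Fin.cons a z) := by
  rw [sum_cnt_prod (fun (a : A) (z : Fin n → A) => P (Fin.cons a z))]
  exact cnt_equiv (Fin.consEquiv (fun _ : Fin (n + 1) => A)) _

theorem cnt_congr {β : Type*} [Fintype β] {P Q : β → Prop} (h : ∀ z, P z ↔ Q z) :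
    cnt P = cnt Q :=
  le_antisymm (cnt_mono fun z hz => (h z).1 hz) (cnt_mono fun z hz => (h z).2 hz)

theorem sum_cnt_comm {α β : Type*} [Fintype α] [Fintype β] (P : α → β → Prop) :
    ∑ a : α, cnt (fun b => P a b) = ∑ b : β, cnt (fun a => P a b) := by
  rw [sum_cnt_prod, sum_cnt_prod fun b a => P a b]
  exact cnt_equiv (Equiv.prodComm β α) _

/-- Replacing the coordinates one after the other. -/
theorem hybrid {A B : Type*} [Fintype A] [Fintype B] (κA : A → Finset Bool) (κB : B → Finset Bool)
    (n : ℕ) : ∀ Fail : (Fin n → Finset Bool) → Prop,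
    (∀ z v, (Fintype.card B : ℝ) * cnt (fun a => Fail (Function.update z v (κA a))) ≤
      Fintype.card A * cnt (fun b => Fail (Function.update z v (κB b)))) →
    (Fintype.card B : ℝ) ^ n * cnt (fun a : Fin n → A => Fail fun v => κA (a v)) ≤
      (Fintype.card A : ℝ) ^ n * cnt (fun b : Fin n → B => Fail fun v => κB (b v)) := by
  induction n with
  | zero =>
    intro Fail _
    rw [pow_zero, pow_zero, one_mul, one_mul]
    have h1 : ∀ (a : Fin 0 → A) (b : Fin 0 → B),
        ((fun v => κA (a v)) : Fin 0 → Finset Bool) = fun v => κB (b v) :=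
      fun a b => funext fun v => v.elim0
    by_cases h : Fail fun v => v.elim0
    · have h2 : cnt (fun a : Fin 0 → A => Fail fun v => κA (a v)) =
          cnt (fun _ : Fin 0 → A => True) := by
        refine cnt_congr fun a => ?_
        have : (fun v => κA (a v)) = fun v : Fin 0 => (v.elim0 : Finset Bool) :=
          funext fun v => v.elim0
        rw [this]
        exact ⟨fun _ => trivial, fun _ => h⟩
      have h3 : cnt (fun a : Fin 0 → B => Fail fun v => κB (a v)) =
          cnt (fun _ : Fin 0 → B => True) := by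
        refine cnt_congr fun a => ?_
        have : (fun v => κB (a v)) = fun v : Fin 0 => (v.elim0 : Finset Bool) :=
          funext fun v => v.elim0
        rw [this]
        exact ⟨fun _ => trivial, fun _ => h⟩
      rw [h2, h3, cnt_true, cnt_true]
      simp
    · have h2 : cnt (fun a : Fin 0 → A => Fail fun v => κA (a v)) = 0 := by
        refine cnt_eq_zero fun a => ?_
        have : (fun v => κA (a v)) = fun v : Fin 0 => (v.elim0 : Finset Bool) :=
          funext fun v => v.elim0
        rw [this]
        exact h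
      rw [h2]
      exact cnt_nonneg _
  | succ n ih =>
    intro Fail hF
    have h1 : ∀ x : Finset Bool, (Fintype.card B : ℝ) ^ n *
        cnt (fun a : Fin n → A => Fail (Fin.cons x fun v => κA (a v))) ≤
        (Fintype.card A : ℝ) ^ n *
          cnt (fun b : Fin n → B => Fail (Fin.cons x fun v => κB (b v))) := by
      intro x
      refine ih (fun z => Fail (Fin.cons x z)) fun z v => ?_
      have h2 := hF (Fin.cons x z) v.succ
      simp only [← Fin.cons_update] at h2
      exact h2
    have h2 : ∀ z : Fin n → Finset Bool, (Fintype.card B : ℝ) *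
        cnt (fun a => Fail (Fin.cons (κA a) z)) ≤
        Fintype.card A * cnt (fun b => Fail (Fin.cons (κB b) z)) := by
      intro z
      have h3 := hF (Fin.cons ∅ z) 0
      simp only [Fin.update_cons_zero] at h3
      exact h3
    have hA : ∀ a0 (a : Fin n → A), ((fun v => κA ((Fin.cons a0 a : Fin (n + 1) → A) v)) :
        Fin (n + 1) → Finset Bool) = Fin.cons (κA a0) fun v => κA (a v) := by
      intro a0 a
      funext v
      refine Fin.cases ?_ (fun v => ?_) v
      · rfl
      · rfl
    have hB : ∀ b0 (b : Fin n → B), ((fun v => κB ((Fin.cons b0 b : Fin (n + 1) → B) v)) :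
        Fin (n + 1) → Finset Bool) = Fin.cons (κB b0) fun v => κB (b v) := by
      intro b0 b
      funext v
      refine Fin.cases ?_ (fun v => ?_) v
      · rfl
      · rfl
    rw [cnt_cons, cnt_cons (A := B)]
    simp only [hA, hB]
    have h4 : (Fintype.card B : ℝ) ^ n *
        ∑ a : A, cnt (fun z : Fin n → A => Fail (Fin.cons (κA a) fun v => κA (z v))) ≤
        (Fintype.card A : ℝ) ^ n *
        ∑ a : A, cnt (fun z : Fin n → B => Fail (Fin.cons (κA a) fun v => κB (z v))) := by
      rw [Finset.mul_sum, Finset.mul_sum]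
      exact Finset.sum_le_sum fun a _ => h1 (κA a)
    have h5 : (Fintype.card B : ℝ) *
        ∑ a : A, cnt (fun z : Fin n → B => Fail (Fin.cons (κA a) fun v => κB (z v))) ≤
        Fintype.card A *
        ∑ b : B, cnt (fun z : Fin n → B => Fail (Fin.cons (κB b) fun v => κB (z v))) := by
      rw [sum_cnt_comm, sum_cnt_comm fun (b : B) (z : Fin n → B) =>
        Fail (Fin.cons (κB b) fun v => κB (z v)), Finset.mul_sum, Finset.mul_sum]
      exact Finset.sum_le_sum fun z _ => h2 fun v => κB (z v)
    have hA0 : (0 : ℝ) ≤ (Fintype.card A : ℝ) ^ n := by positivity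
    have hB0 : (0 : ℝ) ≤ (Fintype.card B : ℝ) := by positivity
    calc _ = (Fintype.card B : ℝ) * ((Fintype.card B : ℝ) ^ n *
          ∑ a : A, cnt (fun z : Fin n → A => Fail (Fin.cons (κA a) fun v => κA (z v)))) := by ring
      _ ≤ (Fintype.card B : ℝ) * ((Fintype.card A : ℝ) ^ n *
        ∑ a : A, cnt (fun z : Fin n → B => Fail (Fin.cons (κA a) fun v => κB (z v)))) :=
          mul_le_mul_of_nonneg_left h4 hB0
      _ = (Fintype.card A : ℝ) ^ n * ((Fintype.card B : ℝ) *
        ∑ a : A, cnt (fun z : Fin n → B => Fail (Fin.cons (κA a) fun v => κB (z v)))) := by ring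
      _ ≤ (Fintype.card A : ℝ) ^ n * (Fintype.card A *
        ∑ b : B, cnt (fun z : Fin n → B => Fail (Fin.cons (κB b) fun v => κB (z v)))) :=
          mul_le_mul_of_nonneg_left h5 hA0
      _ = _ := by ring

/-- A set of literals without complementary pair. -/
def Cons {n : ℕ} (S : Finset (Fin n × Bool)) : Prop := ∀ v, ¬ ((v, true) ∈ S ∧ (v, false) ∈ S)

/-- Independent literals are worse than a random assignment. -/
theorem literals {n : ℕ} {I Θ : Type*} [Fintype Θ] (J : Finset I) (S : I → Finset (Fin n × Bool))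
    (hS : ∀ i ∈ J, Cons (S i)) (G : Θ → Prop)
    (hG : (Fintype.card Θ : ℝ) ≤ 2 * cnt (fun θ => ¬ G θ)) :
    ((Fintype.card Θ : ℝ) ^ 2) ^ n *
      cnt (fun a : Fin n → Bool => ∀ i ∈ J, ∃ p ∈ S i, a p.1 ≠ p.2) ≤
      2 ^ n * cnt (fun w : Fin n → Bool → Θ => ∀ i ∈ J, ∃ p ∈ S i, ¬ G (w p.1 p.2)) := by
  let κA : Bool → Finset Bool := fun b => {b}
  let κB : (Bool → Θ) → Finset Bool := fun w => univ.filter fun b => G (w b)
  let Fail : (Fin n → Finset Bool) → Prop := fun z => ∀ i ∈ J, ∃ p ∈ S i, p.2 ∉ z p.1
  have hcard : Fintype.card (Bool → Θ) = Fintype.card Θ ^ 2 := by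
    rw [Fintype.card_fun, Fintype.card_bool]
  have hmain := hybrid κA κB n Fail ?_
  · rw [hcard, Fintype.card_bool] at hmain
    push_cast at hmain
    have e1 : cnt (fun a : Fin n → Bool => Fail fun v => κA (a v)) =
        cnt (fun a : Fin n → Bool => ∀ i ∈ J, ∃ p ∈ S i, a p.1 ≠ p.2) := by
      refine cnt_congr fun a => ?_
      show (∀ i ∈ J, ∃ p ∈ S i, p.2 ∉ ({a p.1} : Finset Bool)) ↔ _
      simp only [Finset.mem_singleton, ne_eq, eq_comm]
    have e2 : cnt (fun w : Fin n → Bool → Θ => Fail fun v => κB (w v)) =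
        cnt (fun w : Fin n → Bool → Θ => ∀ i ∈ J, ∃ p ∈ S i, ¬ G (w p.1 p.2)) := by
      refine cnt_congr fun w => ?_
      show (∀ i ∈ J, ∃ p ∈ S i, p.2 ∉ univ.filter fun b => G (w p.1 b)) ↔ _
      simp only [mem_ufilter]
    rw [e1, e2] at hmain
    exact hmain
  · intro z v
    rw [hcard, Fintype.card_bool]
    push_cast
    set h : Finset Bool → Prop := fun x => Fail (Function.update z v x) with hh
    have hanti : ∀ x y, x ⊆ y → h y → h x := by
      intro x y hxy hy i hi
      obtain ⟨p, hp, hpy⟩ := hy i hi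
      refine ⟨p, hp, ?_⟩
      by_cases hv : p.1 = v
      · rw [hv, Function.update_self] at hpy ⊢
        exact fun h => hpy (hxy h)
      · rw [Function.update_of_ne hv] at hpy ⊢
        exact hpy
    have hboth : h {true} → h {false} → ∀ x, h x := by
      intro h1 h2 x i hi
      obtain ⟨p, hp, hp1⟩ := h1 i hi
      obtain ⟨p', hp', hp2⟩ := h2 i hi
      by_cases hv : p.1 = v
      · by_cases hv' : p'.1 = v
        · exfalso
          rw [hv, Function.update_self, Finset.mem_singleton] at hp1
          rw [hv', Function.update_self, Finset.mem_singleton] at hp2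
          have e1 : p = (v, false) := Prod.ext hv (by simpa using hp1)
          have e2 : p' = (v, true) := Prod.ext hv' (by simpa using hp2)
          rw [e1] at hp
          rw [e2] at hp'
          exact hS i hi v ⟨hp', hp⟩
        · refine ⟨p', hp', ?_⟩
          rw [Function.update_of_ne hv'] at hp2 ⊢
          exact hp2
      · refine ⟨p, hp, ?_⟩
        rw [Function.update_of_ne hv] at hp1 ⊢
        exact hp1
    have hpair : ∀ b : Bool, h {b} → (Fintype.card Θ : ℝ) ^ 2 ≤
        2 * cnt (fun w : Bool → Θ => h (κB w)) := by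
      intro b hb
      have h1 : cnt (fun w : Bool → Θ => ¬ G (w (!b))) ≤ cnt (fun w : Bool → Θ => h (κB w)) := by
        refine cnt_mono fun w hw => hanti _ {b} ?_ hb
        intro x hx
        rw [Finset.mem_singleton]
        by_contra hxb
        have hxe : x = !b := by
          cases x <;> cases b <;> simp_all
        rw [hxe] at hx
        exact hw ((mem_ufilter (P := fun b => G (w b))).1 hx)
      have h2 : cnt (fun w : Bool → Θ => ¬ G (w (!b))) = cnt (fun θ => ¬ G θ) *
          Fintype.card Θ := by
        have h3 := cnt_pi_const ({!b} : Finset Bool) (univ.filter fun θ => ¬ G θ)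
        rw [Finset.card_singleton, pow_one, pow_one, Fintype.card_bool] at h3
        have h4 : cnt (fun f : Bool → Θ => ∀ i ∈ ({!b} : Finset Bool),
            f i ∈ univ.filter fun θ => ¬ G θ) = cnt (fun w : Bool → Θ => ¬ G (w (!b))) := by
          refine cnt_congr fun w => ?_
          constructor
          · exact fun h => (mem_ufilter (P := fun θ => ¬ G θ)).1
              (h _ (Finset.mem_singleton_self _))
          · intro h i hi
            rw [Finset.mem_singleton.1 hi]
            exact mem_ufilter.2 h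
        rw [h4] at h3
        have h5 : ((univ.filter fun θ => ¬ G θ).card : ℝ) = cnt fun θ => ¬ G θ :=
          (cnt_eq_card _ _).symm
        rw [h5] at h3
        rcases Nat.eq_zero_or_pos (Fintype.card Θ) with h0 | h0
        · have h6 : IsEmpty Θ := Fintype.card_eq_zero_iff.1 h0
          rw [h0]
          have h7 : cnt (fun w : Bool → Θ => ¬ G (w (!b))) = 0 :=
            cnt_eq_zero fun w => h6.elim (w b)
          rw [h7]
          simp
        · have h6 : (0 : ℝ) < Fintype.card Θ := by exact_mod_cast h0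
          have h7 : cnt (fun w : Bool → Θ => ¬ G (w (!b))) * Fintype.card Θ =
              (cnt (fun θ => ¬ G θ) * Fintype.card Θ) * Fintype.card Θ := by
            rw [h3]
            ring
          exact mul_right_cancel₀ h6.ne' h7
      rw [h2] at h1
      have h3 : (0 : ℝ) ≤ Fintype.card Θ := Nat.cast_nonneg _
      nlinarith
    have hcardB : cnt (fun _ : Bool → Θ => True) = (Fintype.card Θ : ℝ) ^ 2 := by
      rw [cnt_true, hcard]
      push_cast
      rfl
    by_cases ht : h {true}
    · by_cases hf : h {false}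
      · have e1 : cnt (fun b : Bool => h (κA b)) ≤ 2 := by
          refine (cnt_le_card _).trans ?_
          rw [Fintype.card_bool]
          norm_num
        have e2 : cnt (fun w : Bool → Θ => h (κB w)) = (Fintype.card Θ : ℝ) ^ 2 := by
          rw [← hcardB]
          exact cnt_congr fun w => ⟨fun _ => trivial, fun _ => hboth ht hf _⟩
        rw [e2]
        have h3 : (0 : ℝ) ≤ (Fintype.card Θ : ℝ) ^ 2 := by positivity
        nlinarith
      · have e1 : cnt (fun b : Bool => h (κA b)) ≤ 1 := by
          have : cnt (fun b : Bool => h (κA b)) ≤ cnt (fun b : Bool => b = true) := by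
            refine cnt_mono fun b hb => ?_
            cases b
            · exact absurd hb hf
            · rfl
          refine this.trans ?_
          rw [cnt_eq_card _ (fun b => inferInstance), Finset.filter_eq' univ true]
          simp
        have e2 := hpair true ht
        have h3 : (0 : ℝ) ≤ (Fintype.card Θ : ℝ) ^ 2 := by positivity
        nlinarith
    · by_cases hf : h {false}
      · have e1 : cnt (fun b : Bool => h (κA b)) ≤ 1 := by
          have : cnt (fun b : Bool => h (κA b)) ≤ cnt (fun b : Bool => b = false) := by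
            refine cnt_mono fun b hb => ?_
            cases b
            · rfl
            · exact absurd hb ht
          refine this.trans ?_
          rw [cnt_eq_card _ (fun b => inferInstance), Finset.filter_eq' univ false]
          simp
        have e2 := hpair false hf
        have h3 : (0 : ℝ) ≤ (Fintype.card Θ : ℝ) ^ 2 := by positivity
        nlinarith
      · have e1 : cnt (fun b : Bool => h (κA b)) = 0 := by
          refine cnt_eq_zero fun b hb => ?_
          cases b
          · exact hf hb
          · exact ht hb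
        rw [e1, mul_zero]
        have := cnt_nonneg fun w : Bool → Θ => h (κB w)
        linarith

/-- Independent repetitions. -/
theorem cnt_pow {β : Type*} [Fintype β] (P : β → Prop) (g : ℕ) :
    cnt (fun z : Fin g → β => ∀ i, P (z i)) = cnt P ^ g := by
  have h2 : cnt (fun z : Fin g → β => ∀ i, P (z i)) = cnt (fun z : Fin g → β =>
      ∀ i ∈ (univ : Finset (Fin g)), z i ∈ univ.filter P) := by
    refine cnt_congr fun z => ?_
    constructor
    · exact fun h i _ => mem_ufilter.2 (h i)
    · exact fun h i => mem_ufilter.1 (h i (Finset.mem_univ i))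
  have h3 := congrArg (Nat.cast (R := ℝ)) (card_pi_restrict (univ : Finset (Fin g))
    (fun _ => univ.filter P))
  rw [h2]
  refine (cnt_eq_card _ _).trans (h3.trans ?_)
  rw [Finset.card_univ, Fintype.card_fin, Nat.sub_self, pow_zero, mul_one, Finset.prod_const,
    Finset.card_univ, Fintype.card_fin, cnt_eq_card P (fun a => inferInstance)]
  push_cast
  rfl

/-- **Covering by a random assignment.** -/
theorem cover {n g ρ q l : ℕ} {I : Type*} (J : Finset I) (S : I → Finset (Fin n × Bool))
    (hS : ∀ i ∈ J, Cons (S i)) (hsize : ∀ i ∈ J, (S i).card ≤ l) (hl : l < 2 ^ ρ)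
    (hq : 0 < q) (hqg : 2 * (g * ρ) ≤ q) (hJ : 0 < J.card) {n₀ L : ℝ} (hn₀ : n₀ ≤ 2 * J.card)
    (hL4 : 4 ≤ L) (hL : 8 * ρ ≤ L)
    (hspread : ∀ U : Finset (Fin n × Bool),
      ((J.filter (fun i => U ⊆ S i)).card : ℝ) * (L * q) ^ U.card ≤ n₀) :
    2 ^ g * cnt (fun a : Fin n → Bool => ∀ i ∈ J, ∃ p ∈ S i, a p.1 ≠ p.2) ≤ 2 ^ n := by
  have hq0 : (0 : ℝ) < q := by exact_mod_cast hq
  have hL0 : 0 < L := by linarith
  have hJ0 : (0 : ℝ) < J.card := by exact_mod_cast hJ
  -- one group of rounds
  have h1 := spread_rounds hq n₀ L hL4 ρ l hl J S hsize hspread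
  set P : (Fin ρ → (Fin n × Bool → Fin q)) → Prop := fun w =>
    ∀ i ∈ J, ∃ x ∈ S i, ∀ r, (w r x).val ≠ 0 with hP
  set K : ℝ := ((q : ℝ) ^ Fintype.card (Fin n × Bool)) ^ ρ with hK
  have hK0 : 0 < K := by positivity
  have h2 : 2 * cnt P ≤ K := by
    have h3 : K * (ρ * (2 / L * n₀)) ≤ K * (1 / 2 * J.card) := by
      refine mul_le_mul_of_nonneg_left ?_ hK0.le
      have h4 : (ρ : ℝ) * (2 / L * n₀) ≤ ρ * (2 / L * (2 * J.card)) := by
        gcongr
      refine h4.trans ?_
      have h5 : (ρ : ℝ) * (2 / L * (2 * J.card)) = (8 * ρ) / L * (1 / 2 * J.card) := by ring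
      rw [h5]
      have h6 : (8 * (ρ : ℝ)) / L ≤ 1 := by
        rw [div_le_one hL0]
        exact hL
      have h7 : (0 : ℝ) ≤ 1 / 2 * J.card := by positivity
      nlinarith
    have h4 : (J.card : ℝ) * cnt P ≤ J.card * (K / 2) := by
      refine h1.trans (h3.trans (le_of_eq ?_))
      ring
    have h5 := le_of_mul_le_mul_left h4 hJ0
    linarith
  -- all groups
  have h3 : 2 ^ g * cnt (fun W : Fin g → Fin ρ → (Fin n × Bool → Fin q) => ∀ i, P (W i)) ≤
      K ^ g := by
    rw [cnt_pow, ← mul_pow]
    have := cnt_nonneg P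
    exact pow_le_pow_left₀ (by positivity) h2 g
  -- currying
  let e : (Fin n → Bool → Fin g → Fin ρ → Fin q) ≃
      (Fin g → Fin ρ → (Fin n × Bool → Fin q)) :=
    { toFun := fun w i r x => w x.1 x.2 i r
      invFun := fun W v b i r => W i r (v, b)
      left_inv := fun w => rfl
      right_inv := fun W => rfl }
  have h4 : cnt (fun w : Fin n → Bool → (Fin g → Fin ρ → Fin q) =>
      ∀ i ∈ J, ∃ p ∈ S i, ¬ ∃ i r, (w p.1 p.2 i r).val = 0) ≤
      cnt (fun W : Fin g → Fin ρ → (Fin n × Bool → Fin q) => ∀ i, P (W i)) := by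
    rw [cnt_equiv e]
    refine cnt_mono fun w hw j i hi => ?_
    obtain ⟨p, hp, h⟩ := hw i hi
    exact ⟨p, hp, fun r h0 => h ⟨j, r, h0⟩⟩
  have h5 := literals J S hS (fun θ : Fin g → Fin ρ → Fin q => ∃ i r, (θ i r).val = 0) ?_
  · have hcard : (Fintype.card (Fin g → Fin ρ → Fin q) : ℝ) = ((q : ℝ) ^ ρ) ^ g := by
      rw [Fintype.card_fun, Fintype.card_fun, Fintype.card_fin, Fintype.card_fin, Fintype.card_fin]
      push_cast
      rfl
    have hcard2 : ((Fintype.card (Fin g → Fin ρ → Fin q) : ℝ) ^ 2) ^ n = K ^ g := by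
      rw [hcard, hK, Fintype.card_prod, Fintype.card_fin, Fintype.card_bool]
      rw [← pow_mul, ← pow_mul, ← pow_mul, ← pow_mul, ← pow_mul]
      congr 1
      ring
    rw [hcard2] at h5
    have hKg : 0 < K ^ g := by positivity
    have h6 : K ^ g * (2 ^ g * cnt (fun a : Fin n → Bool => ∀ i ∈ J, ∃ p ∈ S i, a p.1 ≠ p.2)) ≤
        K ^ g * 2 ^ n := by
      calc K ^ g * (2 ^ g * cnt (fun a : Fin n → Bool => ∀ i ∈ J, ∃ p ∈ S i, a p.1 ≠ p.2))
          = 2 ^ g * (K ^ g * cnt (fun a : Fin n → Bool =>
            ∀ i ∈ J, ∃ p ∈ S i, a p.1 ≠ p.2)) := by ring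
        _ ≤ 2 ^ g * (2 ^ n * cnt (fun W : Fin g → Fin ρ → (Fin n × Bool → Fin q) =>
              ∀ i, P (W i))) := by
            refine mul_le_mul_of_nonneg_left (h5.trans ?_) (by positivity)
            exact mul_le_mul_of_nonneg_left h4 (by positivity)
        _ = 2 ^ n * (2 ^ g * cnt (fun W : Fin g → Fin ρ → (Fin n × Bool → Fin q) =>
              ∀ i, P (W i))) := by ring
        _ ≤ 2 ^ n * K ^ g := mul_le_mul_of_nonneg_left h3 (by positivity)
        _ = _ := by ring
    exact le_of_mul_le_mul_left h6 hKg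
  · -- a literal is covered with probability at most one half
    have hcard : (Fintype.card (Fin g → Fin ρ → Fin q) : ℝ) = ((q : ℝ) ^ ρ) ^ g := by
      rw [Fintype.card_fun, Fintype.card_fun, Fintype.card_fin, Fintype.card_fin, Fintype.card_fin]
      push_cast
      rfl
    have h6 : cnt (fun θ : Fin g → Fin ρ → Fin q => ¬ ∃ i r, (θ i r).val = 0) =
        (((q : ℝ) - 1) ^ ρ) ^ g := by
      have h7 : cnt (fun y : Fin q => y.val ≠ 0) = (q : ℝ) - 1 := by
        have h8 : (univ.filter fun y : Fin q => y.val ≠ 0) = univ.erase ⟨0, hq⟩ := by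
          ext y
          rw [mem_ufilter, Finset.mem_erase]
          constructor
          · intro h
            exact ⟨fun h' => h (by rw [h']), Finset.mem_univ _⟩
          · rintro ⟨h, _⟩ h'
            exact h (Fin.ext h')
        rw [cnt_eq_card _ (fun y => inferInstance), h8,
          Finset.card_erase_of_mem (Finset.mem_univ _), Finset.card_univ, Fintype.card_fin,
          Nat.cast_sub hq]
        push_cast
        rfl
      rw [← h7, ← cnt_pow, ← cnt_pow]
      refine cnt_congr fun θ => ?_
      push Not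
      rfl
    rw [h6, hcard, ← pow_mul, ← pow_mul]
    have h7 : (1 : ℝ) - (ρ * g : ℕ) * (1 / q) ≤ (1 - 1 / q) ^ (ρ * g) := by
      have h8 : (-2 : ℝ) ≤ -(1 / q) := by
        have : (1 : ℝ) / q ≤ 1 := by
          rw [div_le_one hq0]
          exact_mod_cast hq
        linarith
      have h9 := one_add_mul_le_pow h8 (ρ * g)
      calc (1 : ℝ) - (ρ * g : ℕ) * (1 / q) = 1 + (ρ * g : ℕ) * (-(1 / q)) := by ring
        _ ≤ _ := h9
        _ = _ := by
          congr 1
    have h8 : (1 : ℝ) / 2 ≤ 1 - (ρ * g : ℕ) * (1 / q) := by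
      have h9 : (2 * (ρ * g : ℕ) : ℝ) ≤ q := by
        have : 2 * (ρ * g) ≤ q := by
          rw [mul_comm ρ g]
          exact hqg
        exact_mod_cast this
      have h10 : ((ρ * g : ℕ) : ℝ) * (1 / q) ≤ 1 / 2 := by
        rw [mul_one_div, div_le_iff₀ hq0]
        linarith
      linarith
    have h9 : ((q : ℝ) - 1) ^ (ρ * g) = (q : ℝ) ^ (ρ * g) * (1 - 1 / q) ^ (ρ * g) := by
      rw [← mul_pow]
      congr 1
      field_simp
    rw [h9]
    have h10 : (0 : ℝ) < (q : ℝ) ^ (ρ * g) := by positivity
    nlinarith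

end Pool.Agent.H25.RS
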