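import Pool.Agent.H25.RS.Viol
import Pool.Agent.H25.RS.Hybrid
import Pool.Agent.H13.Mono

/-!
Closed families of sets of clauses have few minimal members.
-/

namespace Pool.Agent.H25.RS

open Finset Classical H13

section

variable {n k : ℕ} {E : Type*} [Fintype E] [DecidableEq E] (lit : E → Fin k → Fin n × Bool)

/-- The clauses that are satisfied by an assignment. -/
noncomputable def neg (a : Fin n → Bool) : Finset E :=
  univ.filter fun e => ∃ i, a (lit e i).1 = (lit e i).2

omit [DecidableEq E] in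
theorem mem_neg {a : Fin n → Bool} {e : E} :
    e ∈ neg lit a ↔ ∃ i, a (lit e i).1 = (lit e i).2 := by
  unfold neg
  exact mem_ufilter

omit [Fintype E] [DecidableEq E] in
/-- Literals on private variables. -/
theorem exists_lits {Z : Finset (Fin n)} {D : Finset E} (h : Priv lit Z D) :
    ∃ S : Finset (Fin n × Bool), S.card ≤ D.card ∧ (∀ p ∈ S, ∀ p' ∈ S, p.1 = p'.1 → p = p') ∧
      (∀ e ∈ D, ∃ i, lit e i ∈ S) ∧ ∀ p ∈ S, p.1 ∉ Z ∧ ∃ e ∈ D, p.1 ∈ vars lit e := by
  obtain ⟨f, hf, hfv⟩ := h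
  have h1 : ∀ e : {e // e ∈ D}, ∃ i, (lit e.1 i).1 = f e := fun e =>
    (mem_vars lit).1 (Finset.mem_sdiff.1 (hfv e)).1
  choose i hi using h1
  refine ⟨(univ : Finset {e // e ∈ D}).image fun e => lit e.1 (i e), ?_, ?_, ?_, ?_⟩
  · refine Finset.card_image_le.trans ?_
    rw [Finset.card_univ, Fintype.card_coe]
  · intro p hp p' hp' hpp
    obtain ⟨e, _, rfl⟩ := Finset.mem_image.1 hp
    obtain ⟨e', _, rfl⟩ := Finset.mem_image.1 hp'
    have h2 : f e = f e' := by
      rw [← hi e, ← hi e']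
      exact hpp
    rw [hf h2]
  · intro e he
    exact ⟨i ⟨e, he⟩, Finset.mem_image.2 ⟨⟨e, he⟩, Finset.mem_univ _, rfl⟩⟩
  · intro p hp
    obtain ⟨e, _, rfl⟩ := Finset.mem_image.1 hp
    refine ⟨?_, e.1, e.2, (mem_vars lit).2 ⟨i e, rfl⟩⟩
    rw [hi e]
    exact (Finset.mem_sdiff.1 (hfv e)).2

/-- **Few minimal members.** -/
theorem count_mins (hlit : Function.Injective lit) {c g ρ q : ℕ} {δ R L Y : ℝ}
    (hδ : 1 ≤ δ * 2 ^ g) (hc : c < 2 ^ ρ) (hq : 0 < q) (hqg : 2 * (g * ρ) ≤ q) (hL4 : 4 ≤ L)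
    (hL : 8 * ρ ≤ L) (hY : 2 * (L * q * (k * c) + c) ≤ Y) (hRY : 8 * k * n * Y ^ (k - 1) ≤ R)
    (hYn : Y ≤ n) (hk : 1 ≤ k) (hn : 1 ≤ n) (hR : 1 ≤ R) (G : Finset (Finset E))
    (hG : Closed (neg lit) c δ G) (j : ℕ) (hj : j ≤ c) :
    (((mins G).filter (fun S => S.card = j)).card : ℝ) ≤ R ^ j := by
  by_contra hcon
  push Not at hcon
  set 𝓜 := (mins G).filter (fun S => S.card = j) with h𝓜def
  have h𝓜 : ∀ T ∈ 𝓜, T.card = j := fun T hT => (Finset.mem_filter.1 hT).2
  have hR0 : 0 < R := by linarith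
  have hq1 : (1 : ℝ) ≤ q := by exact_mod_cast hq
  set x : ℝ := L * q with hx
  have hx1 : 1 ≤ x := by nlinarith
  have hx0 : 0 < x := by linarith
  -- choice of the pair
  let val : Finset E × Finset (Fin n) → ℝ := fun p =>
    ((Fam lit 𝓜 p.1 p.2).card : ℝ) * (x ^ p.2.card * R ^ p.1.card)
  let P : Finset (Finset E × Finset (Fin n)) := univ.filter fun p =>
    p.1.card ≤ j ∧ R ^ j < val p
  have hP0 : ((∅ : Finset E), (∅ : Finset (Fin n))) ∈ P := by
    refine mem_ufilter.2 ⟨by simp, ?_⟩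
    have h1 : Fam lit 𝓜 ∅ ∅ = 𝓜 := by
      refine Finset.filter_true_of_mem fun T _ => ⟨Finset.empty_subset _, Finset.empty_subset _⟩
    show R ^ j < ((Fam lit 𝓜 ∅ ∅).card : ℝ) * (x ^ (∅ : Finset (Fin n)).card *
      R ^ (∅ : Finset E).card)
    rw [h1, Finset.card_empty, Finset.card_empty, pow_zero, pow_zero, mul_one, mul_one]
    exact hcon
  obtain ⟨⟨B, Z⟩, hBZ, hmaxP⟩ := Finset.exists_max_image P
    (fun p => p.1.card * (n + 1) + p.2.card) ⟨_, hP0⟩
  obtain ⟨hBj, hbig⟩ := mem_ufilter.1 hBZ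
  dsimp only at hBj
  have hbig' : R ^ j < ((Fam lit 𝓜 B Z).card : ℝ) * (x ^ Z.card * R ^ B.card) := hbig
  have hFamB : ∀ B' Z', ∀ T ∈ Fam lit 𝓜 B' Z', T ∈ 𝓜 ∧ B' ⊆ T ∧
      Z' ⊆ (T \ B').biUnion (vars lit) := fun B' Z' T hT => by
    obtain ⟨h1, h2, h3⟩ := Finset.mem_filter.1 hT
    exact ⟨h1, h2, h3⟩
  have hne : (Fam lit 𝓜 B Z).Nonempty := by
    rw [← Finset.card_pos]
    by_contra h0
    have h1 : (Fam lit 𝓜 B Z).card = 0 := by omega
    rw [h1, Nat.cast_zero, zero_mul] at hbig'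
    have : 0 < R ^ j := by positivity
    linarith
  have hBlt : B.card < j := by
    rcases lt_or_eq_of_le hBj with h | h
    · exact h
    · exfalso
      have h1 : ∀ T ∈ Fam lit 𝓜 B Z, T = B := by
        intro T hT
        obtain ⟨h2, h3, _⟩ := hFamB B Z T hT
        exact (Finset.eq_of_subset_of_card_le h3 (by rw [h𝓜 T h2, h])).symm
      have h2 : (Fam lit 𝓜 B Z).card ≤ 1 := by
        rw [Finset.card_le_one]
        intro T hT T' hT'
        rw [h1 T hT, h1 T' hT']
      obtain ⟨T, hT⟩ := hne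
      obtain ⟨_, _, h4⟩ := hFamB B Z T hT
      rw [h1 T hT, Finset.sdiff_self, Finset.biUnion_empty, Finset.subset_empty] at h4
      rw [h4, Finset.card_empty, pow_zero, one_mul, h] at hbig'
      have h5 : ((Fam lit 𝓜 B Z).card : ℝ) ≤ 1 := by exact_mod_cast h2
      rw [h4] at h5
      have h6 : 0 < R ^ j := by positivity
      nlinarith
  have hmax : ∀ W : Finset E, W.Nonempty → Disjoint B W → ∀ Z' : Finset (Fin n),
      ((Fam lit 𝓜 (B ∪ W) Z').card : ℝ) * (x ^ Z'.card * R ^ (B.card + W.card)) ≤ R ^ j := by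
    intro W hW hBW Z'
    by_contra hcon'
    push Not at hcon'
    have h1 : (B ∪ W).card = B.card + W.card := Finset.card_union_of_disjoint hBW
    have h2 : (B ∪ W).card ≤ j := by
      have h3 : (Fam lit 𝓜 (B ∪ W) Z').Nonempty := by
        rw [← Finset.card_pos]
        by_contra h0
        have h4 : (Fam lit 𝓜 (B ∪ W) Z').card = 0 := by omega
        rw [h4, Nat.cast_zero, zero_mul] at hcon'
        have : 0 < R ^ j := by positivity
        linarith
      obtain ⟨T, hT⟩ := h3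
      obtain ⟨h4, h5, _⟩ := hFamB _ _ T hT
      rw [← h𝓜 T h4]
      exact Finset.card_le_card h5
    have h3 : (B ∪ W, Z') ∈ P := by
      refine mem_ufilter.2 ⟨h2, ?_⟩
      show R ^ j < ((Fam lit 𝓜 (B ∪ W) Z').card : ℝ) * (x ^ Z'.card * R ^ (B ∪ W).card)
      rw [h1]
      exact hcon'
    have h4 := hmaxP _ h3
    dsimp only at h4
    have h5 : Z.card ≤ n := by
      have := Finset.card_le_univ Z
      rwa [Fintype.card_fin] at this
    have h6 : 1 ≤ W.card := Finset.card_pos.2 hW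
    rw [h1] at h4
    have h7 : (B.card + 1) * (n + 1) ≤ (B.card + W.card) * (n + 1) :=
      Nat.mul_le_mul_right _ (by omega)
    have h8 : (B.card + 1) * (n + 1) = B.card * (n + 1) + (n + 1) := by ring
    omega
  have hmaxZ : ∀ Z' : Finset (Fin n), Z.card < Z'.card →
      ((Fam lit 𝓜 B Z').card : ℝ) * (x ^ Z'.card * R ^ B.card) ≤ R ^ j := by
    intro Z' hZ'
    by_contra hcon'
    push Not at hcon'
    have h3 : (B, Z') ∈ P := mem_ufilter.2 ⟨hBj, hcon'⟩
    have h4 := hmaxP _ h3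
    dsimp only at h4
    omega
  have hZc : Z.card ≤ k * c := by
    obtain ⟨T, hT⟩ := hne
    obtain ⟨h1, h2, h3⟩ := hFamB B Z T hT
    refine (Finset.card_le_card h3).trans ?_
    refine (Finset.card_biUnion_le_card_mul _ _ k fun e _ => ?_).trans ?_
    · refine Finset.card_image_le.trans ?_
      rw [Finset.card_univ, Fintype.card_fin]
    · rw [mul_comm]
      refine Nat.mul_le_mul_left _ ?_
      have h4 : (T \ B).card ≤ T.card := Finset.card_le_card Finset.sdiff_subset
      rw [h𝓜 T h1] at h4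
      omega
  -- the bad members
  have hY' : 2 * (x * Z.card + j) ≤ Y := by
    refine le_trans ?_ hY
    have h1 : (Z.card : ℝ) ≤ k * c := by exact_mod_cast hZc
    have h2 : (j : ℝ) ≤ c := by exact_mod_cast hj
    have h3 : x * Z.card ≤ x * (k * c) := mul_le_mul_of_nonneg_left h1 hx0.le
    linarith
  have hbad := bad_card lit hlit 𝓜 h𝓜 B Z hx1 hR0 hmax hY' hRY hYn hk hn
  set Good := (Fam lit 𝓜 B Z).filter fun T => Priv lit Z (T \ B) with hGood
  have hsplit : (Fam lit 𝓜 B Z).card = Good.card +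
      ((Fam lit 𝓜 B Z).filter fun T => ¬ Priv lit Z (T \ B)).card :=
    (Finset.card_filter_add_card_filter_not _).symm
  have hw : 0 < x ^ Z.card * R ^ B.card := by positivity
  have hgood2 : ((Fam lit 𝓜 B Z).card : ℝ) ≤ 2 * Good.card := by
    have h1 : ((Fam lit 𝓜 B Z).card : ℝ) = Good.card +
      ((((Fam lit 𝓜 B Z).filter fun T => ¬ Priv lit Z (T \ B)).card : ℕ) : ℝ) := by
      exact_mod_cast hsplit
    have h2 : ((((Fam lit 𝓜 B Z).filter fun T => ¬ Priv lit Z (T \ B)).card : ℕ) : ℝ) *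
      (x ^ Z.card * R ^ B.card) ≤ (((Fam lit 𝓜 B Z).card : ℝ) / 6) *
        (x ^ Z.card * R ^ B.card) := by
      refine hbad.trans ?_
      linarith
    have h3 := le_of_mul_le_mul_right h2 hw
    linarith [(Nat.cast_nonneg (Fam lit 𝓜 B Z).card : (0 : ℝ) ≤ _)]
  have hGoodpos : 0 < Good.card := by
    have h1 : (0 : ℝ) < (Fam lit 𝓜 B Z).card := by
      exact_mod_cast Finset.card_pos.2 hne
    have h2 : (0 : ℝ) < Good.card := by linarith
    exact_mod_cast h2
  have hGoodP : ∀ T ∈ Good, T ∈ Fam lit 𝓜 B Z ∧ Priv lit Z (T \ B) := fun T hT =>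
    Finset.mem_filter.1 hT
  have hex : ∀ T : Finset E, ∃ S : Finset (Fin n × Bool), T ∈ Good → (S.card ≤ (T \ B).card ∧
      (∀ p ∈ S, ∀ p' ∈ S, p.1 = p'.1 → p = p') ∧
      (∀ e ∈ T \ B, ∃ i, lit e i ∈ S) ∧ ∀ p ∈ S, p.1 ∉ Z ∧ ∃ e ∈ T \ B, p.1 ∈ vars lit e) := by
    intro T
    by_cases hT : T ∈ Good
    · obtain ⟨S, hS⟩ := exists_lits lit (hGoodP T hT).2
      exact ⟨S, fun _ => hS⟩
    · exact ⟨∅, fun h => absurd h hT⟩
  choose S hS using hex
  have hcover := cover (n := n) (g := g) (ρ := ρ) (q := q) (l := c) Good S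
    (by
      intro T hT v hv
      have h1 := (hS T hT).2.1 _ hv.1 _ hv.2 rfl
      have h2 := congrArg Prod.snd h1
      exact Bool.noConfusion h2)
    (by
      intro T hT
      refine (hS T hT).1.trans ?_
      have h1 : (T \ B).card ≤ T.card := Finset.card_le_card Finset.sdiff_subset
      have h2 := h𝓜 T (hFamB B Z T (hGoodP T hT).1).1
      omega) hc hq hqg hGoodpos (n₀ := (Fam lit 𝓜 B Z).card) (L := L) hgood2 hL4 hL
    (by
      intro U
      rcases Finset.eq_empty_or_nonempty (Good.filter fun T => U ⊆ S T) with h0 | ⟨T₀, hT₀⟩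
      · rw [h0, Finset.card_empty, Nat.cast_zero, zero_mul]
        exact Nat.cast_nonneg _
      · obtain ⟨hT₀1, hT₀2⟩ := Finset.mem_filter.1 hT₀
        obtain ⟨_, hinj, _, hout⟩ := hS T₀ hT₀1
        rcases Finset.eq_empty_or_nonempty U with hU | hU
        · rw [hU, Finset.card_empty, pow_zero, mul_one]
          refine Nat.cast_le.2 (Finset.card_le_card ?_)
          exact (Finset.filter_subset _ _).trans (Finset.filter_subset _ _)
        · have hUc : (U.image Prod.fst).card = U.card := by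
            refine Finset.card_image_of_injOn fun p hp p' hp' h => ?_
            exact hinj p (hT₀2 hp) p' (hT₀2 hp') h
          have hdisj : Disjoint Z (U.image Prod.fst) := by
            rw [Finset.disjoint_right]
            intro v hv
            obtain ⟨p, hp, rfl⟩ := Finset.mem_image.1 hv
            exact (hout p (hT₀2 hp)).1
          have hZ' : (Z ∪ U.image Prod.fst).card = Z.card + U.card := by
            rw [Finset.card_union_of_disjoint hdisj, hUc]
          have hsub : Good.filter (fun T => U ⊆ S T) ⊆ Fam lit 𝓜 B (Z ∪ U.image Prod.fst) := by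
            intro T hT
            obtain ⟨hT1, hT2⟩ := Finset.mem_filter.1 hT
            obtain ⟨h1, h2, h3⟩ := hFamB B Z T (hGoodP T hT1).1
            refine Finset.mem_filter.2 ⟨h1, h2, Finset.union_subset h3 ?_⟩
            intro v hv
            obtain ⟨p, hp, rfl⟩ := Finset.mem_image.1 hv
            obtain ⟨e, he, hpe⟩ := ((hS T hT1).2.2.2 p (hT2 hp)).2
            exact Finset.mem_biUnion.2 ⟨e, he, hpe⟩
          have h1 := hmaxZ (Z ∪ U.image Prod.fst) (by
            rw [hZ']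
            have := Finset.card_pos.2 hU
            omega)
          rw [hZ', pow_add] at h1
          have h2 : (((Good.filter fun T => U ⊆ S T).card : ℕ) : ℝ) ≤
              (Fam lit 𝓜 B (Z ∪ U.image Prod.fst)).card := by
            exact_mod_cast Finset.card_le_card hsub
          have h3 : (((Fam lit 𝓜 B (Z ∪ U.image Prod.fst)).card : ℝ) * x ^ U.card) *
              (x ^ Z.card * R ^ B.card) ≤ ((Fam lit 𝓜 B Z).card : ℝ) *
              (x ^ Z.card * R ^ B.card) := by
            refine le_trans (le_of_eq ?_) (h1.trans hbig'.le)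
            ring
          have h4 := le_of_mul_le_mul_right h3 hw
          refine le_trans (mul_le_mul_of_nonneg_right h2 (by positivity)) h4)
  -- closedness
  have hacc : acc G B := by
    refine hG B (by omega) ?_
    have h1 : cnt (fun a : Fin n → Bool => ¬ acc G (neg lit a ∪ B)) ≤
        cnt (fun a : Fin n → Bool => ∀ T ∈ Good, ∃ p ∈ S T, a p.1 ≠ p.2) := by
      refine cnt_mono fun a ha T hT => ?_
      by_contra hno
      push Not at hno
      apply ha
      refine ⟨T, (mem_mins.1 (Finset.mem_filter.1 (hFamB B Z T (hGoodP T hT).1).1).1).1, ?_⟩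
      intro e he
      by_cases heB : e ∈ B
      · exact Finset.mem_union_right _ heB
      · obtain ⟨i, hi⟩ := (hS T hT).2.2.1 e (Finset.mem_sdiff.2 ⟨he, heB⟩)
        exact Finset.mem_union_left _ ((mem_neg lit).2 ⟨i, hno _ hi⟩)
    refine h1.trans ?_
    have h2 : (Fintype.card (Fin n → Bool) : ℝ) = 2 ^ n := by
      rw [Fintype.card_fun, Fintype.card_fin, Fintype.card_bool]
      push_cast
      rfl
    rw [h2]
    have h3 : (0 : ℝ) < 2 ^ g := by positivity
    have h4 : 2 ^ g * cnt (fun a : Fin n → Bool => ∀ T ∈ Good, ∃ p ∈ S T, a p.1 ≠ p.2) ≤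
        2 ^ g * (δ * 2 ^ n) := by
      refine hcover.trans ?_
      have h5 : (0 : ℝ) < 2 ^ n := by positivity
      nlinarith
    exact le_of_mul_le_mul_left h4 h3
  obtain ⟨S₀, hS₀, hS₀B⟩ := hacc
  obtain ⟨T, hT⟩ := hne
  obtain ⟨h1, h2, _⟩ := hFamB B Z T hT
  have h3 := (mem_mins.1 (Finset.mem_filter.1 h1).1).2 S₀ hS₀ (hS₀B.trans h2)
  rw [h3] at hS₀B
  have h4 := Finset.card_le_card hS₀B
  rw [h𝓜 T h1] at h4
  omega

end

end Pool.Agent.H25.RS
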