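import Pool.Agent.H25.RS.Defs
import Pool.Agent.H25.RS.Count

/-!
Enumeration of the clauses on a set of variables.
-/

namespace Pool.Agent.H25.RS

open Finset Classical H13

section

variable {n k : ℕ}

/-- The literals of a clause in some order. -/
noncomputable def enum (C : Clause n k) (i : Fin k) : Fin n × Bool :=
  (C.lits.equivFin.symm (Fin.cast C.card_lits.symm i)).1

theorem enum_mem (C : Clause n k) (i : Fin k) : enum C i ∈ C.lits :=
  (C.lits.equivFin.symm (Fin.cast C.card_lits.symm i)).2

theorem exists_enum {C : Clause n k} {p : Fin n × Bool} (hp : p ∈ C.lits) : ∃ i, enum C i = p := by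
  refine ⟨Fin.cast C.card_lits (C.lits.equivFin ⟨p, hp⟩), ?_⟩
  unfold enum
  have h1 : Fin.cast C.card_lits.symm (Fin.cast C.card_lits (C.lits.equivFin ⟨p, hp⟩)) =
      C.lits.equivFin ⟨p, hp⟩ := Fin.ext rfl
  rw [h1, Equiv.symm_apply_apply]

theorem ext_enum {C C' : Clause n k} (h : ∀ i, enum C i = enum C' i) : C = C' := by
  refine Clause.ext (Finset.ext fun p => ?_)
  constructor
  · intro hp
    obtain ⟨i, rfl⟩ := exists_enum hp
    rw [h i]
    exact enum_mem C' i
  · intro hp
    obtain ⟨i, rfl⟩ := exists_enum hp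
    rw [← h i]
    exact enum_mem C i

/-- The literals of a clause after renaming the variables. -/
noncomputable def litOf {v : ℕ} {E : Type*} (ι : E → Clause n k) (φ : Fin n → Fin v) (e : E)
    (i : Fin k) : Fin v × Bool :=
  (φ (enum (ι e) i).1, (enum (ι e) i).2)

theorem litOf_injective {v : ℕ} {E : Type*} {ι : E → Clause n k} {φ : Fin n → Fin v}
    (hι : Function.Injective ι) {V : Finset (Fin n)} (hV : ∀ e, ∀ p ∈ (ι e).lits, p.1 ∈ V)
    (hφ : ∀ x ∈ V, ∀ y ∈ V, φ x = φ y → x = y) : Function.Injective (litOf ι φ) := by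
  intro e e' h
  refine hι (ext_enum fun i => ?_)
  have h1 := congrFun h i
  have h2 : (litOf ι φ e i).1 = (litOf ι φ e' i).1 := congrArg Prod.fst h1
  have h3 : (litOf ι φ e i).2 = (litOf ι φ e' i).2 := congrArg Prod.snd h1
  exact Prod.ext (hφ _ (hV e _ (enum_mem _ i)) _ (hV e' _ (enum_mem _ i)) h2) h3

theorem mem_neg_litOf {v : ℕ} {E : Type*} [Fintype E] {ι : E → Clause n k} {φ : Fin n → Fin v}
    {a : Fin v → Bool} {e : E} : e ∈ neg (litOf ι φ) a ↔ Sat (fun x => a (φ x)) (ι e) := by
  rw [mem_neg]
  constructor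
  · rintro ⟨i, hi⟩
    exact ⟨enum (ι e) i, enum_mem _ i, hi⟩
  · rintro ⟨p, hp, h⟩
    obtain ⟨i, rfl⟩ := exists_enum hp
    exact ⟨i, h⟩

/-- The clause with the variables `S` and the signs `σ`. -/
noncomputable def mkClause (S : Finset (Fin n)) (hS : S.card = k) (σ : Fin k → Bool) :
    Clause n k :=
  ⟨univ.image fun i => (S.orderEmbOfFin hS i, σ i), by
    rw [Finset.card_image_of_injective, Finset.card_univ, Fintype.card_fin]
    intro i j hij
    exact (S.orderEmbOfFin hS).injective (congrArg Prod.fst hij), by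
    intro p hp q hq hpq
    obtain ⟨i, _, rfl⟩ := Finset.mem_image.1 hp
    obtain ⟨j, _, rfl⟩ := Finset.mem_image.1 hq
    rw [(S.orderEmbOfFin hS).injective hpq]⟩

theorem mem_mkClause {S : Finset (Fin n)} {hS : S.card = k} {σ : Fin k → Bool}
    {p : Fin n × Bool} : p ∈ (mkClause S hS σ).lits ↔ ∃ i, (S.orderEmbOfFin hS i, σ i) = p := by
  unfold mkClause
  simp

theorem fst_mkClause (S : Finset (Fin n)) (hS : S.card = k) (σ : Fin k → Bool) :
    (mkClause S hS σ).lits.image Prod.fst = S := by
  ext x
  rw [Finset.mem_image]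
  constructor
  · rintro ⟨p, hp, rfl⟩
    obtain ⟨i, rfl⟩ := mem_mkClause.1 hp
    exact Finset.orderEmbOfFin_mem S hS i
  · intro hx
    have h1 : x ∈ Set.range (S.orderEmbOfFin hS) := by
      rw [Finset.range_orderEmbOfFin]
      exact hx
    obtain ⟨i, rfl⟩ := h1
    exact ⟨_, mem_mkClause.2 ⟨i, rfl⟩, rfl⟩

/-- The clauses on the variables in `V`. -/
abbrev ClauseOn (k : ℕ) {n : ℕ} (V : Finset (Fin n)) : Type :=
  {C : Clause n k // ∀ p ∈ C.lits, p.1 ∈ V}

/-- **The number of clauses on `V`.** -/
theorem card_clauseOn (V : Finset (Fin n)) :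
    Fintype.card (ClauseOn k V) = V.card.choose k * 2 ^ k := by
  let G : {S // S ∈ powersetCard k V} × (Fin k → Bool) → ClauseOn k V := fun p =>
    ⟨mkClause p.1.1 (Finset.mem_powersetCard.1 p.1.2).2 p.2, by
      intro q hq
      obtain ⟨i, rfl⟩ := mem_mkClause.1 hq
      exact (Finset.mem_powersetCard.1 p.1.2).1 (Finset.orderEmbOfFin_mem _ _ i)⟩
  have hG : Function.Bijective G := by
    constructor
    · rintro ⟨⟨S, hS⟩, σ⟩ ⟨⟨S', hS'⟩, σ'⟩ h
      have h1 : mkClause S (Finset.mem_powersetCard.1 hS).2 σ =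
          mkClause S' (Finset.mem_powersetCard.1 hS').2 σ' := congrArg Subtype.val h
      have h2 : S = S' := by
        rw [← fst_mkClause S (Finset.mem_powersetCard.1 hS).2 σ, h1, fst_mkClause]
      subst h2
      have h3 : σ = σ' := by
        funext i
        have h4 : (S.orderEmbOfFin (Finset.mem_powersetCard.1 hS).2 i, σ i) ∈
            (mkClause S (Finset.mem_powersetCard.1 hS').2 σ').lits := by
          rw [← h1]
          exact mem_mkClause.2 ⟨i, rfl⟩
        obtain ⟨j, hj⟩ := mem_mkClause.1 h4
        have h5 : j = i := (S.orderEmbOfFin _).injective (congrArg Prod.fst hj)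
        rw [h5] at hj
        exact (congrArg Prod.snd hj).symm
      rw [h3]
    · rintro ⟨C, hC⟩
      have hinj : Set.InjOn Prod.fst (C.lits : Set (Fin n × Bool)) := fun p hp q hq h =>
        C.distinct p hp q hq h
      have hS : (C.lits.image Prod.fst).card = k := by
        rw [Finset.card_image_of_injOn hinj, C.card_lits]
      have hSV : C.lits.image Prod.fst ∈ powersetCard k V := by
        refine Finset.mem_powersetCard.2 ⟨?_, hS⟩
        intro x hx
        obtain ⟨p, hp, rfl⟩ := Finset.mem_image.1 hx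
        exact hC p hp
      refine ⟨(⟨C.lits.image Prod.fst, hSV⟩, fun i =>
        decide (((C.lits.image Prod.fst).orderEmbOfFin hS i, true) ∈ C.lits)), ?_⟩
      refine Subtype.ext (Clause.ext ?_)
      refine Finset.eq_of_subset_of_card_le ?_ ?_
      · intro q hq
        obtain ⟨i, rfl⟩ := mem_mkClause.1 hq
        obtain ⟨p, hp, hpi⟩ := Finset.mem_image.1
          (Finset.orderEmbOfFin_mem (C.lits.image Prod.fst) hS i)
        show ((C.lits.image Prod.fst).orderEmbOfFin hS i,
          decide (((C.lits.image Prod.fst).orderEmbOfFin hS i, true) ∈ C.lits)) ∈ C.lits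
        rw [← hpi]
        by_cases h : (p.1, true) ∈ C.lits
        · rw [decide_eq_true h]
          exact h
        · rw [decide_eq_false h]
          have h1 : p = (p.1, false) := by
            refine Prod.ext rfl ?_
            show p.2 = false
            by_contra hne
            have h2 : p.2 = true := by simpa using hne
            apply h
            rw [← h2]
            exact hp
          rw [← h1]
          exact hp
      · show C.lits.card ≤ (mkClause _ _ _).lits.card
        rw [(mkClause _ _ _).card_lits, C.card_lits]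
  rw [← Fintype.card_of_bijective hG, Fintype.card_prod, Fintype.card_coe,
    Finset.card_powersetCard, Fintype.card_fun, Fintype.card_fin, Fintype.card_bool]

theorem card_clause : Fintype.card (Clause n k) = n.choose k * 2 ^ k := by
  have h1 := card_clauseOn (k := k) (univ : Finset (Fin n))
  rw [Finset.card_univ, Fintype.card_fin] at h1
  rw [← h1]
  exact (Fintype.card_congr (Equiv.subtypeUnivEquiv fun C p _ => Finset.mem_univ _)).symm

theorem pow_le_card {v : ℕ} (h : 2 * k ≤ v) :
    v ^ k ≤ k.factorial * (v.choose k * 2 ^ k) := by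
  have h1 : (v + 1 - k) ^ k ≤ k.factorial * v.choose k := by
    have := Nat.pow_sub_le_descFactorial v k
    rwa [Nat.descFactorial_eq_factorial_mul_choose] at this
  calc v ^ k ≤ ((v + 1 - k) * 2) ^ k := Nat.pow_le_pow_left (by omega) k
    _ = (v + 1 - k) ^ k * 2 ^ k := mul_pow _ _ _
    _ ≤ (k.factorial * v.choose k) * 2 ^ k := Nat.mul_le_mul_right _ h1
    _ = _ := by ring

end

end Pool.Agent.H25.RS
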