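import Pool.Agent.H25.RS.Approx
import Pool.Agent.H25.RS.Count
import Pool.Agent.H13.MonoHyper

/-!
Small monotone programs that reject many planted formulas accept few random formulas.
-/

namespace Pool.Agent.H25.RS

open Finset Classical H13
open Pool.Agent.H25.NS (MonoSize)

section

variable {n k : ℕ} {E : Type*} [Fintype E] [DecidableEq E] (lit : E → Fin k → Fin n × Bool)

/-- A given small set of clauses is rarely contained in a random formula. -/
theorem cnt_subset_image (m : ℕ) (S : Finset E) :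
    cnt (fun α : Fin m → E => S ⊆ univ.image α) * (Fintype.card E : ℝ) ^ S.card ≤
      (m : ℝ) ^ S.card * (Fintype.card E : ℝ) ^ m := by
  have h1 : cnt (fun α : Fin m → E => S ⊆ univ.image α) ≤
      ∑ τ : {e // e ∈ S} → Fin m, cnt (fun α : Fin m → E => ∀ e, α (τ e) = e.1) := by
    refine le_trans (cnt_mono fun α hα => ?_) (cnt_exists univ _)
    have h2 : ∀ e : {e // e ∈ S}, ∃ i, α i = e.1 := fun e => by
      obtain ⟨i, _, hi⟩ := Finset.mem_image.1 (hα e.2)
      exact ⟨i, hi⟩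
    choose τ hτ using h2
    exact ⟨τ, Finset.mem_univ _, hτ⟩
  have h2 : ∀ τ : {e // e ∈ S} → Fin m, cnt (fun α : Fin m → E => ∀ e, α (τ e) = e.1) *
      (Fintype.card E : ℝ) ^ S.card ≤ (Fintype.card E : ℝ) ^ m := by
    intro τ
    by_cases h : ∃ α₀ : Fin m → E, ∀ e, α₀ (τ e) = e.1
    · obtain ⟨α₀, hα₀⟩ := h
      have hτ : Function.Injective τ := by
        intro e e' hee
        refine Subtype.ext ?_
        rw [← hα₀ e, ← hα₀ e', hee]
      have h3 := cnt_pi_single (univ.image τ) α₀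
      rw [Finset.card_image_of_injective _ hτ, Finset.card_univ, Fintype.card_coe,
        Fintype.card_fin] at h3
      rw [← h3]
      refine mul_le_mul_of_nonneg_right ?_ (by positivity)
      refine cnt_mono fun α hα i hi => ?_
      obtain ⟨e, _, rfl⟩ := Finset.mem_image.1 hi
      rw [hα e, hα₀ e]
    · rw [cnt_eq_zero fun α hα => h ⟨α, hα⟩, zero_mul]
      positivity
  calc cnt (fun α : Fin m → E => S ⊆ univ.image α) * (Fintype.card E : ℝ) ^ S.card
      ≤ (∑ τ : {e // e ∈ S} → Fin m, cnt (fun α : Fin m → E => ∀ e, α (τ e) = e.1)) *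
        (Fintype.card E : ℝ) ^ S.card := mul_le_mul_of_nonneg_right h1 (by positivity)
    _ = ∑ τ : {e // e ∈ S} → Fin m, cnt (fun α : Fin m → E => ∀ e, α (τ e) = e.1) *
        (Fintype.card E : ℝ) ^ S.card := by rw [Finset.sum_mul]
    _ ≤ ∑ _τ : {e // e ∈ S} → Fin m, (Fintype.card E : ℝ) ^ m :=
        Finset.sum_le_sum fun τ _ => h2 τ
    _ = _ := by
        rw [Finset.sum_const, Finset.card_univ, Fintype.card_fun, Fintype.card_coe,
          Fintype.card_fin, nsmul_eq_mul]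
        push_cast
        rfl

/-- **The data.** -/
theorem data (hlit : Function.Injective lit) {m c' g ρ q : ℕ} {R θ L Y : ℝ}
    (hc1 : 1 ≤ c') (hg : (Fintype.card E + 1) ^ (2 * c') * 4 ^ c' ≤ 2 ^ g)
    (hc : 2 * c' < 2 ^ ρ) (hq : 0 < q) (hqg : 2 * (g * ρ) ≤ q) (hL4 : 4 ≤ L)
    (hL : 8 * ρ ≤ L) (hY : 2 * (L * q * (k * (2 * c' : ℕ)) + (2 * c' : ℕ)) ≤ Y)
    (hRY : 8 * k * n * Y ^ (k - 1) ≤ R)
    (hYn : Y ≤ n) (hk : 1 ≤ k) (hn : 1 ≤ n) (hR : 1 ≤ R) (hθ : θ ≤ 1 / 4)
    (hRθ : R * m ≤ θ * Fintype.card E) (hE : 0 < Fintype.card E) :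
    Data (neg lit) (fun α : Fin m → E => univ.image α) c' R θ (1 / 2 ^ g) := by
  have hE0 : (0 : ℝ) < Fintype.card E := by exact_mod_cast hE
  have hθ0 : 0 ≤ θ := by
    have h1 : 0 ≤ θ * Fintype.card E := le_trans (by positivity) hRθ
    exact nonneg_of_mul_nonneg_left h1 hE0
  refine ⟨hc1, by linarith, hθ0, hθ, by positivity, ?_, ?_, ?_⟩
  · intro G hG l hl
    refine count_mins lit hlit (c := 2 * c') (g := g) (ρ := ρ) (q := q) (δ := 1 / 2 ^ g) (L := L)
      (Y := Y) ?_ hc hq hqg hL4 hL hY hRY hYn hk hn hR G hG l hl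
    rw [one_div, inv_mul_cancel₀ (by positivity)]
  · intro S _
    have h1 := cnt_subset_image (E := E) m S
    rw [Fintype.card_fun, Fintype.card_fin]
    push_cast
    have h2 : cnt (fun α : Fin m → E => S ⊆ univ.image α) ≤
        (m : ℝ) ^ S.card * (Fintype.card E : ℝ) ^ m / (Fintype.card E : ℝ) ^ S.card := by
      rw [le_div_iff₀ (by positivity)]
      exact h1
    calc cnt (fun α : Fin m → E => S ⊆ univ.image α) * R ^ S.card
        ≤ (m : ℝ) ^ S.card * (Fintype.card E : ℝ) ^ m / (Fintype.card E : ℝ) ^ S.card *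
          R ^ S.card := mul_le_mul_of_nonneg_right h2 (by positivity)
      _ = (R * m) ^ S.card * ((Fintype.card E : ℝ) ^ m / (Fintype.card E : ℝ) ^ S.card) := by
          rw [mul_pow]
          ring
      _ ≤ (θ * Fintype.card E) ^ S.card *
          ((Fintype.card E : ℝ) ^ m / (Fintype.card E : ℝ) ^ S.card) := by
          refine mul_le_mul_of_nonneg_right ?_ (by positivity)
          exact pow_le_pow_left₀ (by positivity) hRθ _
      _ = _ := by
          rw [mul_pow]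
          field_simp
  · have h1 := card_small_sets (X := E) (2 * c')
    have h2 : ((univ.filter (fun T : Finset E => T.card ≤ 2 * c')).card) * 4 ^ c' ≤ 2 ^ g :=
      (Nat.mul_le_mul_right _ h1).trans hg
    have h3 : ((univ.filter (fun T : Finset E => T.card ≤ 2 * c')).card : ℝ) * 4 ^ c' ≤
        2 ^ g := by exact_mod_cast h2
    rw [mul_one_div, div_le_iff₀ (by positivity), div_pow, one_pow, one_div_mul_eq_div,
      le_div_iff₀ (by positivity)]
    exact h3

/-- **The core.** -/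
theorem core (hlit : Function.Injective lit) {m c' g ρ q : ℕ} {R θ L Y : ℝ}
    (hc1 : 1 ≤ c') (hg : (Fintype.card E + 1) ^ (2 * c') * 4 ^ c' ≤ 2 ^ g)
    (hc : 2 * c' < 2 ^ ρ) (hq : 0 < q) (hqg : 2 * (g * ρ) ≤ q) (hL4 : 4 ≤ L)
    (hL : 8 * ρ ≤ L) (hY : 2 * (L * q * (k * (2 * c' : ℕ)) + (2 * c' : ℕ)) ≤ Y)
    (hRY : 8 * k * n * Y ^ (k - 1) ≤ R)
    (hYn : Y ≤ n) (hk : 1 ≤ k) (hn : 1 ≤ n) (hR : 1 ≤ R) (hθ : θ ≤ 1 / 4)
    (hRθ : R * m ≤ θ * Fintype.card E) (hE : 0 < Fintype.card E)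
    {Z : Type} (emb : Finset E → Finset Z)
    (hemb : ∀ z : Z, (∀ y, z ∉ emb y) ∨ (∀ y, z ∈ emb y) ∨ ∃ x, ∀ y, z ∈ emb y ↔ x ∈ y)
    {s : ℕ} {f : Finset Z → Prop} (hf : MonoSize s f) :
    cnt (fun a : Fin n → Bool => ¬ f (emb (neg lit a))) ≤
        (s * s + 1 : ℕ) * ((1 / 4) ^ c' * 2 ^ n) ∨
      cnt (fun α : Fin m → E => f (emb (univ.image α))) ≤
        ((s * s + 1 : ℕ) * (1 / 4) ^ c' + 4 / 3 * θ) * (Fintype.card E : ℝ) ^ m := by
  have hD := data lit hlit (m := m) hc1 hg hc hq hqg hL4 hL hY hRY hYn hk hn hR hθ hRθ hE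
  rcases approx_main emb hemb hD hf with h | h
  · left
    refine h.trans (le_of_eq ?_)
    rw [Fintype.card_fun, Fintype.card_fin, Fintype.card_bool]
    push_cast
    rfl
  · right
    refine h.trans (le_of_eq ?_)
    rw [Fintype.card_fun, Fintype.card_fin]
    push_cast
    ring

end

end Pool.Agent.H25.RS
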