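import Mathlib

/-!
Formulas whose clauses have `k` literals on `k` different variables.
-/

namespace Pool.Agent.H25.RS

/-- A clause: a set of `k` literals (a variable and a sign) on `k` different variables. -/
@[ext]
structure Clause (n k : ℕ) where
  /-- the literals -/
  lits : Finset (Fin n × Bool)
  card_lits : lits.card = k
  distinct : ∀ p ∈ lits, ∀ q ∈ lits, p.1 = q.1 → p = q
deriving DecidableEq

noncomputable instance (n k : ℕ) : Fintype (Clause n k) :=
  Fintype.ofInjective Clause.lits fun _ _ => Clause.ext

/-- The assignment `a` satisfies a literal of the clause `C`. -/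
def Sat {n k : ℕ} (a : Fin n → Bool) (C : Clause n k) : Prop :=
  ∃ p ∈ C.lits, a p.1 = p.2

/-- Some assignment satisfies all clauses. -/
def Satisfiable {n k : ℕ} (F : Finset (Clause n k)) : Prop :=
  ∃ a : Fin n → Bool, ∀ C ∈ F, Sat a C

open Classical in
/-- The formula that consists of all clauses satisfied by `a`. -/
noncomputable def planted (k : ℕ) {n : ℕ} (a : Fin n → Bool) : Finset (Clause n k) :=
  Finset.univ.filter (Sat a)

/-- The formula with the clauses `c 0, ..., c (m - 1)`. -/
def formula {n k m : ℕ} (c : Fin m → Clause n k) : Finset (Clause n k) :=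
  Finset.univ.image c

/-- The variables of the clauses of `F` are in `V`. -/
def On {n k : ℕ} (F : Finset (Clause n k)) (V : Finset (Fin n)) : Prop :=
  ∀ C ∈ F, ∀ p ∈ C.lits, p.1 ∈ V

/-- The property `f` tells `H` from `H ∪ F`, for every satisfiable formula `H` on variables
outside `V`. -/
def Detects {n k : ℕ} (f : Finset (Clause n k) → Prop) (V : Finset (Fin n))
    (F : Finset (Clause n k)) : Prop :=
  ∀ H, Satisfiable H → On H Vᶜ → ¬ (f H ↔ f (H ∪ F))

end Pool.Agent.H25.RS
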