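import Pool.Agent.H25.RS.Core

/-!
The alternative for monotone programs, with explicit constants.
-/

namespace Pool.Agent.H25.RS

open Finset Classical H13
open Pool.Agent.H25.NS (MonoSize)

theorem factorial_le_pow_pred {k : ℕ} (hk : 1 ≤ k) : k.factorial ≤ k ^ (k - 1) := by
  induction k, hk using Nat.le_induction with
  | base => norm_num
  | succ k hk ih =>
    rw [Nat.factorial_succ, Nat.add_sub_cancel]
    calc (k + 1) * k.factorial ≤ (k + 1) * k ^ (k - 1) := Nat.mul_le_mul_left _ ih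
      _ ≤ (k + 1) * (k + 1) ^ (k - 1) := Nat.mul_le_mul_left _ (Nat.pow_le_pow_left (by omega) _)
      _ = (k + 1) ^ k := by
          rw [← pow_succ']
          congr 1
          omega

/-- **The explicit alternative.** -/
theorem explicit {v k L l m s : ℕ} (hk : 2 ≤ k) (hL : 1 ≤ L) (hv1 : 1 ≤ v) (hv : v ≤ 2 ^ L)
    (hkl : k * L ≤ l) (hm : 1 ≤ m) (hs : s ≤ 2 ^ l) {E : Type*} [Fintype E] [DecidableEq E]
    (lit : E → Fin k → Fin v × Bool) (hlit : Function.Injective lit)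
    (hE : 2 * k ≤ v → v ^ k ≤ k.factorial * Fintype.card E)
    {Z : Type} (emb : Finset E → Finset Z)
    (hemb : ∀ z : Z, (∀ y, z ∉ emb y) ∨ (∀ y, z ∈ emb y) ∨ ∃ x, ∀ y, z ∈ emb y ↔ x ∈ y)
    {f : Finset Z → Prop} (hf : MonoSize s f) :
    cnt (fun a : Fin v → Bool => ¬ f (emb (neg lit a))) ≤ (1 / 2) ^ l * 2 ^ v ∨
      cnt (fun α : Fin m → E => f (emb (univ.image α))) ≤
        4 * m * ((2 ^ 18 * k ^ 4 * l ^ 2 * L ^ 3 : ℝ) / v) ^ (k - 1) *
          (Fintype.card E : ℝ) ^ m := by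
  have hv0 : (0 : ℝ) < v := by exact_mod_cast hv1
  set D : ℕ := 2 ^ 18 * k ^ 4 * l ^ 2 * L ^ 3 with hD
  have hDR : (2 ^ 18 * k ^ 4 * l ^ 2 * L ^ 3 : ℝ) = (D : ℝ) := by
    rw [hD]
    push_cast
    ring
  rw [hDR]
  set θ : ℝ := m * ((D : ℝ) / v) ^ (k - 1) with hθ
  have hl1 : 1 ≤ l := by nlinarith
  have hmR : (1 : ℝ) ≤ m := by exact_mod_cast hm
  by_cases hθ4 : 1 / 4 < θ
  · right
    refine (cnt_le_card _).trans ?_
    rw [Fintype.card_fun, Fintype.card_fin]
    push_cast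
    have h1 : (0 : ℝ) ≤ (Fintype.card E : ℝ) ^ m := by positivity
    have h2 : (1 : ℝ) ≤ 4 * m * ((D : ℝ) / v) ^ (k - 1) := by
      have : 4 * m * ((D : ℝ) / v) ^ (k - 1) = 4 * θ := by
        rw [hθ]
        ring
      rw [this]
      linarith
    nlinarith
  push Not at hθ4
  have hDv : D ≤ v := by
    by_contra hcon
    push Not at hcon
    have h1 : (1 : ℝ) ≤ (D : ℝ) / v := by
      rw [le_div_iff₀ hv0, one_mul]
      exact_mod_cast hcon.le
    have h2 : (1 : ℝ) ≤ ((D : ℝ) / v) ^ (k - 1) := one_le_pow₀ h1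
    have h3 : (1 : ℝ) ≤ θ := by
      rw [hθ]
      nlinarith
    linarith
  have hk1 : 1 ≤ k := by omega
  have hD1 : 2 ^ 18 * l ^ 2 ≤ D := by
    rw [hD]
    have h1 : 1 ≤ k ^ 4 := Nat.one_le_pow _ _ (by omega)
    have h2 : 1 ≤ L ^ 3 := Nat.one_le_pow _ _ (by omega)
    calc 2 ^ 18 * l ^ 2 = 2 ^ 18 * 1 * l ^ 2 * 1 := by ring
      _ ≤ 2 ^ 18 * k ^ 4 * l ^ 2 * L ^ 3 := by gcongr
  have hkl' : k ≤ l := le_trans (Nat.le_mul_of_pos_right k (by omega)) hkl
  have hDk : 2 * k ≤ v := by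
    have h1 : 2 * k ≤ 2 ^ 18 * l ^ 2 := by nlinarith
    omega
  have hE' := hE hDk
  have hE0 : 0 < Fintype.card E := by
    by_contra h0
    have h1 : Fintype.card E = 0 := by omega
    rw [h1, mul_zero] at hE'
    have : 0 < v ^ k := by positivity
    omega
  have hcardE : Fintype.card E ≤ (2 * v) ^ k := by
    have h1 := Fintype.card_le_of_injective lit hlit
    rw [Fintype.card_fun, Fintype.card_prod, Fintype.card_fin, Fintype.card_fin,
      Fintype.card_bool, mul_comm v 2] at h1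
    exact h1
  set c' : ℕ := 2 * l + 1 with hc'
  set b : ℕ := L + 1 with hb
  set g : ℕ := 2 * c' * (k * (b + 1) + 1) with hg
  set Y : ℕ := 2 ^ 15 * k ^ 2 * l ^ 2 * L ^ 3 with hY
  have hDY : D = 8 * k ^ 2 * Y := by
    rw [hD, hY]
    ring
  have hY1 : 1 ≤ Y := by
    rw [hY]
    have h0 : 0 < k := by omega
    have h1 : 0 < l := by omega
    have h2 : 0 < L := by omega
    have : 0 < 2 ^ 15 * k ^ 2 * l ^ 2 * L ^ 3 := by positivity
    omega
  have hYv : Y ≤ v := by
    refine le_trans ?_ hDv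
    rw [hDY]
    have : 1 ≤ 8 * k ^ 2 := by nlinarith
    nlinarith
  have hgb : (Fintype.card E + 1) ^ (2 * c') * 4 ^ c' ≤ 2 ^ g := by
    have h1 : Fintype.card E + 1 ≤ 2 ^ ((b + 1) * k) := by
      calc Fintype.card E + 1 ≤ (2 * v) ^ k + 1 := by omega
        _ ≤ (2 * v + 1) ^ k := by
            have h2 : (2 * v) ^ k < (2 * v + 1) ^ k := Nat.pow_lt_pow_left (by omega) (by omega)
            omega
        _ ≤ (2 ^ (b + 1)) ^ k := by
            refine Nat.pow_le_pow_left ?_ k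
            rw [hb, pow_succ, pow_succ]
            omega
        _ = 2 ^ ((b + 1) * k) := by rw [pow_mul]
    calc (Fintype.card E + 1) ^ (2 * c') * 4 ^ c'
        ≤ (2 ^ ((b + 1) * k)) ^ (2 * c') * 4 ^ c' :=
          Nat.mul_le_mul_right _ (Nat.pow_le_pow_left h1 _)
      _ = 2 ^ g := by
          rw [hg, show (4 : ℕ) = 2 ^ 2 by norm_num, ← pow_mul, ← pow_mul, ← pow_add]
          congr 1
          ring
  have hYbound : 2 * (8 * b * (2 * (g * b)) * (k * (2 * c')) + 2 * c') ≤ Y := by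
    have h1 : c' ≤ 3 * l := by omega
    have h2 : b ≤ 2 * L := by omega
    have h3 : k * (b + 1) + 1 ≤ 4 * k * L := by
      rw [hb]
      nlinarith
    have h4 : g ≤ 24 * (k * l * L) := by
      calc g ≤ 2 * (3 * l) * (4 * k * L) := by
            rw [hg]
            gcongr
        _ = _ := by ring
    have h5 : 1 ≤ k ^ 2 * l * L ^ 3 := by
      have h0 : 0 < k := by omega
      have h1 : 0 < l := by omega
      have h2 : 0 < L := by omega
      have : 0 < k ^ 2 * l * L ^ 3 := by positivity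
      omega
    calc 2 * (8 * b * (2 * (g * b)) * (k * (2 * c')) + 2 * c')
        ≤ 2 * (8 * (2 * L) * (2 * ((24 * (k * l * L)) * (2 * L))) * (k * (2 * (3 * l))) +
            2 * (3 * l)) := by gcongr
      _ = 18432 * (k ^ 2 * l ^ 2 * L ^ 3) + 12 * l * 1 := by ring
      _ ≤ 18432 * (k ^ 2 * l ^ 2 * L ^ 3) + 12 * l * (k ^ 2 * l * L ^ 3) := by gcongr
      _ = 18444 * (k ^ 2 * l ^ 2 * L ^ 3) := by ring
      _ ≤ 32768 * (k ^ 2 * l ^ 2 * L ^ 3) := by gcongr; norm_num
      _ = Y := by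
          rw [hY]
          ring
  have hpow : 8 * k * k.factorial * Y ^ (k - 1) ≤ D ^ (k - 1) := by
    have h1 := factorial_le_pow_pred hk1
    have h2 : 8 * k ≤ (8 * k) ^ (k - 1) := by
      calc 8 * k = (8 * k) ^ 1 := (pow_one _).symm
        _ ≤ (8 * k) ^ (k - 1) := Nat.pow_le_pow_right (by omega) (by omega)
    calc 8 * k * k.factorial * Y ^ (k - 1) ≤ (8 * k) ^ (k - 1) * k ^ (k - 1) * Y ^ (k - 1) :=
          Nat.mul_le_mul_right _ (Nat.mul_le_mul h2 h1)
      _ = D ^ (k - 1) := by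
          rw [hDY, ← mul_pow, ← mul_pow]
          congr 1
          ring
  have hpowR : 8 * (k : ℝ) * k.factorial * (Y : ℝ) ^ (k - 1) ≤ (D : ℝ) ^ (k - 1) := by
    exact_mod_cast hpow
  have hE'R : (v : ℝ) ^ k ≤ k.factorial * Fintype.card E := by exact_mod_cast hE'
  have hE0R : (0 : ℝ) < Fintype.card E := by exact_mod_cast hE0
  have hkR : (1 : ℝ) ≤ k := by exact_mod_cast hk1
  have hYR : (1 : ℝ) ≤ Y := by exact_mod_cast hY1
  have hbR : (1 : ℝ) ≤ b := by exact_mod_cast (by omega : 1 ≤ b)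
  have hcore := core lit hlit (m := m) (c' := c') (g := g) (ρ := b) (q := 2 * (g * b))
    (R := 8 * k * v * (Y : ℝ) ^ (k - 1)) (θ := θ) (L := 8 * b) (Y := Y) (by omega) hgb
    (by
      have h1 : 2 * c' ≤ 2 ^ 18 * l ^ 2 := by
        rw [hc']
        nlinarith
      have h2 : 2 ^ b = 2 * 2 ^ L := by
        rw [hb, pow_succ]
        ring
      have h3 : 0 < 2 ^ L := by positivity
      omega)
    (by
      have : 0 < g := by
        rw [hg]
        have : 0 < c' := by omega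
        positivity
      positivity) le_rfl (by linarith) le_rfl
    (by exact_mod_cast hYbound) le_rfl (by exact_mod_cast hYv) hk1 hv1
    (by
      have h1 : (1 : ℝ) ≤ (Y : ℝ) ^ (k - 1) := one_le_pow₀ hYR
      have h2 : (1 : ℝ) ≤ v := by exact_mod_cast hv1
      have h3 : (1 : ℝ) ≤ k * v := by nlinarith
      nlinarith)
    hθ4
    (by
      have h2 : (v : ℝ) ^ k = (v : ℝ) ^ (k - 1) * v := by
        rw [← pow_succ]
        congr 1
        omega
      have h3 : 8 * (k : ℝ) * v * (Y : ℝ) ^ (k - 1) * (v : ℝ) ^ (k - 1) ≤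
          (D : ℝ) ^ (k - 1) * Fintype.card E := by
        have hfac : (0 : ℝ) < k.factorial := by exact_mod_cast Nat.factorial_pos k
        have h4 : (k.factorial : ℝ) * (8 * (k : ℝ) * v * (Y : ℝ) ^ (k - 1) * (v : ℝ) ^ (k - 1)) ≤
            k.factorial * ((D : ℝ) ^ (k - 1) * Fintype.card E) := by
          calc (k.factorial : ℝ) * (8 * (k : ℝ) * v * (Y : ℝ) ^ (k - 1) * (v : ℝ) ^ (k - 1))
              = (8 * (k : ℝ) * k.factorial * (Y : ℝ) ^ (k - 1)) * (v : ℝ) ^ k := by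
                rw [h2]
                ring
            _ ≤ (D : ℝ) ^ (k - 1) * (k.factorial * Fintype.card E) := by gcongr
            _ = _ := by ring
        exact le_of_mul_le_mul_left h4 hfac
      calc 8 * (k : ℝ) * v * (Y : ℝ) ^ (k - 1) * m
          = m * (8 * (k : ℝ) * v * (Y : ℝ) ^ (k - 1) * (v : ℝ) ^ (k - 1)) /
              (v : ℝ) ^ (k - 1) := by field_simp
        _ ≤ m * ((D : ℝ) ^ (k - 1) * Fintype.card E) / (v : ℝ) ^ (k - 1) := by gcongr
        _ = θ * Fintype.card E := by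
            rw [hθ, div_pow]
            ring)
    hE0 emb hemb hf
  -- the error term
  have herr : ((s * s + 1 : ℕ) : ℝ) * (1 / 4) ^ c' ≤ (1 / 2) ^ (2 * l + 1) := by
    have h1 : s * s + 1 ≤ 2 ^ (2 * l + 1) := by
      have h2 : s * s ≤ 2 ^ l * 2 ^ l := Nat.mul_le_mul hs hs
      have h3 : 1 ≤ 2 ^ l * 2 ^ l := Nat.one_le_iff_ne_zero.2 (by positivity)
      have h4 : 2 ^ (2 * l + 1) = 2 * (2 ^ l * 2 ^ l) := by
        rw [pow_succ, two_mul l, pow_add]
        ring
      omega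
    have h1R : ((s * s + 1 : ℕ) : ℝ) ≤ 2 ^ (2 * l + 1) := by exact_mod_cast h1
    have h2 : (1 / 4 : ℝ) ^ c' = (1 / 2) ^ (2 * l + 1) * (1 / 2) ^ (2 * l + 1) := by
      rw [hc', ← pow_add, show (1 / 4 : ℝ) = (1 / 2) ^ 2 by norm_num, ← pow_mul]
      congr 1
      ring
    calc ((s * s + 1 : ℕ) : ℝ) * (1 / 4) ^ c'
        ≤ 2 ^ (2 * l + 1) * ((1 / 2) ^ (2 * l + 1) * (1 / 2) ^ (2 * l + 1)) := by
          rw [h2]
          gcongr
      _ = (2 * (1 / 2)) ^ (2 * l + 1) * (1 / 2) ^ (2 * l + 1) := by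
          rw [mul_pow]
          ring
      _ = _ := by norm_num
  have hhalf : ((1 : ℝ) / 2) ^ (2 * l + 1) ≤ (1 / 2) ^ l :=
    pow_le_pow_of_le_one (by norm_num) (by norm_num) (by omega)
  rcases hcore with h1 | h1
  · left
    refine h1.trans ?_
    rw [← mul_assoc]
    exact mul_le_mul_of_nonneg_right (herr.trans hhalf) (by positivity)
  · right
    refine h1.trans (mul_le_mul_of_nonneg_right ?_ (by positivity))
    have h2 : 4 * m * ((D : ℝ) / v) ^ (k - 1) = 4 * θ := by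
      rw [hθ]
      ring
    rw [h2]
    have h3 : ((1 : ℝ) / 2) ^ l ≤ θ := by
      have h4 : ((1 : ℝ) / v) ^ (k - 1) ≤ θ := by
        rw [hθ]
        have h5 : (1 : ℝ) / v ≤ (D : ℝ) / v := by
          refine div_le_div_of_nonneg_right ?_ hv0.le
          have : 1 ≤ D := by nlinarith
          exact_mod_cast this
        have h6 : ((1 : ℝ) / v) ^ (k - 1) ≤ ((D : ℝ) / v) ^ (k - 1) :=
          pow_le_pow_left₀ (by positivity) h5 _
        have h7 : (0 : ℝ) ≤ ((D : ℝ) / v) ^ (k - 1) := by positivity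
        nlinarith
      refine le_trans ?_ h4
      have h5 : (v : ℝ) ^ (k - 1) ≤ 2 ^ l := by
        have h6 : v ^ (k - 1) ≤ 2 ^ l := by
          calc v ^ (k - 1) ≤ (2 ^ L) ^ (k - 1) := Nat.pow_le_pow_left hv _
            _ = 2 ^ (L * (k - 1)) := by rw [← pow_mul]
            _ ≤ 2 ^ l := by
                refine Nat.pow_le_pow_right (by norm_num) (le_trans ?_ hkl)
                rw [mul_comm]
                exact Nat.mul_le_mul_right _ (by omega)
        exact_mod_cast h6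
      rw [div_pow, one_pow, div_pow, one_pow]
      exact one_div_le_one_div_of_le (by positivity) h5
    have h4 : 0 ≤ θ := le_trans (by positivity) h3
    have h5 := herr.trans (hhalf.trans h3)
    linarith

end Pool.Agent.H25.RS
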