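import Pool.Agent.H25.NS.Circuit

/-!
The output of a circuit with few special gates is locally determined by few monotone functions.
-/

namespace Pool.Agent.H25.RS

open Pool.Agent.H25.NS

variable {Y : Type}

/-- A circuit without special gates is a monotone program. -/
theorem monoSize_of_circuit {s t : ℕ} (C : Circuit Y s 0 t) (out : Fin s) :
    MonoSize s (C.fn out) := by
  have hsp : C.special = ∅ := Finset.card_eq_zero.1 (Nat.le_zero.1 C.card_special)
  obtain ⟨f, hf1, hf2⟩ := exists_program C.fn ∅ (by
    intro i _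
    rcases C.gate i with h | h | h | ⟨h, _⟩
    · exact Or.inl h
    · exact Or.inr (Or.inl h)
    · exact Or.inr (Or.inr h)
    · rw [hsp] at h
      exact absurd h (Finset.notMem_empty i)) (fun _ => True)
  exact ⟨f, hf1, out, out.2, fun x => (hf2 out x fun l hl _ => absurd hl
    (Finset.notMem_empty l)).symm⟩

/-- **Locally few monotone functions.** -/
theorem family {s r t : ℕ} (C : Circuit Y s r t) (out : Fin s) :
    ∃ (B : Finset (Finset (Fin s))) (I : Finset (Fin s))
      (M : Finset (Fin s) → Fin s → Finset Y → Prop) (b : Finset Y → Finset (Fin s)),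
      B.card ≤ 2 ^ r ∧ I.card ≤ r * t + 1 ∧ (∀ β i, MonoSize s (M β i)) ∧ (∀ x, b x ∈ B) ∧
      ∀ x y, (∀ i ∈ I, M (b x) i x ↔ M (b x) i y) → (C.fn out x ↔ C.fn out y) := by
  classical
  let P : Fin s → Finset (Fin s) → Prop := fun i S => S.card ≤ t ∧ (∀ j ∈ S, j < i) ∧
        ∀ G H, (∀ j ∈ S, C.fn j G ↔ C.fn j H) → (C.fn i G ↔ C.fn i H)
  let X : Finset (Fin s) := C.special.filter fun i => ∃ S, P i S
  have hXc : X.card ≤ r := (Finset.card_filter_le _ _).trans C.card_special
  have hX : ∀ i, i ∉ X → Plain C.fn i := by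
    intro i hi
    rcases C.gate i with h | h | h | ⟨h, h'⟩
    · exact Or.inl h
    · exact Or.inr (Or.inl h)
    · exact Or.inr (Or.inr h)
    · exact absurd (Finset.mem_filter.2 ⟨h, h'⟩) hi
  choose f hf1 hf2 using fun β : Finset (Fin s) => exists_program C.fn X hX (fun i => i ∈ β)
  let In : Fin s → Finset (Fin s) := fun i => if h : ∃ S, P i S then h.choose else ∅
  have hIn : ∀ i, (∃ S, P i S) → P i (In i) := by
    intro i h
    show P i (if h : ∃ S, P i S then h.choose else ∅)
    rw [dif_pos h]
    exact h.choose_spec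
  have hInc : ∀ i, (In i).card ≤ t := by
    intro i
    by_cases h : ∃ S, P i S
    · exact (hIn i h).1
    · show (if h : ∃ S, P i S then h.choose else ∅).card ≤ t
      rw [dif_neg h]
      simp
  let I : Finset (Fin s) := insert out (X.biUnion In)
  have hI : I.card ≤ r * t + 1 := by
    refine (Finset.card_insert_le _ _).trans ?_
    have h1 : (X.biUnion In).card ≤ X.card * t :=
      Finset.card_biUnion_le_card_mul _ _ _ fun i _ => hInc i
    have h2 : X.card * t ≤ r * t := Nat.mul_le_mul_right _ hXc
    omega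
  refine ⟨X.powerset, I, fun β i x => f β i x, fun x => X.filter fun i => C.fn i x, ?_, hI, ?_,
    ?_, ?_⟩
  · rw [Finset.card_powerset]
    exact Nat.pow_le_pow_right (by norm_num) hXc
  · intro β i
    exact ⟨f β, hf1 β, i, i.2, fun x => Iff.rfl⟩
  · intro x
    exact Finset.mem_powerset.2 (Finset.filter_subset _ _)
  · intro x y hxy
    set β : Finset (Fin s) := X.filter fun i => C.fn i x with hβdef
    have hβx : ∀ l ∈ X, (C.fn l x ↔ l ∈ β) := by
      intro l hl
      simp [hβdef, hl]
    have hx : ∀ i : Fin s, f β i x ↔ C.fn i x := fun i => hf2 β i x fun l hl _ => hβx l hl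
    have hy : ∀ m : ℕ, ∀ l ∈ X, l.1 < m → (C.fn l y ↔ l ∈ β) := by
      intro m
      induction m with
      | zero =>
        intro l _ hl
        omega
      | succ m ih =>
        intro l hl hlm
        have hP := hIn l (Finset.mem_filter.1 hl).2
        rw [← hβx l hl]
        refine (hP.2.2 y x ?_)
        intro j hj
        have hjl : j < l := hP.2.1 j hj
        have hjl' : j.1 < l.1 := hjl
        have h1 : f β j y ↔ C.fn j y := by
          refine hf2 β j y fun l' hl' hl'j => ih l' hl' ?_
          have : l'.1 ≤ j.1 := hl'j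
          omega
        rw [← h1, ← hx j]
        exact (hxy j (Finset.mem_insert_of_mem (Finset.mem_biUnion.2 ⟨l, hl, hj⟩))).symm
    have h1 : f β out y ↔ C.fn out y := hf2 β out y fun l hl _ => hy s l hl l.2
    rw [← h1, ← hx out]
    exact hxy out (Finset.mem_insert_self _ _)

/-- Monotone programs compute monotone functions. -/
theorem MonoSize.monotone {s : ℕ} {f : Finset Y → Prop} (hf : MonoSize s f) {x y : Finset Y}
    (hxy : x ⊆ y) (h : f x) : f y := by
  obtain ⟨g, hg, i, hi, hif⟩ := hf
  have key : ∀ i < s, g i x → g i y := by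
    intro i
    induction i using Nat.strong_induction_on with
    | _ i ih =>
      intro hi hx
      rcases hg i hi with ⟨c, hc⟩ | ⟨S, hS, hc⟩ | ⟨S, hS, hc⟩
      · rw [hc] at hx ⊢
        exact hxy hx
      · rw [hc] at hx ⊢
        exact fun j hj => ih j (hS j hj) ((hS j hj).trans hi) (hx j hj)
      · rw [hc] at hx ⊢
        obtain ⟨j, hj, hjx⟩ := hx
        exact ⟨j, hj, ih j (hS j hj) ((hS j hj).trans hi) hjx⟩
  rw [hif] at h ⊢
  exact key i hi h

end Pool.Agent.H25.RS
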