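import Pool.Agent.H25.RS.Explicit
import Pool.Agent.H25.RS.Clauses
import Pool.Agent.H25.RS.Family

/-!
The lower bound for monotone circuits.
-/

namespace Pool.Agent.H25.RS

open Finset Classical H13
open Pool.Agent.H25.NS (Circuit MonoSize)

/-- **Monotone circuits.** -/
theorem lower {n k L l m s : ℕ} (hk : 2 ≤ k) (hL : 1 ≤ L) (hn1 : 1 ≤ n) (hn : n ≤ 2 ^ L)
    (hkl : k * L ≤ l) (hm : 1 ≤ m) (hs : s ≤ 2 ^ l) (C : Circuit (Clause n k) s 0 0)
    (out : Fin s) :
    cnt (fun a : Fin n → Bool => ¬ C.fn out (planted k a)) ≤ (1 / 2) ^ l * 2 ^ n ∨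
      cnt (fun c : Fin m → Clause n k => C.fn out (formula c)) ≤
        4 * m * ((2 ^ 18 * k ^ 4 * l ^ 2 * L ^ 3 : ℝ) / n) ^ (k - 1) *
          (n.choose k * 2 ^ k) ^ m := by
  have h := explicit hk hL hn1 hn hkl hm hs (E := Clause n k)
    (litOf (fun e : Clause n k => e) (fun x => x))
    (litOf_injective (V := univ) Function.injective_id (fun _ _ _ => Finset.mem_univ _)
      fun x _ y _ h => h)
    (by
      intro h
      rw [card_clause]
      exact pow_le_card h) (fun y => y)
    (fun z => Or.inr (Or.inr ⟨z, fun y => Iff.rfl⟩)) (monoSize_of_circuit C out)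
  have h1 : ∀ a : Fin n → Bool, neg (litOf (fun e : Clause n k => e) (fun x => x)) a =
      planted k a := by
    intro a
    ext e
    rw [mem_neg_litOf]
    unfold planted
    rw [mem_ufilter]
  rcases h with h | h
  · left
    refine le_trans (le_of_eq ?_) h
    refine cnt_congr fun a => ?_
    rw [h1]
  · right
    rw [card_clause] at h
    refine le_trans (le_of_eq ?_) (h.trans (le_of_eq ?_))
    · exact cnt_congr fun c => Iff.rfl
    · push_cast
      rfl

end Pool.Agent.H25.RS
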