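import Pool.Agent.H25.RS.TwoSat
import Pool.Agent.H25.RS.Build
import Pool.Agent.H25.RS.Defs

/-!
A monotone circuit which refutes a formula by fixing the first variables in all possible ways.
-/

namespace Pool.Agent.H25.RS

open Finset Classical
open Pool.Agent.H25.NS (Circuit)

variable {n k : ℕ}

/-- The clause `C` contains the negation of `p` and `q`, and its other literals have variables
smaller than `t` and are falsified by `b`. -/
def Edg (t : ℕ) (b : Fin n → Bool) (p q : Fin n × Bool) (C : Clause n k) : Prop :=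
  ng p ∈ C.lits ∧ q ∈ C.lits ∧ ∀ r ∈ C.lits, r = ng p ∨ r = q ∨ (r.1.1 < t ∧ b r.1 ≠ r.2)

/-- Implications with at most `2 ^ d` steps. -/
def Rch (t : ℕ) (b : Fin n → Bool) (F : Finset (Clause n k)) :
    ℕ → Fin n × Bool → Fin n × Bool → Prop
  | 0 => fun p q => ∃ C ∈ F, Edg t b p q C
  | d + 1 => fun p q => Rch t b F d p q ∨ ∃ r, Rch t b F d p r ∧ Rch t b F d r q

theorem rch_sound {t : ℕ} {b a : Fin n → Bool} {F : Finset (Clause n k)}
    (ha : ∀ C ∈ F, Sat a C) (hab : ∀ x : Fin n, x.1 < t → a x = b x) (d : ℕ) :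
    ∀ p q, Rch t b F d p q → a p.1 = p.2 → a q.1 = q.2 := by
  induction d with
  | zero =>
    rintro p q ⟨C, hC, h1, h2, h3⟩ hp
    obtain ⟨r, hr, har⟩ := ha C hC
    rcases h3 r hr with rfl | rfl | ⟨h4, h5⟩
    · have h6 : a p.1 = !p.2 := har
      rw [hp] at h6
      exact absurd h6.symm (Bool.not_ne_self _)
    · exact har
    · exact absurd ((hab _ h4).symm.trans har) h5
  | succ d ih =>
    rintro p q (h | ⟨r, h1, h2⟩) hp
    · exact ih p q h hp
    · exact ih r q h2 (ih p r h1 hp)

theorem rch_contra {t : ℕ} {b : Fin n → Bool} {F : Finset (Clause n k)} (d : ℕ) :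
    ∀ p q, Rch t b F d p q → Rch t b F d (ng q) (ng p) := by
  induction d with
  | zero =>
    rintro p q ⟨C, hC, h1, h2, h3⟩
    refine ⟨C, hC, ?_, h1, fun r hr => ?_⟩
    · rw [ng_ng]
      exact h2
    · rw [ng_ng]
      rcases h3 r hr with h | h | h
      · exact Or.inr (Or.inl h)
      · exact Or.inl h
      · exact Or.inr (Or.inr h)
  | succ d ih =>
    rintro p q (h | ⟨r, h1, h2⟩)
    · exact Or.inl (ih p q h)
    · exact Or.inr ⟨ng r, ih _ _ h2, ih _ _ h1⟩

theorem rch_zero_le {t : ℕ} {b : Fin n → Bool} {F : Finset (Clause n k)} (d : ℕ) :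
    ∀ p q, Rch t b F 0 p q → Rch t b F d p q := by
  induction d with
  | zero => exact fun p q h => h
  | succ d ih => exact fun p q h => Or.inl (ih p q h)

/-- After `4 n ^ 2` rounds nothing changes. -/
theorem rch_trans {t : ℕ} {b : Fin n → Bool} {F : Finset (Clause n k)} :
    ∀ p q r, Rch t b F (4 * n ^ 2) p q → Rch t b F (4 * n ^ 2) q r →
      Rch t b F (4 * n ^ 2) p r := by
  let S : ℕ → Finset ((Fin n × Bool) × (Fin n × Bool)) := fun d =>
    univ.filter fun z => Rch t b F d z.1 z.2
  have hS : ∀ d z, z ∈ S d ↔ Rch t b F d z.1 z.2 := by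
    intro d z
    show z ∈ univ.filter (fun z => Rch t b F d z.1 z.2) ↔ _
    rw [Finset.mem_filter]
    simp
  have hsub : ∀ d, S d ⊆ S (d + 1) := by
    intro d z hz
    rw [hS] at hz ⊢
    exact Or.inl hz
  have hstep : ∀ d e, S d = S e → S (d + 1) = S (e + 1) := by
    intro d e h
    have h1 : ∀ p q, Rch t b F d p q ↔ Rch t b F e p q := by
      intro p q
      have h2 := hS d (p, q)
      have h3 := hS e (p, q)
      rw [h] at h2
      exact h2.symm.trans h3
    ext z
    rw [hS, hS]
    show (_ ∨ ∃ r, _ ∧ _) ↔ (_ ∨ ∃ r, _ ∧ _)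
    simp only [h1]
  have hcard : ∀ d, (∃ e < d, S e = S (e + 1)) ∨ d ≤ (S d).card := by
    intro d
    induction d with
    | zero => exact Or.inr (Nat.zero_le _)
    | succ d ih =>
      rcases ih with ⟨e, he, h⟩ | ih
      · exact Or.inl ⟨e, by omega, h⟩
      · by_cases h : S d = S (d + 1)
        · exact Or.inl ⟨d, by omega, h⟩
        · right
          have h1 : (S d).card < (S (d + 1)).card :=
            Finset.card_lt_card (Finset.ssubset_iff_subset_ne.2 ⟨hsub d, h⟩)
          omega
  have hmax : ∀ d, (S d).card ≤ 4 * n ^ 2 := by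
    intro d
    refine (Finset.card_le_univ _).trans (le_of_eq ?_)
    rw [Fintype.card_prod, Fintype.card_prod, Fintype.card_fin, Fintype.card_bool]
    ring
  obtain ⟨e, he, hst⟩ : ∃ e < 4 * n ^ 2 + 1, S e = S (e + 1) := by
    rcases hcard (4 * n ^ 2 + 1) with h | h
    · exact h
    · have := hmax (4 * n ^ 2 + 1)
      omega
  have hall : ∀ j, S (e + j) = S e := by
    intro j
    induction j with
    | zero => rfl
    | succ j ih =>
      have h1 := hstep _ _ ih
      rw [← Nat.add_assoc, h1, ← hst]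
  have hD : S (4 * n ^ 2) = S e := by
    have h1 := hall (4 * n ^ 2 - e)
    rwa [Nat.add_sub_cancel' (by omega)] at h1
  have hD1 : S (4 * n ^ 2 + 1) = S (4 * n ^ 2) := by
    have h1 := hall (4 * n ^ 2 + 1 - e)
    rw [Nat.add_sub_cancel' (by omega)] at h1
    rw [h1, hD]
  intro p q r h1 h2
  have h3 : (p, r) ∈ S (4 * n ^ 2 + 1) := (hS _ _).2 (Or.inr ⟨q, h1, h2⟩)
  rw [hD1] at h3
  exact (hS _ _).1 h3

/-- The extension of an assignment of the first `t` variables. -/
def ext {t : ℕ} (b : Fin t → Bool) (x : Fin n) : Bool :=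
  if h : x.1 < t then b ⟨x.1, h⟩ else false

/-- All assignments of the first `t` variables lead to a contradiction. -/
def Refuted (t : ℕ) (F : Finset (Clause n k)) : Prop :=
  ∀ b : Fin t → Bool, ∃ p : Fin n × Bool, Rch t (ext b) F (4 * n ^ 2) p (ng p) ∧
    Rch t (ext b) F (4 * n ^ 2) (ng p) p

theorem not_refuted {t : ℕ} (ht : t ≤ n) {F : Finset (Clause n k)} (hF : Satisfiable F) :
    ¬ Refuted t F := by
  obtain ⟨a, ha⟩ := hF
  intro h
  obtain ⟨p, h1, h2⟩ := h fun i => a ⟨i.1, by have := i.2; omega⟩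
  have hab : ∀ x : Fin n, x.1 < t →
      a x = ext (fun i : Fin t => a ⟨i.1, by have := i.2; omega⟩) x := by
    intro x hx
    unfold ext
    rw [dif_pos hx]
  by_cases hp : a p.1 = p.2
  · have h3 : a p.1 = !p.2 := rch_sound ha hab _ _ _ h1 hp
    rw [hp] at h3
    exact absurd h3.symm (Bool.not_ne_self _)
  · have h3 : a p.1 = !p.2 := Bool.eq_not_iff.2 hp
    exact hp (rch_sound ha hab _ _ _ h2 h3)

/-- If a formula is not refuted, then some assignment falsifies no clause with exactly two
literals outside the first `t` variables. -/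
theorem exists_of_not_refuted {t : ℕ} {F : Finset (Clause n k)} (hF : ¬ Refuted t F) :
    ∃ a : Fin n → Bool, ∀ C ∈ F, ¬ ((∀ p ∈ C.lits, a p.1 ≠ p.2) ∧
      (C.lits.filter fun p => ¬ p.1.1 < t).card = 2) := by
  unfold Refuted at hF
  rw [not_forall] at hF
  obtain ⟨b, hb⟩ := hF
  rw [not_exists] at hb
  obtain ⟨a, ha⟩ := two_sat (Rch t (ext b) F (4 * n ^ 2)) rch_trans (rch_contra _) hb
  refine ⟨fun x => if x.1 < t then ext b x else a x, ?_⟩
  rintro C hC ⟨h1, h2⟩
  obtain ⟨p, q, hpq, h3⟩ := Finset.card_eq_two.1 h2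
  have hp : p ∈ C.lits.filter fun p => ¬ p.1.1 < t := by
    rw [h3]
    exact Finset.mem_insert_self _ _
  have hq : q ∈ C.lits.filter fun p => ¬ p.1.1 < t := by
    rw [h3]
    exact Finset.mem_insert_of_mem (Finset.mem_singleton_self _)
  rw [Finset.mem_filter] at hp hq
  have hE : Edg t (ext b) (ng p) q C := by
    refine ⟨?_, hq.1, fun r hr => ?_⟩
    · rw [ng_ng]
      exact hp.1
    · rw [ng_ng]
      by_cases hrt : r.1.1 < t
      · right
        right
        have h4 := h1 r hr
        simp only [if_pos hrt] at h4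
        exact ⟨hrt, h4⟩
      · have h4 : r ∈ C.lits.filter fun p => ¬ p.1.1 < t := Finset.mem_filter.2 ⟨hr, hrt⟩
        rw [h3, Finset.mem_insert, Finset.mem_singleton] at h4
        rcases h4 with h4 | h4
        · exact Or.inl h4
        · exact Or.inr (Or.inl h4)
  have h4 := ha _ _ (rch_zero_le _ _ _ ⟨C, hC, hE⟩)
  have h5 : a p.1 ≠ p.2 := by
    have := h1 p hp.1
    simp only [if_neg hp.2] at this
    exact this
  have h6 : a q.1 ≠ q.2 := by
    have := h1 q hq.1
    simp only [if_neg hq.2] at this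
    exact this
  apply h6
  apply h4
  show a p.1 = !p.2
  exact Bool.eq_not_iff.2 h5

/-- The gates of the circuit. -/
abbrev Gates (n k t : ℕ) : Type :=
  Clause n k ⊕ ((Fin t → Bool) × Fin (4 * n ^ 2 + 1) × (Fin n × Bool) × (Fin n × Bool)) ⊕
    ((Fin t → Bool) × Fin (4 * n ^ 2 + 1) × (Fin n × Bool) × (Fin n × Bool) × (Fin n × Bool)) ⊕
    (Fin t → Bool) ⊕ Unit

/-- The functions of the gates. -/
def gfn (t : ℕ) : Gates n k t → Finset (Clause n k) → Prop
  | Sum.inl C => fun F => C ∈ F
  | Sum.inr (Sum.inl (b, d, p, q)) => fun F => Rch t (ext b) F d.1 p q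
  | Sum.inr (Sum.inr (Sum.inl (b, d, p, q, r))) => fun F =>
      Rch t (ext b) F d.1 p q ∧ Rch t (ext b) F d.1 q r
  | Sum.inr (Sum.inr (Sum.inr (Sum.inl b))) => fun F =>
      ∃ p : Fin n × Bool, Rch t (ext b) F (4 * n ^ 2) p (ng p) ∧
        Rch t (ext b) F (4 * n ^ 2) (ng p) p
  | Sum.inr (Sum.inr (Sum.inr (Sum.inr _))) => fun F => Refuted t F

/-- The ranks of the gates. -/
def grk (t : ℕ) : Gates n k t → ℕ
  | Sum.inl _ => 0
  | Sum.inr (Sum.inl (_, d, _, _)) => 2 * d.1 + 1
  | Sum.inr (Sum.inr (Sum.inl (_, d, _, _, _))) => 2 * d.1 + 2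
  | Sum.inr (Sum.inr (Sum.inr (Sum.inl _))) => 8 * n ^ 2 + 3
  | Sum.inr (Sum.inr (Sum.inr (Sum.inr _))) => 8 * n ^ 2 + 4

/-- **The circuit.** -/
theorem exists_refuter (n k t : ℕ) :
    ∃ (C : Circuit (Clause n k) (Fintype.card (Gates n k t)) 0 0)
      (out : Fin (Fintype.card (Gates n k t))), ∀ F, C.fn out F ↔ Refuted t F := by
  obtain ⟨C, e, he⟩ := exists_circuit (gfn (n := n) (k := k) t) (grk t) (by
    rintro (c | ⟨b, ⟨d, hd⟩, p, q⟩ | ⟨b, d, p, q, r⟩ | b | u)
    · exact Or.inl ⟨c, fun F => Iff.rfl⟩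
    · cases d with
      | zero =>
        refine Or.inr (Or.inr ⟨(univ.filter fun C => Edg t (ext b) p q C).image Sum.inl, ?_, ?_⟩)
        · intro j hj
          obtain ⟨C, _, rfl⟩ := Finset.mem_image.1 hj
          show 0 < 2 * 0 + 1
          omega
        · intro F
          show (∃ C ∈ F, Edg t (ext b) p q C) ↔ _
          constructor
          · rintro ⟨C, hC, h⟩
            exact ⟨Sum.inl C, Finset.mem_image_of_mem _
              (Finset.mem_filter.2 ⟨Finset.mem_univ _, h⟩), hC⟩
          · rintro ⟨j, hj, h⟩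
            obtain ⟨C, hC, rfl⟩ := Finset.mem_image.1 hj
            exact ⟨C, h, (Finset.mem_filter.1 hC).2⟩
      | succ d =>
        refine Or.inr (Or.inr ⟨insert (Sum.inr (Sum.inl (b, ⟨d, by omega⟩, p, q)))
          (univ.image fun r => Sum.inr (Sum.inr (Sum.inl (b, ⟨d, by omega⟩, p, r, q)))), ?_, ?_⟩)
        · intro j hj
          rcases Finset.mem_insert.1 hj with rfl | hj
          · show 2 * d + 1 < 2 * (d + 1) + 1
            omega
          · obtain ⟨r, _, rfl⟩ := Finset.mem_image.1 hj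
            show 2 * d + 2 < 2 * (d + 1) + 1
            omega
        · intro F
          show (Rch t (ext b) F d p q ∨ ∃ r, Rch t (ext b) F d p r ∧ Rch t (ext b) F d r q) ↔ _
          constructor
          · rintro (h | ⟨r, h⟩)
            · exact ⟨_, Finset.mem_insert_self _ _, h⟩
            · exact ⟨_, Finset.mem_insert_of_mem (Finset.mem_image_of_mem _ (Finset.mem_univ r)),
                h⟩
          · rintro ⟨j, hj, h⟩
            rcases Finset.mem_insert.1 hj with rfl | hj
            · exact Or.inl h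
            · obtain ⟨r, _, rfl⟩ := Finset.mem_image.1 hj
              exact Or.inr ⟨r, h⟩
    · refine Or.inr (Or.inl ⟨{Sum.inr (Sum.inl (b, d, p, q)), Sum.inr (Sum.inl (b, d, q, r))},
        ?_, ?_⟩)
      · intro j hj
        rcases Finset.mem_insert.1 hj with rfl | hj
        · show 2 * d.1 + 1 < 2 * d.1 + 2
          omega
        · rw [Finset.mem_singleton] at hj
          subst hj
          show 2 * d.1 + 1 < 2 * d.1 + 2
          omega
      · intro F
        show (Rch t (ext b) F d.1 p q ∧ Rch t (ext b) F d.1 q r) ↔ _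
        constructor
        · rintro ⟨h1, h2⟩ j hj
          rcases Finset.mem_insert.1 hj with rfl | hj
          · exact h1
          · rw [Finset.mem_singleton] at hj
            subst hj
            exact h2
        · intro h
          exact ⟨h _ (Finset.mem_insert_self _ _),
            h _ (Finset.mem_insert_of_mem (Finset.mem_singleton_self _))⟩
    · refine Or.inr (Or.inr ⟨univ.image fun p => Sum.inr (Sum.inr (Sum.inl
        (b, ⟨4 * n ^ 2, by omega⟩, p, ng p, p))), ?_, ?_⟩)
      · intro j hj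
        obtain ⟨p, _, rfl⟩ := Finset.mem_image.1 hj
        show 2 * (4 * n ^ 2) + 2 < 8 * n ^ 2 + 3
        omega
      · intro F
        constructor
        · rintro ⟨p, h⟩
          exact ⟨_, Finset.mem_image_of_mem _ (Finset.mem_univ p), h⟩
        · rintro ⟨j, hj, h⟩
          obtain ⟨p, _, rfl⟩ := Finset.mem_image.1 hj
          exact ⟨p, h⟩
    · refine Or.inr (Or.inl ⟨univ.image fun b => Sum.inr (Sum.inr (Sum.inr (Sum.inl b))), ?_, ?_⟩)
      · intro j hj
        obtain ⟨b, _, rfl⟩ := Finset.mem_image.1 hj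
        show 8 * n ^ 2 + 3 < 8 * n ^ 2 + 4
        omega
      · intro F
        constructor
        · intro h j hj
          obtain ⟨b, _, rfl⟩ := Finset.mem_image.1 hj
          exact h b
        · intro h b
          exact h _ (Finset.mem_image_of_mem _ (Finset.mem_univ b)))
  exact ⟨C, e (Sum.inr (Sum.inr (Sum.inr (Sum.inr ())))), fun F => by
    rw [he]
    exact Iff.rfl⟩

end Pool.Agent.H25.RS
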