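import Pool.Agent.H25.RS.Chain

/-!
Circuits with few special gates rarely detect a random formula on a random set of variables.
-/

namespace Pool.Agent.H25.RS

open Finset Classical H13
open Pool.Agent.H25.NS (Circuit MonoSize)

theorem cnt_comp_perm {n : ℕ} (σ : Equiv.Perm (Fin n)) (P : Equiv.Perm (Fin n) → Prop) :
    cnt P = cnt fun π => P (σ * π) :=
  cnt_equiv (Equiv.mulLeft σ) P

/-- Any two sets of the same size are related by a permutation. -/
theorem exists_perm {n : ℕ} {A B : Finset (Fin n)} (h : A.card = B.card) :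
    ∃ σ : Equiv.Perm (Fin n), A.map σ.toEmbedding = B := by
  let e : {x // x ∈ A} ≃ {x // x ∈ B} := Finset.equivOfCardEq h
  refine ⟨e.extendSubtype, ?_⟩
  refine Finset.eq_of_subset_of_card_le ?_ (by rw [Finset.card_map, h])
  intro x hx
  obtain ⟨a, ha, rfl⟩ := Finset.mem_map.1 hx
  exact e.extendSubtype_mem a ha

/-- The number of permutations that map one set to another. -/
theorem cnt_perm {n v : ℕ} {A B : Finset (Fin n)} (hA : A.card = v) (hB : B.card = v) :
    cnt (fun π : Equiv.Perm (Fin n) => A.map π.toEmbedding = B) * n.choose v =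
      Fintype.card (Equiv.Perm (Fin n)) := by
  have h1 : ∀ B' ∈ powersetCard v (univ : Finset (Fin n)),
      cnt (fun π : Equiv.Perm (Fin n) => A.map π.toEmbedding = B') =
      cnt (fun π : Equiv.Perm (Fin n) => A.map π.toEmbedding = B) := by
    intro B' hB'
    obtain ⟨σ, hσ⟩ := exists_perm (hB.trans (Finset.mem_powersetCard.1 hB').2.symm)
    rw [cnt_comp_perm σ fun π => A.map π.toEmbedding = B']
    refine cnt_congr fun π => ?_
    have h3 : A.map (σ * π).toEmbedding = (A.map π.toEmbedding).map σ.toEmbedding := by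
      rw [Finset.map_map]
      rfl
    rw [h3, ← hσ]
    exact Finset.map_inj
  have h2 : (Fintype.card (Equiv.Perm (Fin n)) : ℝ) =
      ∑ B' ∈ powersetCard v (univ : Finset (Fin n)),
      cnt (fun π : Equiv.Perm (Fin n) => A.map π.toEmbedding = B') := by
    rw [← Finset.card_univ, Finset.card_eq_sum_card_fiberwise
      (f := fun π : Equiv.Perm (Fin n) => A.map π.toEmbedding)
      (t := powersetCard v (univ : Finset (Fin n)))]
    · push_cast
      exact Finset.sum_congr rfl fun B' _ => (cnt_eq_card _ _).symm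
    · intro π _
      exact Finset.mem_coe.2 (Finset.mem_powersetCard.2
        ⟨Finset.subset_univ _, by rw [Finset.card_map, hA]⟩)
  rw [h2, Finset.sum_congr rfl h1, Finset.sum_const, Finset.card_powersetCard,
    Finset.card_univ, Fintype.card_fin, nsmul_eq_mul, mul_comm]

/-- Disjoint blocks. -/
theorem exists_blocks {n v J : ℕ} (hv : 1 ≤ v) (hJ : J * v ≤ n) :
    ∃ V : Fin J → Finset (Fin n), (∀ j, (V j).card = v) ∧
      ∀ i j, i ≠ j → Disjoint (V i) (V j) := by
  refine ⟨fun j => univ.filter fun x => x.1 / v = j.1, fun j => ?_, fun i j hij => ?_⟩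
  · have hlt : ∀ i : Fin v, j.1 * v + i.1 < n := by
      intro i
      have h1 : (j.1 + 1) * v ≤ n := by
        calc (j.1 + 1) * v ≤ J * v := Nat.mul_le_mul_right _ j.2
          _ ≤ n := hJ
      have h2 : (j.1 + 1) * v = j.1 * v + v := by ring
      have := i.2
      omega
    have h1 : (univ.filter fun x : Fin n => x.1 / v = j.1) =
        univ.image fun i : Fin v => (⟨j.1 * v + i.1, hlt i⟩ : Fin n) := by
      ext x
      rw [mem_ufilter, Finset.mem_image]
      constructor
      · intro h
        refine ⟨⟨x.1 % v, Nat.mod_lt _ hv⟩, Finset.mem_univ _, Fin.ext ?_⟩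
        show j.1 * v + x.1 % v = x.1
        rw [← h, mul_comm]
        exact Nat.div_add_mod x.1 v
      · rintro ⟨i, _, rfl⟩
        show (j.1 * v + i.1) / v = j.1
        rw [mul_comm, Nat.mul_add_div hv, Nat.div_eq_of_lt i.2, add_zero]
    show (univ.filter fun x : Fin n => x.1 / v = j.1).card = v
    rw [h1, Finset.card_image_of_injective, Finset.card_univ, Fintype.card_fin]
    intro i i' h
    have h2 : j.1 * v + i.1 = j.1 * v + i'.1 := congrArg Fin.val h
    exact Fin.ext (by omega)
  · rw [Finset.disjoint_left]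
    intro x hx hx'
    rw [mem_ufilter] at hx hx'
    exact hij (Fin.ext (hx.symm.trans hx'))

/-- **The semirandom lower bound.** -/
theorem semirandom {n k v L l m s r t : ℕ} (hk : 2 ≤ k) (hL : 1 ≤ L) (hv1 : 1 ≤ v)
    (hv : v ≤ 2 ^ L) (hvn : v ≤ n) (hkl : k * L ≤ l) (hm : 1 ≤ m) (hs : s ≤ 2 ^ l)
    (C : Circuit (Clause n k) s r t) (out : Fin s) :
    cnt (fun p : Finset (Fin n) × (Fin m → Clause n k) => p.1.card = v ∧
      On (formula p.2) p.1 ∧ Detects (C.fn out) p.1 (formula p.2)) ≤
      (r * t + 1) * (4 * m * ((2 ^ 18 * k ^ 4 * l ^ 2 * L ^ 3 : ℝ) / v) ^ (k - 1) +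
        2 ^ r * (2 * v / n + (1 / 2) ^ l)) * (n.choose v * (v.choose k * 2 ^ k) ^ m) := by
  set θ : ℝ := 4 * m * ((2 ^ 18 * k ^ 4 * l ^ 2 * L ^ 3 : ℝ) / v) ^ (k - 1) with hθ
  set N : ℝ := ((v.choose k : ℝ) * 2 ^ k) ^ m with hN
  have hN0 : 0 ≤ N := by
    rw [hN]
    positivity
  have hv0 : (0 : ℝ) < v := by exact_mod_cast hv1
  have hn0 : (0 : ℝ) < n := by exact_mod_cast (by omega : 0 < n)
  let D : Finset (Fin n) → ℝ := fun V => cnt fun c : Fin m → ClauseOn k V =>
    Detects (C.fn out) V (formula fun i => (c i).1)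
  have hD0 : ∀ V, 0 ≤ D V := fun V => cnt_nonneg _
  -- the count of pairs
  have h1 : cnt (fun p : Finset (Fin n) × (Fin m → Clause n k) => p.1.card = v ∧
      On (formula p.2) p.1 ∧ Detects (C.fn out) p.1 (formula p.2)) ≤
      ∑ V ∈ powersetCard v univ, D V := by
    rw [← sum_cnt_prod (fun (V : Finset (Fin n)) (c : Fin m → Clause n k) => V.card = v ∧
      On (formula c) V ∧ Detects (C.fn out) V (formula c))]
    have h2 : ∀ V : Finset (Fin n), cnt (fun c : Fin m → Clause n k => V.card = v ∧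
      On (formula c) V ∧ Detects (C.fn out) V (formula c)) ≤
        if V ∈ powersetCard v (univ : Finset (Fin n)) then D V else 0 := by
      intro V
      by_cases hV : V.card = v
      · rw [if_pos (Finset.mem_powersetCard.2 ⟨Finset.subset_univ _, hV⟩)]
        show cnt _ ≤ cnt _
        unfold cnt
        rw [Nat.cast_le]
        refine Finset.card_le_card_of_surjOn (fun c : Fin m → ClauseOn k V => fun i => (c i).1) ?_
        intro c hc
        obtain ⟨_, h3, h4⟩ := (mem_ufilter (P := fun c : Fin m → Clause n k => V.card = v ∧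
          On (formula c) V ∧ Detects (C.fn out) V (formula c))).1 (Finset.mem_coe.1 hc)
        have h5 : ∀ i, ∀ p ∈ (c i).lits, p.1 ∈ V := fun i =>
          h3 (c i) (Finset.mem_image_of_mem _ (Finset.mem_univ i))
        refine ⟨fun i => ⟨c i, h5 i⟩, Finset.mem_coe.2 (mem_ufilter.2 h4), rfl⟩
      · rw [if_neg fun h => hV (Finset.mem_powersetCard.1 h).2, cnt_eq_zero fun c hc => hV hc.1]
    refine (Finset.sum_le_sum fun V _ => h2 V).trans (le_of_eq ?_)
    rw [Finset.sum_ite_mem, Finset.univ_inter]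
  refine h1.trans ?_
  -- blocks
  obtain ⟨J, hJ⟩ : ∃ J, J = n / v := ⟨_, rfl⟩
  obtain ⟨V₀, hVc, hVd⟩ := exists_blocks (n := n) (J := J) hv1
    (by rw [hJ]; exact Nat.div_mul_le_self n v)
  have hJ1 : 1 ≤ J := by
    rw [hJ]
    exact (Nat.one_le_div_iff (by omega)).2 hvn
  have hJ0 : (0 : ℝ) < J := by exact_mod_cast hJ1
  have hπ : ∀ π : Equiv.Perm (Fin n), ∑ j : Fin J, D ((V₀ j).map π.toEmbedding) ≤
      (r * t + 1) * (J * θ + 2 ^ r * (1 + J * (1 / 2) ^ l)) * N := by
    intro π
    exact blocks hk hL hv1 hv hkl hm hs C out (fun j => (V₀ j).map π.toEmbedding)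
      (fun j => by rw [Finset.card_map, hVc]) (fun i j hij => by
        rw [Finset.disjoint_map]
        exact hVd i j hij)
  set K : ℝ := (Fintype.card (Equiv.Perm (Fin n)) : ℝ) with hK
  have hK0 : 0 < K := by
    rw [hK]
    exact_mod_cast Fintype.card_pos
  have hj : ∀ j : Fin J, (n.choose v : ℝ) * ∑ π : Equiv.Perm (Fin n),
      D ((V₀ j).map π.toEmbedding) = K * ∑ V ∈ powersetCard v univ, D V := by
    intro j
    have h2 : ∑ π : Equiv.Perm (Fin n), D ((V₀ j).map π.toEmbedding) =
        ∑ V ∈ powersetCard v univ,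
          cnt (fun π : Equiv.Perm (Fin n) => (V₀ j).map π.toEmbedding = V) * D V := by
      rw [← Finset.sum_fiberwise_of_maps_to (s := univ) (t := powersetCard v univ)
        (g := fun π : Equiv.Perm (Fin n) => (V₀ j).map π.toEmbedding)]
      · refine Finset.sum_congr rfl fun V _ => ?_
        have h3 : ∀ π ∈ univ.filter fun π : Equiv.Perm (Fin n) =>
            (V₀ j).map π.toEmbedding = V, D ((V₀ j).map π.toEmbedding) = D V := by
          intro π hπ
          rw [(Finset.mem_filter.1 hπ).2]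
        rw [Finset.sum_congr rfl h3, Finset.sum_const, nsmul_eq_mul]
        exact congrArg (· * D V) (cnt_eq_card _ _).symm
      · intro π _
        exact Finset.mem_powersetCard.2 ⟨Finset.subset_univ _, by rw [Finset.card_map, hVc]⟩
    rw [h2, Finset.mul_sum, Finset.mul_sum]
    refine Finset.sum_congr rfl fun V hV => ?_
    rw [hK, ← cnt_perm (hVc j) (Finset.mem_powersetCard.1 hV).2]
    ring
  have h2 : (J : ℝ) * (K * ∑ V ∈ powersetCard v univ, D V) ≤
      (n.choose v : ℝ) * (K * ((r * t + 1) * (J * θ + 2 ^ r * (1 + J * (1 / 2) ^ l)) * N)) := by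
    calc (J : ℝ) * (K * ∑ V ∈ powersetCard v univ, D V)
        = ∑ _j : Fin J, (K * ∑ V ∈ powersetCard v univ, D V) := by
          rw [Finset.sum_const, Finset.card_univ, Fintype.card_fin, nsmul_eq_mul]
      _ = ∑ j : Fin J, (n.choose v : ℝ) * ∑ π : Equiv.Perm (Fin n),
            D ((V₀ j).map π.toEmbedding) := Finset.sum_congr rfl fun j _ => (hj j).symm
      _ = (n.choose v : ℝ) * ∑ π : Equiv.Perm (Fin n), ∑ j : Fin J,
            D ((V₀ j).map π.toEmbedding) := by
          rw [← Finset.mul_sum, Finset.sum_comm]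
      _ ≤ (n.choose v : ℝ) * ∑ _π : Equiv.Perm (Fin n),
            ((r * t + 1) * (J * θ + 2 ^ r * (1 + J * (1 / 2) ^ l)) * N) :=
          mul_le_mul_of_nonneg_left (Finset.sum_le_sum fun π _ => hπ π) (Nat.cast_nonneg _)
      _ = _ := by
          rw [Finset.sum_const, Finset.card_univ, nsmul_eq_mul]
  have h3 : ∑ V ∈ powersetCard v univ, D V ≤
      (r * t + 1) * (θ + 2 ^ r * (1 / J + (1 / 2) ^ l)) * (n.choose v * N) := by
    have h4 : (J * K) * ∑ V ∈ powersetCard v univ, D V ≤
        (J * K) * ((r * t + 1) * (θ + 2 ^ r * (1 / J + (1 / 2) ^ l)) * (n.choose v * N)) := by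
      refine le_trans (le_of_eq (by ring)) (h2.trans (le_of_eq ?_))
      field_simp
    exact le_of_mul_le_mul_left h4 (by positivity)
  refine h3.trans ?_
  have h4 : (1 : ℝ) / J ≤ 2 * v / n := by
    rw [div_le_div_iff₀ hJ0 hn0, one_mul]
    have h5 : n ≤ 2 * v * J := by
      have h6 : n < v * (J + 1) := by
        rw [hJ]
        exact Nat.lt_mul_div_succ n (by omega)
      have h7 : v * (J + 1) ≤ v * (2 * J) := Nat.mul_le_mul_left _ (by omega)
      have h8 : v * (2 * J) = 2 * v * J := by ring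
      omega
    exact_mod_cast h5
  gcongr

end Pool.Agent.H25.RS
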