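import Mathlib

/-!
Implications between literals: satisfiability of formulas with two literals per clause.
-/

namespace Pool.Agent.H25.RS

open Finset Classical

/-- The negation of a literal. -/
def ng {n : ℕ} (p : Fin n × Bool) : Fin n × Bool := (p.1, !p.2)

theorem ng_ng {n : ℕ} (p : Fin n × Bool) : ng (ng p) = p := by
  unfold ng
  simp

theorem ng_ne {n : ℕ} (p : Fin n × Bool) : ng p ≠ p := by
  intro h
  have h1 : (!p.2) = p.2 := congrArg Prod.snd h
  exact Bool.not_ne_self _ h1

/-- **Satisfiability.** A transitive contrapositive relation without a contradiction is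
compatible with an assignment. -/
theorem two_sat {n : ℕ} (R : Fin n × Bool → Fin n × Bool → Prop)
    (trans : ∀ p q r, R p q → R q r → R p r) (contra : ∀ p q, R p q → R (ng q) (ng p))
    (hR : ∀ p, ¬ (R p (ng p) ∧ R (ng p) p)) :
    ∃ a : Fin n → Bool, ∀ p q, R p q → a p.1 = p.2 → a q.1 = q.2 := by
  let Good : Finset (Fin n × Bool) → Prop := fun A =>
    (∀ p ∈ A, ∀ q, R p q → q ∈ A) ∧ ∀ p ∈ A, ng p ∉ A
  have h0 : (univ.filter Good).Nonempty := by
    refine ⟨∅, Finset.mem_filter.2 ⟨Finset.mem_univ _, fun p hp => ?_, fun p hp => ?_⟩⟩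
    · exact absurd hp (Finset.notMem_empty p)
    · exact absurd hp (Finset.notMem_empty p)
  obtain ⟨A, hA, hmax⟩ := Finset.exists_max_image (univ.filter Good) Finset.card h0
  obtain ⟨hA1, hA2⟩ := (Finset.mem_filter.1 hA).2
  -- every variable is decided
  have key : ∀ p : Fin n × Bool, p ∉ A → ng p ∉ A → ¬ R p (ng p) → False := by
    intro p hp hp' hpR
    let A' : Finset (Fin n × Bool) := insert p (A ∪ univ.filter fun q => R p q)
    have hmem : ∀ q, q ∈ A' ↔ q = p ∨ q ∈ A ∨ R p q := by
      intro q
      show q ∈ insert p (A ∪ univ.filter fun q => R p q) ↔ _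
      rw [Finset.mem_insert, Finset.mem_union, Finset.mem_filter]
      simp
    have hg : Good A' := by
      constructor
      · intro q hq r hqr
        rw [hmem] at hq ⊢
        rcases hq with rfl | hq | hq
        · exact Or.inr (Or.inr hqr)
        · exact Or.inr (Or.inl (hA1 q hq r hqr))
        · exact Or.inr (Or.inr (trans _ _ _ hq hqr))
      · intro q hq hq'
        rw [hmem] at hq hq'
        rcases hq with rfl | hq | hq
        · rcases hq' with h | h | h
          · exact ng_ne _ h
          · exact hp' h
          · exact hpR h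
        · rcases hq' with h | h | h
          · apply hp'
            rw [← h, ng_ng]
            exact hq
          · exact hA2 q hq h
          · have h1 := contra _ _ h
            rw [ng_ng] at h1
            exact hp' (hA1 q hq _ h1)
        · rcases hq' with h | h | h
          · apply hpR
            rw [← h, ng_ng]
            rw [← h] at hq
            exact hq
          · have h1 := contra _ _ hq
            exact hp' (hA1 _ h _ h1)
          · have h1 := contra _ _ h
            rw [ng_ng] at h1
            exact hpR (trans _ _ _ hq h1)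
    have h1 := hmax A' (Finset.mem_filter.2 ⟨Finset.mem_univ _, hg⟩)
    have h2 : A ⊂ A' := by
      refine Finset.ssubset_iff_of_subset ?_ |>.2 ⟨p, (hmem p).2 (Or.inl rfl), hp⟩
      intro q hq
      exact (hmem q).2 (Or.inr (Or.inl hq))
    exact absurd h1 (not_le.2 (Finset.card_lt_card h2))
  have hdec : ∀ p : Fin n × Bool, p ∈ A ∨ ng p ∈ A := by
    intro p
    by_contra h
    rw [not_or] at h
    by_cases h1 : R p (ng p)
    · have h2 : ¬ R (ng p) (ng (ng p)) := by
        rw [ng_ng]
        exact fun h3 => hR p ⟨h1, h3⟩
      exact key (ng p) h.2 (by rw [ng_ng]; exact h.1) h2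
    · exact key p h.1 h.2 h1
  refine ⟨fun x => decide ((x, true) ∈ A), ?_⟩
  have hval : ∀ p : Fin n × Bool, decide ((p.1, true) ∈ A) = p.2 ↔ p ∈ A := by
    rintro ⟨x, b⟩
    show decide ((x, true) ∈ A) = b ↔ (x, b) ∈ A
    cases b with
    | true => simp
    | false =>
      rw [decide_eq_false_iff_not]
      constructor
      · intro h
        rcases hdec (x, true) with h1 | h1
        · exact absurd h1 h
        · exact h1
      · intro h h1
        exact hA2 _ h1 h
  intro p q hpq hp
  rw [hval] at hp ⊢
  exact hA1 p hp q hpq

end Pool.Agent.H25.RS
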