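import Pool.Agent.H25.RS.Reach
import Pool.Agent.H25.RS.Clauses

/-!
The circuit accepts almost all formulas with sufficiently many clauses.
-/

namespace Pool.Agent.H25.RS

open Finset Classical H13
open Pool.Agent.H25.NS (Circuit)

variable {n k : ℕ}

theorem cnt_le_sum {α β : Type*} [Fintype α] [Fintype β] {P : β → Prop} {Q : α → β → Prop}
    (h : ∀ b, P b → ∃ a, Q a b) : cnt P ≤ ∑ a : α, cnt fun b => Q a b := by
  rw [sum_cnt_comm, show cnt P = ∑ b : β, if P b then (1 : ℝ) else 0 by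
    unfold cnt
    rw [Finset.sum_boole]]
  refine Finset.sum_le_sum fun b _ => ?_
  split_ifs with hb
  · obtain ⟨a, ha⟩ := h b hb
    have h1 : 1 ≤ (univ.filter fun a => Q a b).card :=
      Finset.card_pos.2 ⟨a, mem_ufilter.2 ha⟩
    show (1 : ℝ) ≤ ((univ.filter fun a => Q a b).card : ℝ)
    exact_mod_cast h1
  · exact cnt_nonneg _

theorem card_first {t : ℕ} (ht : t ≤ n) : (univ.filter fun x : Fin n => x.1 < t).card = t := by
  have h1 : (univ.filter fun x : Fin n => x.1 < t) =
      univ.image fun i : Fin t => (⟨i.1, by have := i.2; omega⟩ : Fin n) := by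
    ext x
    rw [mem_ufilter, Finset.mem_image]
    constructor
    · intro h
      exact ⟨⟨x.1, h⟩, Finset.mem_univ _, rfl⟩
    · rintro ⟨i, _, rfl⟩
      exact i.2
  rw [h1, Finset.card_image_of_injective, Finset.card_univ, Fintype.card_fin]
  intro i j h
  have h2 : (⟨i.1, by have := i.2; omega⟩ : Fin n) = ⟨j.1, by have := j.2; omega⟩ := h
  have h3 : i.1 = j.1 := congrArg (fun x : Fin n => x.1) h2
  exact Fin.ext h3

/-- Many clauses are falsified by `a` and have exactly two literals outside the first `t`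
variables. -/
theorem card_bad {t : ℕ} (ht : t ≤ n) (hk : 2 ≤ k) (a : Fin n → Bool) :
    t.choose (k - 2) * (n - t).choose 2 ≤ (univ.filter fun C : Clause n k =>
      (∀ p ∈ C.lits, a p.1 ≠ p.2) ∧ (C.lits.filter fun p => ¬ p.1.1 < t).card = 2).card := by
  set W : Finset (Fin n) := univ.filter fun x => x.1 < t with hW
  have hWc : W.card = t := card_first ht
  have hWc' : Wᶜ.card = n - t := by
    rw [Finset.card_compl, hWc, Fintype.card_fin]
  let lit : Fin n → Fin n × Bool := fun x => (x, !a x)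
  have hlit : Function.Injective lit := fun x y h => congrArg Prod.fst h
  have h1 : (powersetCard (k - 2) W ×ˢ powersetCard 2 Wᶜ).card =
      t.choose (k - 2) * (n - t).choose 2 := by
    rw [Finset.card_product, Finset.card_powersetCard, Finset.card_powersetCard, hWc, hWc']
  rw [← h1]
  have h2 : (powersetCard (k - 2) W ×ˢ powersetCard 2 Wᶜ).card ≤ ((univ.filter
      fun C : Clause n k => (∀ p ∈ C.lits, a p.1 ≠ p.2) ∧
        (C.lits.filter fun p => ¬ p.1.1 < t).card = 2).image Clause.lits).card := by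
    refine Finset.card_le_card_of_injOn (fun z => (z.1 ∪ z.2).image lit) ?_ ?_
    · intro z hz
      obtain ⟨hz1, hz2⟩ := Finset.mem_product.1 (Finset.mem_coe.1 hz)
      obtain ⟨hs1, hc1⟩ := Finset.mem_powersetCard.1 hz1
      obtain ⟨hs2, hc2⟩ := Finset.mem_powersetCard.1 hz2
      have hd : Disjoint z.1 z.2 := by
        refine Finset.disjoint_of_subset_left hs1 (Finset.disjoint_of_subset_right hs2 ?_)
        exact disjoint_compl_right
      refine Finset.mem_coe.2 (Finset.mem_image.2 ⟨⟨(z.1 ∪ z.2).image lit, ?_, ?_⟩, ?_, rfl⟩)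
      · rw [Finset.card_image_of_injective _ hlit, Finset.card_union_of_disjoint hd, hc1, hc2]
        omega
      · intro p hp q hq hpq
        obtain ⟨x, _, rfl⟩ := Finset.mem_image.1 hp
        obtain ⟨y, _, rfl⟩ := Finset.mem_image.1 hq
        have h3 : x = y := hpq
        rw [h3]
      · rw [mem_ufilter]
        constructor
        · intro p hp
          obtain ⟨x, _, rfl⟩ := Finset.mem_image.1 hp
          show a x ≠ !a x
          exact fun h => Bool.not_ne_self _ h.symm
        · show (((z.1 ∪ z.2).image lit).filter fun p => ¬ p.1.1 < t).card = 2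
          have h3 : ((z.1 ∪ z.2).image lit).filter (fun p => ¬ p.1.1 < t) = z.2.image lit := by
            ext p
            rw [Finset.mem_filter, Finset.mem_image, Finset.mem_image]
            constructor
            · rintro ⟨⟨x, hx, rfl⟩, hxt⟩
              rcases Finset.mem_union.1 hx with hx | hx
              · exact absurd (mem_ufilter.1 (hs1 hx)) hxt
              · exact ⟨x, hx, rfl⟩
            · rintro ⟨x, hx, rfl⟩
              refine ⟨⟨x, Finset.mem_union_right _ hx, rfl⟩, ?_⟩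
              intro h4
              have h5 := hs2 hx
              rw [Finset.mem_compl] at h5
              exact h5 (mem_ufilter.2 h4)
          rw [h3, Finset.card_image_of_injective _ hlit, hc2]
    · intro z hz z' hz' h
      obtain ⟨hz1, hz2⟩ := Finset.mem_product.1 (Finset.mem_coe.1 hz)
      obtain ⟨hz1', hz2'⟩ := Finset.mem_product.1 (Finset.mem_coe.1 hz')
      have hs1 := (Finset.mem_powersetCard.1 hz1).1
      have hs2 := (Finset.mem_powersetCard.1 hz2).1
      have hs1' := (Finset.mem_powersetCard.1 hz1').1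
      have hs2' := (Finset.mem_powersetCard.1 hz2').1
      have h3 : z.1 ∪ z.2 = z'.1 ∪ z'.2 := Finset.image_injective hlit h
      have h4 : ∀ A B : Finset (Fin n), A ⊆ W → B ⊆ Wᶜ → (A ∪ B) ∩ W = A := by
        intro A B hA hB
        ext x
        rw [Finset.mem_inter, Finset.mem_union]
        constructor
        · rintro ⟨h | h, hx⟩
          · exact h
          · exact absurd hx (Finset.mem_compl.1 (hB h))
        · intro h
          exact ⟨Or.inl h, hA h⟩
      have h5 : ∀ A B : Finset (Fin n), A ⊆ W → B ⊆ Wᶜ → (A ∪ B) ∩ Wᶜ = B := by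
        intro A B hA hB
        ext x
        rw [Finset.mem_inter, Finset.mem_union]
        constructor
        · rintro ⟨h | h, hx⟩
          · exact absurd (hA h) (Finset.mem_compl.1 hx)
          · exact h
        · intro h
          exact ⟨Or.inr h, hB h⟩
      refine Prod.ext ?_ ?_
      · rw [← h4 _ _ hs1 hs2, h3, h4 _ _ hs1' hs2']
      · rw [← h5 _ _ hs1 hs2, h3, h5 _ _ hs1' hs2']
  refine h2.trans (le_of_eq ?_)
  exact Finset.card_image_of_injective _ fun _ _ => Clause.ext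

/-- The number of bad clauses is large enough. -/
theorem bad_ratio {t m : ℕ} (hk : 2 ≤ k) (hn : 4 ≤ n) (hkt : 2 * k ≤ t + 4) (htn : 2 * t ≤ n)
    (hm : 4 ^ (k + 1) * n ^ (k - 1) ≤ m * t ^ (k - 2)) :
    (2 * n * (n.choose k * 2 ^ k) : ℝ) ≤ m * (t.choose (k - 2) * (n - t).choose 2 : ℕ) := by
  obtain ⟨j, rfl⟩ : ∃ j, k = j + 2 := ⟨k - 2, by omega⟩
  have e1 : j + 2 - 2 = j := by omega
  have e2 : j + 2 - 1 = j + 1 := by omega
  rw [e1, e2] at hm
  rw [e1]
  have h1 : (t : ℝ) ^ j ≤ 2 ^ j * (j.factorial * t.choose j) := by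
    have h2 : (t + 1 - j) ^ j ≤ j.factorial * t.choose j := by
      have := Nat.pow_sub_le_descFactorial t j
      rwa [Nat.descFactorial_eq_factorial_mul_choose] at this
    have h3 : t ^ j ≤ 2 ^ j * (j.factorial * t.choose j) := by
      calc t ^ j ≤ (2 * (t + 1 - j)) ^ j := Nat.pow_le_pow_left (by omega) j
        _ = 2 ^ j * (t + 1 - j) ^ j := mul_pow _ _ _
        _ ≤ _ := Nat.mul_le_mul_left _ h2
    exact_mod_cast h3
  have h4 : (n : ℝ) ^ 2 ≤ 16 * (n - t).choose 2 := by
    have h5 : (n - t).choose 2 * 2 = (n - t) * (n - t - 1) := by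
      have := Nat.choose_two_right (n - t)
      rw [this]
      exact Nat.div_mul_cancel (Nat.even_mul_pred_self _).two_dvd
    have h6 : n ≤ 2 * (n - t) := by omega
    have h7 : n ≤ 4 * (n - t - 1) := by omega
    have h8 : n * n ≤ (2 * (n - t)) * (4 * (n - t - 1)) := Nat.mul_le_mul h6 h7
    have h9 : n ^ 2 ≤ 16 * (n - t).choose 2 := by
      calc n ^ 2 = n * n := sq n
        _ ≤ (2 * (n - t)) * (4 * (n - t - 1)) := h8
        _ = 8 * ((n - t) * (n - t - 1)) := by ring
        _ = 8 * ((n - t).choose 2 * 2) := by rw [h5]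
        _ = _ := by ring
    exact_mod_cast h9
  have h5 : ((j + 2).factorial : ℝ) * n.choose (j + 2) ≤ n ^ (j + 2) := by
    have h6 : (j + 2).factorial * n.choose (j + 2) ≤ n ^ (j + 2) := by
      rw [← Nat.descFactorial_eq_factorial_mul_choose]
      exact Nat.descFactorial_le_pow n (j + 2)
    exact_mod_cast h6
  have h6 : (2 : ℝ) * j.factorial ≤ (j + 2).factorial := by
    have h7 : 2 * j.factorial ≤ (j + 2).factorial := by
      rw [Nat.factorial_succ, Nat.factorial_succ]
      have h8 : 2 * 1 ≤ (j + 1 + 1) * (j + 1) := Nat.mul_le_mul (by omega) (by omega)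
      calc 2 * j.factorial = 2 * 1 * j.factorial := by ring
        _ ≤ ((j + 1 + 1) * (j + 1)) * j.factorial := Nat.mul_le_mul_right _ h8
        _ = _ := by ring
    exact_mod_cast h7
  have h7 : (4 : ℝ) ^ (j + 2 + 1) * n ^ (j + 1) ≤ m * t ^ j := by exact_mod_cast hm
  have hf : (0 : ℝ) < (j + 2).factorial := by exact_mod_cast Nat.factorial_pos _
  refine le_of_mul_le_mul_left ?_ hf
  push_cast
  calc ((j + 2).factorial : ℝ) * (2 * n * (n.choose (j + 2) * 2 ^ (j + 2)))
      = 2 * n * 2 ^ (j + 2) * ((j + 2).factorial * n.choose (j + 2)) := by ring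
    _ ≤ 2 * n * 2 ^ (j + 2) * n ^ (j + 2) := by gcongr
    _ = (4 ^ (j + 2 + 1) * n ^ (j + 1)) * (n ^ 2 / 2 ^ (j + 3)) := by
        have h8 : (4 : ℝ) ^ (j + 2 + 1) = 2 ^ (j + 3) * 2 ^ (j + 3) := by
          rw [← mul_pow]
          norm_num
        rw [h8]
        field_simp
        ring
    _ ≤ (m * t ^ j) * (n ^ 2 / 2 ^ (j + 3)) := by gcongr
    _ ≤ (m * (2 ^ j * (j.factorial * t.choose j))) * ((16 * (n - t).choose 2) / 2 ^ (j + 3)) := by
        gcongr
    _ = m * ((2 * j.factorial) * (t.choose j * (n - t).choose 2)) := by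
        rw [pow_add (2 : ℝ) j 3]
        field_simp
        ring
    _ ≤ m * ((j + 2).factorial * (t.choose j * (n - t).choose 2)) := by gcongr
    _ = _ := by ring

/-- **Random formulas are refuted.** -/
theorem refuted_random {t m : ℕ} (hk : 2 ≤ k) (hn : 4 ≤ n) (hkt : 2 * k ≤ t + 4)
    (htn : 2 * t ≤ n) (hm : 4 ^ (k + 1) * n ^ (k - 1) ≤ m * t ^ (k - 2)) :
    cnt (fun c : Fin m → Clause n k => ¬ Refuted t (formula c)) * 2 ^ n ≤
      (n.choose k * 2 ^ k) ^ m := by
  set N : ℝ := (n.choose k : ℝ) * 2 ^ k with hN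
  set M : ℝ := ((t.choose (k - 2) * (n - t).choose 2 : ℕ) : ℝ) with hM
  have hN0 : 0 ≤ N := by
    rw [hN]
    positivity
  have hNc : (Fintype.card (Clause n k) : ℝ) = N := by
    rw [card_clause, hN]
    push_cast
    rfl
  have hbad : ∀ a : Fin n → Bool, cnt (fun C : Clause n k => ¬ ((∀ p ∈ C.lits, a p.1 ≠ p.2) ∧
      (C.lits.filter fun p => ¬ p.1.1 < t).card = 2)) ≤ N - M := by
    intro a
    have h1 := card_bad (t := t) (k := k) (by omega) hk a
    have h2 : cnt (fun C : Clause n k => ((∀ p ∈ C.lits, a p.1 ≠ p.2) ∧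
      (C.lits.filter fun p => ¬ p.1.1 < t).card = 2)) + cnt (fun C : Clause n k =>
      ¬ ((∀ p ∈ C.lits, a p.1 ≠ p.2) ∧
      (C.lits.filter fun p => ¬ p.1.1 < t).card = 2)) = N := by
      rw [← hNc]
      unfold cnt
      have h3 := Finset.card_filter_add_card_filter_not (s := (univ : Finset (Clause n k)))
        (fun C : Clause n k => ((∀ p ∈ C.lits, a p.1 ≠ p.2) ∧
        (C.lits.filter fun p => ¬ p.1.1 < t).card = 2))
      rw [Finset.card_univ] at h3
      exact_mod_cast h3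
    have h3 : M ≤ cnt (fun C : Clause n k => ((∀ p ∈ C.lits, a p.1 ≠ p.2) ∧
      (C.lits.filter fun p => ¬ p.1.1 < t).card = 2)) := by
      rw [hM, cnt_eq_card _ (fun C => inferInstance)]
      exact_mod_cast h1
    linarith
  have hNM : 0 ≤ N - M := (cnt_nonneg _).trans (hbad fun _ => false)
  have h1 : cnt (fun c : Fin m → Clause n k => ¬ Refuted t (formula c)) ≤
      2 ^ n * (N - M) ^ m := by
    have h2 : cnt (fun c : Fin m → Clause n k => ¬ Refuted t (formula c)) ≤
        ∑ a : Fin n → Bool, cnt (fun c : Fin m → Clause n k => ∀ i,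
          ¬ ((∀ p ∈ (c i).lits, a p.1 ≠ p.2) ∧
          ((c i).lits.filter fun p => ¬ p.1.1 < t).card = 2)) := by
      refine cnt_le_sum fun c hc => ?_
      obtain ⟨a, ha⟩ := exists_of_not_refuted hc
      exact ⟨a, fun i => ha (c i) (Finset.mem_image_of_mem _ (Finset.mem_univ i))⟩
    refine h2.trans ?_
    have h3 : ∀ a : Fin n → Bool, cnt (fun c : Fin m → Clause n k => ∀ i,
          ¬ ((∀ p ∈ (c i).lits, a p.1 ≠ p.2) ∧
          ((c i).lits.filter fun p => ¬ p.1.1 < t).card = 2)) ≤ (N - M) ^ m := by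
      intro a
      rw [cnt_pow (fun C : Clause n k => ¬ ((∀ p ∈ C.lits, a p.1 ≠ p.2) ∧
          (C.lits.filter fun p => ¬ p.1.1 < t).card = 2)) m]
      exact pow_le_pow_left₀ (cnt_nonneg _) (hbad a) m
    refine (Finset.sum_le_sum fun a _ => h3 a).trans (le_of_eq ?_)
    rw [Finset.sum_const, Finset.card_univ, Fintype.card_fun, Fintype.card_bool,
      Fintype.card_fin, nsmul_eq_mul]
    push_cast
    rfl
  -- the bound
  have hr := bad_ratio hk hn hkt htn hm
  rw [← hM, ← hN] at hr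
  have hn0 : (0 : ℝ) < n := by exact_mod_cast (by omega : 0 < n)
  rcases hN0.eq_or_lt with hN0' | hN0'
  · -- no clauses
    have hM0 : 0 ≤ M := by
      rw [hM]
      positivity
    have h4 : N - M = 0 := by linarith
    have hm0 : m ≠ 0 := by
      rintro rfl
      rw [Nat.zero_mul] at hm
      have h5 : 0 < 4 ^ (k + 1) * n ^ (k - 1) := by positivity
      omega
    rw [h4, zero_pow hm0, mul_zero] at h1
    have h5 := le_antisymm h1 (cnt_nonneg _)
    rw [h5, zero_mul]
    positivity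
  · have h2 : N - M ≤ N * Real.exp (-(M / N)) := by
      have h3 := Real.add_one_le_exp (-(M / N))
      calc N - M = N * (-(M / N) + 1) := by
            field_simp
            ring
        _ ≤ _ := mul_le_mul_of_nonneg_left h3 hN0
    have h3 : (N - M) ^ m ≤ N ^ m * Real.exp (-(2 * n)) := by
      calc (N - M) ^ m ≤ (N * Real.exp (-(M / N))) ^ m := pow_le_pow_left₀ hNM h2 m
        _ = N ^ m * Real.exp (-(m * M / N)) := by
            rw [mul_pow, ← Real.exp_nat_mul]
            congr 2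
            ring
        _ ≤ N ^ m * Real.exp (-(2 * n)) := by
            have h4 : (2 : ℝ) * n ≤ m * M / N := by
              rw [le_div_iff₀ hN0']
              exact hr
            gcongr
    have h4 : (2 : ℝ) ^ n * 2 ^ n * Real.exp (-(2 * n)) ≤ 1 := by
      have h5 : (2 : ℝ) ≤ Real.exp 1 := by
        have := Real.add_one_le_exp (1 : ℝ)
        linarith
      have h6 : (2 : ℝ) ^ n ≤ Real.exp n := by
        calc (2 : ℝ) ^ n ≤ (Real.exp 1) ^ n := pow_le_pow_left₀ (by norm_num) h5 n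
          _ = Real.exp n := by
            rw [← Real.exp_nat_mul, mul_one]
      calc (2 : ℝ) ^ n * 2 ^ n * Real.exp (-(2 * n))
          ≤ Real.exp n * Real.exp n * Real.exp (-(2 * n)) := by gcongr
        _ = 1 := by
          rw [← Real.exp_add, ← Real.exp_add]
          have : (n : ℝ) + n + -(2 * n) = 0 := by ring
          rw [this, Real.exp_zero]
    calc cnt (fun c : Fin m → Clause n k => ¬ Refuted t (formula c)) * 2 ^ n
        ≤ 2 ^ n * (N - M) ^ m * 2 ^ n := by gcongr
      _ ≤ 2 ^ n * (N ^ m * Real.exp (-(2 * n))) * 2 ^ n := by gcongr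
      _ = N ^ m * (2 ^ n * 2 ^ n * Real.exp (-(2 * n))) := by ring
      _ ≤ N ^ m * 1 := by gcongr
      _ = N ^ m := mul_one _

/-- The number of gates. -/
theorem card_gates {t : ℕ} (hk : 2 ≤ k) (hn : 4 ≤ n) :
    Fintype.card (Gates n k t) ≤ 2 ^ t * (2 * n + 1) ^ (k + 5) := by
  have h1 : Fintype.card (Gates n k t) = n.choose k * 2 ^ k +
      (2 ^ t * ((4 * n ^ 2 + 1) * ((n * 2) * (n * 2))) +
      (2 ^ t * ((4 * n ^ 2 + 1) * ((n * 2) * ((n * 2) * (n * 2)))) + (2 ^ t + 1))) := by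
    unfold Gates
    simp only [Fintype.card_sum, Fintype.card_prod, Fintype.card_fun, Fintype.card_bool,
      Fintype.card_fin, card_clause, Fintype.card_unit]
  rw [h1]
  have h2 : n.choose k * 2 ^ k ≤ (2 * n) ^ k := by
    calc n.choose k * 2 ^ k ≤ n ^ k * 2 ^ k := Nat.mul_le_mul_right _ (Nat.choose_le_pow n k)
      _ = (n * 2) ^ k := (mul_pow n 2 k).symm
      _ = (2 * n) ^ k := by rw [mul_comm]
  have h3 : (2 * n) ^ k + 1 ≤ (2 * n + 1) ^ k := by
    have h4 : (2 * n) ^ k < (2 * n + 1) ^ k := Nat.pow_lt_pow_left (by omega) (by omega)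
    omega
  have h4 : (4 * n ^ 2 + 1) * ((n * 2) * (n * 2)) + (4 * n ^ 2 + 1) *
      ((n * 2) * ((n * 2) * (n * 2))) + 1 ≤ (2 * n + 1) ^ 5 := by
    have h5 : (2 * n + 1) ^ 5 = (4 * n ^ 2 + 1) * ((n * 2) * (n * 2)) + (4 * n ^ 2 + 1) *
      ((n * 2) * ((n * 2) * (n * 2))) + 1 + (64 * n ^ 4 + 72 * n ^ 3 + 36 * n ^ 2 + 10 * n) := by
      ring
    omega
  have h5 : 1 ≤ 2 ^ t := Nat.one_le_two_pow
  have h6 : (2 * n + 1) ^ k + (2 * n + 1) ^ 5 ≤ (2 * n + 1) ^ (k + 5) := by
    have h7 : 2 ≤ (2 * n + 1) ^ k := by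
      calc 2 ≤ 2 * n + 1 := by omega
        _ ≤ (2 * n + 1) ^ k := Nat.le_self_pow (by omega) _
    have h8 : 2 ≤ (2 * n + 1) ^ 5 := by
      calc 2 ≤ 2 * n + 1 := by omega
        _ ≤ (2 * n + 1) ^ 5 := Nat.le_self_pow (by omega) _
    rw [pow_add]
    nlinarith
  have h7 : (2 * n) ^ k + 1 ≤ 2 ^ t * (2 * n + 1) ^ k := by
    calc (2 * n) ^ k + 1 ≤ (2 * n + 1) ^ k := h3
      _ = 1 * (2 * n + 1) ^ k := (one_mul _).symm
      _ ≤ _ := Nat.mul_le_mul_right _ h5
  calc n.choose k * 2 ^ k +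
      (2 ^ t * ((4 * n ^ 2 + 1) * ((n * 2) * (n * 2))) +
      (2 ^ t * ((4 * n ^ 2 + 1) * ((n * 2) * ((n * 2) * (n * 2)))) + (2 ^ t + 1)))
      = (n.choose k * 2 ^ k + 1) + 2 ^ t * ((4 * n ^ 2 + 1) * ((n * 2) * (n * 2)) +
        (4 * n ^ 2 + 1) * ((n * 2) * ((n * 2) * (n * 2))) + 1) := by ring
    _ ≤ ((2 * n) ^ k + 1) + 2 ^ t * (2 * n + 1) ^ 5 :=
        Nat.add_le_add (Nat.add_le_add_right h2 1) (Nat.mul_le_mul_left _ h4)
    _ ≤ 2 ^ t * (2 * n + 1) ^ k + 2 ^ t * (2 * n + 1) ^ 5 := Nat.add_le_add_right h7 _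
    _ = 2 ^ t * ((2 * n + 1) ^ k + (2 * n + 1) ^ 5) := by ring
    _ ≤ _ := Nat.mul_le_mul_left _ h6

/-- **The upper bound.** -/
theorem upper {t m : ℕ} (hk : 2 ≤ k) (hn : 4 ≤ n) (hkt : 2 * k ≤ t + 4) (htn : 2 * t ≤ n)
    (hm : 4 ^ (k + 1) * n ^ (k - 1) ≤ m * t ^ (k - 2)) :
    ∃ s ≤ 2 ^ t * (2 * n + 1) ^ (k + 5), ∃ (C : Circuit (Clause n k) s 0 0) (out : Fin s),
      (∀ F, Satisfiable F → ¬ C.fn out F) ∧
      cnt (fun c : Fin m → Clause n k => ¬ C.fn out (formula c)) * 2 ^ n ≤
        (n.choose k * 2 ^ k) ^ m := by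
  obtain ⟨C, out, hC⟩ := exists_refuter n k t
  refine ⟨_, card_gates hk hn, C, out, fun F hF => ?_, ?_⟩
  · rw [hC]
    exact not_refuted (by omega) hF
  · have h1 : cnt (fun c : Fin m → Clause n k => ¬ C.fn out (formula c)) =
        cnt (fun c : Fin m → Clause n k => ¬ Refuted t (formula c)) :=
      cnt_congr fun c => by rw [hC]
    rw [h1]
    exact refuted_random hk hn hkt htn hm

end Pool.Agent.H25.RS
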