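import Mathlib

/-!
Sets of clauses without private variables are rare.
-/

namespace Pool.Agent.H25.RS

open Finset

section

variable {n k : ℕ} {E : Type*} [Fintype E] [DecidableEq E] (lit : E → Fin k → Fin n × Bool)

/-- The variables of a clause. -/
def vars (e : E) : Finset (Fin n) := univ.image fun i => (lit e i).1

omit [Fintype E] [DecidableEq E] in
theorem mem_vars {e : E} {v : Fin n} : v ∈ vars lit e ↔ ∃ i, (lit e i).1 = v := by
  simp [vars]

/-- The weight of a clause. -/
noncomputable def wt (x : ℝ) (Z : Finset (Fin n)) (e : E) : ℝ :=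
  ∏ i, if (lit e i).1 ∈ Z then x else 1

omit [Fintype E] [DecidableEq E] in
theorem wt_nonneg {x : ℝ} (hx : 1 ≤ x) (Z : Finset (Fin n)) (e : E) : 0 ≤ wt lit x Z e := by
  refine Finset.prod_nonneg fun i _ => ?_
  split_ifs
  · linarith
  · exact zero_le_one

omit [Fintype E] [DecidableEq E] in
theorem pow_le_wt {x : ℝ} (hx : 1 ≤ x) (Z : Finset (Fin n)) (e : E) :
    x ^ (Z ∩ vars lit e).card ≤ wt lit x Z e := by
  have h1 : wt lit x Z e = x ^ (univ.filter fun i => (lit e i).1 ∈ Z).card := by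
    unfold wt
    rw [Finset.prod_ite, Finset.prod_const, Finset.prod_const_one, mul_one]
  rw [h1]
  refine pow_le_pow_right₀ hx ?_
  have h2 : Z ∩ vars lit e ⊆ (univ.filter fun i => (lit e i).1 ∈ Z).image
      fun i => (lit e i).1 := by
    intro v hv
    obtain ⟨h3, h4⟩ := Finset.mem_inter.1 hv
    obtain ⟨i, hi⟩ := (mem_vars lit).1 h4
    exact Finset.mem_image.2 ⟨i, Finset.mem_filter.2 ⟨Finset.mem_univ _, by rw [hi]; exact h3⟩, hi⟩
  exact (Finset.card_le_card h2).trans Finset.card_image_le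

omit [Fintype E] in
theorem sum_wt_le (hlit : Function.Injective lit) {x : ℝ} (hx : 1 ≤ x) (Z : Finset (Fin n))
    (P : Fin k → Finset (Fin n × Bool)) (A : Finset E) (hA : ∀ e ∈ A, ∀ i, lit e i ∈ P i) :
    ∑ e ∈ A, wt lit x Z e ≤ ∏ i, ∑ y ∈ P i, if y.1 ∈ Z then x else 1 := by
  classical
  rw [Finset.prod_univ_sum]
  have h1 : ∑ e ∈ A, wt lit x Z e =
      ∑ t ∈ A.image lit, ∏ i, if (t i).1 ∈ Z then x else 1 := by
    rw [Finset.sum_image fun a _ b _ h => hlit h]
    rfl
  rw [h1]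
  refine Finset.sum_le_sum_of_subset_of_nonneg ?_ fun t _ _ => ?_
  · intro t ht
    obtain ⟨e, he, rfl⟩ := Finset.mem_image.1 ht
    exact Fintype.mem_piFinset.2 fun i => hA e he i
  · refine Finset.prod_nonneg fun i _ => ?_
    split_ifs
    · linarith
    · exact zero_le_one

theorem sum_side {x : ℝ} (Z U : Finset (Fin n)) :
    ∑ y ∈ (Z ∪ U) ×ˢ (univ : Finset Bool), (if y.1 ∈ Z then x else 1) ≤
      2 * (x * Z.card + U.card) := by
  rw [Finset.sum_product]
  have h1 : ∀ v ∈ Z ∪ U, ∑ _b ∈ (univ : Finset Bool), (if v ∈ Z then x else 1) =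
      2 * (if v ∈ Z then x else 1) := by
    intro v _
    rw [Finset.sum_const, Finset.card_univ, Fintype.card_bool, nsmul_eq_mul]
    norm_num
  rw [Finset.sum_congr rfl h1, ← Finset.mul_sum]
  refine mul_le_mul_of_nonneg_left ?_ (by norm_num)
  have h2 : Z ∪ U = Z ∪ (U \ Z) := by
    rw [Finset.union_sdiff_self_eq_union]
  rw [h2, Finset.sum_union Finset.disjoint_sdiff]
  have h3 : ∑ v ∈ Z, (if v ∈ Z then x else 1) = x * Z.card := by
    rw [Finset.sum_congr rfl fun v hv => if_pos hv, Finset.sum_const, nsmul_eq_mul, mul_comm]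
  have h4 : ∑ v ∈ U \ Z, (if v ∈ Z then x else 1) ≤ U.card := by
    rw [Finset.sum_congr rfl fun v hv => if_neg (Finset.mem_sdiff.1 hv).2, Finset.sum_const,
      nsmul_eq_mul, mul_one]
    exact_mod_cast Finset.card_le_card Finset.sdiff_subset
  rw [h3]
  linarith

omit [Fintype E] in
theorem sum_wt_all (hlit : Function.Injective lit) {x Y : ℝ} (hx : 1 ≤ x) (Z U : Finset (Fin n))
    (hY : 2 * (x * Z.card + U.card) ≤ Y)
    (A : Finset E) (hA : ∀ e ∈ A, vars lit e ⊆ Z ∪ U) :
    ∑ e ∈ A, wt lit x Z e ≤ Y ^ k := by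
  have h1 := sum_wt_le lit hlit hx Z (fun _ => (Z ∪ U) ×ˢ (univ : Finset Bool)) A (by
    intro e he i
    exact Finset.mem_product.2 ⟨hA e he ((mem_vars lit).2 ⟨i, rfl⟩), Finset.mem_univ _⟩)
  refine h1.trans ?_
  rw [Finset.prod_const, Finset.card_univ, Fintype.card_fin]
  refine pow_le_pow_left₀ ?_ ((sum_side Z U).trans hY) k
  refine Finset.sum_nonneg fun y _ => ?_
  split_ifs
  · linarith
  · exact zero_le_one

omit [Fintype E] in
theorem sum_wt_one (hlit : Function.Injective lit) {x Y : ℝ} (hx : 1 ≤ x) (Z U : Finset (Fin n))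
    (hY : 2 * (x * Z.card + U.card) ≤ Y) {u : Fin n} (hu : u ∉ Z)
    (A : Finset E) (hA : ∀ e ∈ A, u ∈ vars lit e ∧ vars lit e ⊆ Z ∪ U) :
    ∑ e ∈ A, wt lit x Z e ≤ k * (2 * Y ^ (k - 1)) := by
  classical
  have hpos : ∀ P : Finset (Fin n × Bool), (0 : ℝ) ≤ ∑ y ∈ P, if y.1 ∈ Z then x else 1 := by
    intro P
    refine Finset.sum_nonneg fun y _ => ?_
    split_ifs
    · linarith
    · exact zero_le_one
  have hone : ∀ i₀ : Fin k, ∑ e ∈ A.filter (fun e => (lit e i₀).1 = u), wt lit x Z e ≤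
      2 * Y ^ (k - 1) := by
    intro i₀
    have h1 := sum_wt_le lit hlit hx Z
      (fun i => if i = i₀ then {u} ×ˢ (univ : Finset Bool) else (Z ∪ U) ×ˢ (univ : Finset Bool))
      (A.filter (fun e => (lit e i₀).1 = u)) (by
        intro e he i
        obtain ⟨he1, he2⟩ := Finset.mem_filter.1 he
        split_ifs with h
        · rw [h]
          exact Finset.mem_product.2 ⟨Finset.mem_singleton.2 he2, Finset.mem_univ _⟩
        · exact Finset.mem_product.2 ⟨(hA e he1).2 ((mem_vars lit).2 ⟨i, rfl⟩),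
            Finset.mem_univ _⟩)
    refine h1.trans ?_
    rw [← Finset.mul_prod_erase univ _ (Finset.mem_univ i₀), if_pos rfl]
    have h2 : ∑ y ∈ ({u} : Finset (Fin n)) ×ˢ (univ : Finset Bool), (if y.1 ∈ Z then x else 1) =
        2 := by
      rw [Finset.sum_product, Finset.sum_singleton, Finset.sum_congr rfl fun b _ => if_neg hu,
        Finset.sum_const, Finset.card_univ, Fintype.card_bool, nsmul_eq_mul, mul_one]
      norm_num
    rw [h2]
    refine mul_le_mul_of_nonneg_left ?_ (by norm_num)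
    have h3 : ∏ i ∈ univ.erase i₀, ∑ y ∈ (if i = i₀ then {u} ×ˢ (univ : Finset Bool)
        else (Z ∪ U) ×ˢ (univ : Finset Bool)), (if y.1 ∈ Z then x else 1) ≤
        ∏ _i ∈ univ.erase i₀, Y := by
      refine Finset.prod_le_prod (fun i _ => hpos _) fun i hi => ?_
      rw [if_neg (Finset.ne_of_mem_erase hi)]
      exact (sum_side Z U).trans hY
    refine h3.trans ?_
    rw [Finset.prod_const, Finset.card_erase_of_mem (Finset.mem_univ _), Finset.card_univ,
      Fintype.card_fin]
  have h1 : ∑ e ∈ A, wt lit x Z e ≤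
      ∑ i₀ : Fin k, ∑ e ∈ A.filter (fun e => (lit e i₀).1 = u), wt lit x Z e := by
    have h2 : ∀ i₀ : Fin k, ∑ e ∈ A.filter (fun e => (lit e i₀).1 = u), wt lit x Z e =
        ∑ e ∈ A, if (lit e i₀).1 = u then wt lit x Z e else 0 := fun i₀ =>
      Finset.sum_filter _ _
    rw [Finset.sum_congr rfl fun i₀ _ => h2 i₀, Finset.sum_comm]
    refine Finset.sum_le_sum fun e he => ?_
    obtain ⟨i, hi⟩ := (mem_vars lit).1 (hA e he).1
    have h3 : (if (lit e i).1 = u then wt lit x Z e else 0) ≤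
        ∑ i₀ : Fin k, if (lit e i₀).1 = u then wt lit x Z e else 0 := by
      refine Finset.single_le_sum (f := fun i₀ => if (lit e i₀).1 = u then wt lit x Z e else 0)
        (fun i₀ _ => ?_) (Finset.mem_univ i)
      split_ifs
      · exact wt_nonneg lit hx Z e
      · exact le_rfl
    rwa [if_pos hi] at h3
  refine h1.trans ((Finset.sum_le_sum fun i₀ _ => hone i₀).trans ?_)
  rw [Finset.sum_const, Finset.card_univ, Fintype.card_fin, nsmul_eq_mul]

omit [Fintype E] in
/-- **Hall violators.** -/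
theorem exists_violator {D : Finset E} {Z : Finset (Fin n)}
    (h : ¬ ∃ f : {e // e ∈ D} → Fin n, Function.Injective f ∧ ∀ e, f e ∈ vars lit e.1 \ Z) :
    ∃ v < D.card, ∃ (u : Fin v → Fin n) (c : Fin v → E) (c₀ : E), Function.Injective c ∧
      (∀ i, c i ≠ c₀) ∧ (∀ i, c i ∈ D) ∧ c₀ ∈ D ∧ (∀ i, u i ∉ Z ∧ u i ∈ vars lit (c i)) ∧
      (∀ i, vars lit (c i) ⊆ Z ∪ univ.image u) ∧ vars lit c₀ ⊆ Z ∪ univ.image u := by
  classical
  let t : {e // e ∈ D} → Finset (Fin n) := fun e => vars lit e.1 \ Z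
  have h1 : ∃ s : Finset {e // e ∈ D}, (s.biUnion t).card < s.card := by
    by_contra hcon
    push Not at hcon
    exact h ((Finset.all_card_le_biUnion_card_iff_exists_injective t).1 hcon)
  obtain ⟨s, hs, hmin⟩ := Finset.exists_min_image
    (univ.filter fun s : Finset {e // e ∈ D} => (s.biUnion t).card < s.card) Finset.card
    (by
      obtain ⟨s, hs⟩ := h1
      exact ⟨s, Finset.mem_filter.2 ⟨Finset.mem_univ _, hs⟩⟩)
  have hs' := (Finset.mem_filter.1 hs).2
  have hne : s.Nonempty := by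
    rw [← Finset.card_pos]
    omega
  obtain ⟨c₀, hc₀⟩ := hne
  set s' := s.erase c₀ with hs'def
  have hcard : s'.card + 1 = s.card := Finset.card_erase_add_one hc₀
  obtain ⟨f, hf, hft⟩ : ∃ f : {e // e ∈ s'} → Fin n, Function.Injective f ∧
      ∀ e, f e ∈ t e.1 := by
    refine (Finset.all_card_le_biUnion_card_iff_exists_injective
      (fun e : {e // e ∈ s'} => t e.1)).1 fun a => ?_
    by_contra hcon
    push Not at hcon
    have h2 : (a.map (Function.Embedding.subtype _)).biUnion t = a.biUnion fun e => t e.1 := by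
      ext v
      simp only [Finset.mem_biUnion, Finset.mem_map, Function.Embedding.subtype_apply]
      constructor
      · rintro ⟨e, ⟨e', he', rfl⟩, hv⟩
        exact ⟨e', he', hv⟩
      · rintro ⟨e', he', hv⟩
        exact ⟨e'.1, ⟨e', he', rfl⟩, hv⟩
    have h3 : (a.map (Function.Embedding.subtype _)).card = a.card := Finset.card_map _
    have h4 := hmin (a.map (Function.Embedding.subtype _)) (Finset.mem_filter.2
      ⟨Finset.mem_univ _, by rw [h2, h3]; exact hcon⟩)
    have h5 : (a.map (Function.Embedding.subtype _)).card ≤ s'.card := by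
      refine Finset.card_le_card fun e he => ?_
      obtain ⟨e', _, rfl⟩ := Finset.mem_map.1 he
      exact e'.2
    omega
  have hsD : s.card ≤ D.card := by
    have h2 := Finset.card_le_univ s
    rwa [Fintype.card_coe] at h2
  let u : Fin s'.card → Fin n := fun i => f (s'.equivFin.symm i)
  have hu : Function.Injective u := hf.comp s'.equivFin.symm.injective
  have himg : univ.image u = s.biUnion t := by
    refine Finset.eq_of_subset_of_card_le ?_ ?_
    · intro v hv
      obtain ⟨i, _, rfl⟩ := Finset.mem_image.1 hv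
      refine Finset.mem_biUnion.2 ⟨(s'.equivFin.symm i).1, ?_, hft _⟩
      exact Finset.mem_of_mem_erase (s'.equivFin.symm i).2
    · rw [Finset.card_image_of_injective _ hu, Finset.card_univ, Fintype.card_fin]
      omega
  have hsub : ∀ e ∈ s, vars lit e.1 ⊆ Z ∪ univ.image u := by
    intro e he v hv
    by_cases hZ : v ∈ Z
    · exact Finset.mem_union_left _ hZ
    · refine Finset.mem_union_right _ ?_
      rw [himg]
      exact Finset.mem_biUnion.2 ⟨e, he, Finset.mem_sdiff.2 ⟨hv, hZ⟩⟩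
  refine ⟨s'.card, by omega, u, fun i => (s'.equivFin.symm i).1.1, c₀.1, ?_, ?_, ?_, c₀.2, ?_,
    ?_, hsub c₀ hc₀⟩
  · intro i i' hii
    exact s'.equivFin.symm.injective (Subtype.ext (Subtype.ext hii))
  · intro i hi
    exact (Finset.ne_of_mem_erase (s'.equivFin.symm i).2) (Subtype.ext hi)
  · intro i
    exact (s'.equivFin.symm i).1.2
  · intro i
    have := Finset.mem_sdiff.1 (hft (s'.equivFin.symm i))
    exact ⟨this.2, this.1⟩
  · intro i
    exact hsub _ (Finset.mem_of_mem_erase (s'.equivFin.symm i).2)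

/-- The members that contain `B` and whose further clauses use the variables in `Z`. -/
def Fam (𝓜 : Finset (Finset E)) (B : Finset E) (Z : Finset (Fin n)) : Finset (Finset E) :=
  𝓜.filter fun T => B ⊆ T ∧ Z ⊆ (T \ B).biUnion (vars lit)

/-- The clauses have private variables outside `Z`. -/
def Priv (Z : Finset (Fin n)) (D : Finset E) : Prop :=
  ∃ f : {e // e ∈ D} → Fin n, Function.Injective f ∧ ∀ e, f e ∈ vars lit e.1 \ Z

open Classical in
/-- **Few members without private variables.** -/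
theorem bad_card (hlit : Function.Injective lit) (𝓜 : Finset (Finset E)) {j : ℕ}
    (h𝓜 : ∀ T ∈ 𝓜, T.card = j) (B : Finset E) (Z : Finset (Fin n)) {R x Y : ℝ} (hx : 1 ≤ x)
    (hR : 0 < R)
    (hmax : ∀ W : Finset E, W.Nonempty → Disjoint B W → ∀ Z' : Finset (Fin n),
      ((Fam lit 𝓜 (B ∪ W) Z').card : ℝ) * (x ^ Z'.card * R ^ (B.card + W.card)) ≤ R ^ j)
    (hY : 2 * (x * Z.card + j) ≤ Y) (hRY : 8 * k * n * Y ^ (k - 1) ≤ R) (hYn : Y ≤ n)
    (hk : 1 ≤ k) (hn : 1 ≤ n) :
    ((((Fam lit 𝓜 B Z).filter fun T => ¬ Priv lit Z (T \ B)).card : ℕ) : ℝ) *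
      (x ^ Z.card * R ^ B.card) ≤ R ^ j / 6 := by
  have hx0 : 0 < x := by linarith
  have hY0 : 0 ≤ Y := by
    refine le_trans ?_ hY
    positivity
  -- the codes
  let A : ∀ {v : ℕ}, (Fin v → Fin n) → Fin v → Finset E := fun {v} u i =>
    univ.filter fun e => u i ∉ Z ∧ u i ∈ vars lit e ∧ vars lit e ⊆ Z ∪ univ.image u
  let A₀ : ∀ {v : ℕ}, (Fin v → Fin n) → Finset E := fun {v} u =>
    univ.filter fun e => vars lit e ⊆ Z ∪ univ.image u
  let Wd : ∀ {v : ℕ}, (Fin v → E) → E → Finset E := fun {v} c c₀ => insert c₀ (univ.image c)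
  let Cell : ∀ {v : ℕ}, (Fin v → E) → E → Finset (Finset E) := fun {v} c c₀ =>
    if Function.Injective c ∧ (∀ i, c i ≠ c₀) ∧ Disjoint B (Wd c c₀) then
      Fam lit 𝓜 (B ∪ Wd c c₀) (Z \ (Wd c c₀).biUnion (vars lit)) else ∅
  have hcell : ∀ (v : ℕ) (c : Fin v → E) (c₀ : E), ((Cell c c₀).card : ℝ) *
      (x ^ Z.card * R ^ B.card) ≤
      R ^ j / R ^ (v + 1) * ((∏ i, wt lit x Z (c i)) * wt lit x Z c₀) := by
    intro v c c₀
    have hP : 0 ≤ (∏ i, wt lit x Z (c i)) * wt lit x Z c₀ :=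
      mul_nonneg (Finset.prod_nonneg fun i _ => wt_nonneg lit hx Z _) (wt_nonneg lit hx Z _)
    by_cases hv : Function.Injective c ∧ (∀ i, c i ≠ c₀) ∧ Disjoint B (Wd c c₀)
    · have h1 : Cell c c₀ = Fam lit 𝓜 (B ∪ Wd c c₀) (Z \ (Wd c c₀).biUnion (vars lit)) :=
        if_pos hv
      have hWcard : (Wd c c₀).card = v + 1 := by
        show (insert c₀ (univ.image c)).card = v + 1
        rw [Finset.card_insert_of_notMem, Finset.card_image_of_injective _ hv.1, Finset.card_univ,
          Fintype.card_fin]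
        intro h
        obtain ⟨i, _, hi⟩ := Finset.mem_image.1 h
        exact hv.2.1 i hi
      have h2 := hmax (Wd c c₀) ⟨c₀, Finset.mem_insert_self _ _⟩ hv.2.2
        (Z \ (Wd c c₀).biUnion (vars lit))
      rw [← h1, hWcard] at h2
      -- the part of `Z` inside
      have h3 : Z.card ≤ (Z \ (Wd c c₀).biUnion (vars lit)).card +
          ∑ e ∈ Wd c c₀, (Z ∩ vars lit e).card := by
        have h4 : Z.card = (Z \ (Wd c c₀).biUnion (vars lit)).card +
            (Z ∩ (Wd c c₀).biUnion (vars lit)).card := by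
          rw [Finset.card_sdiff_add_card_inter]
        have h5 : (Z ∩ (Wd c c₀).biUnion (vars lit)).card ≤
            ∑ e ∈ Wd c c₀, (Z ∩ vars lit e).card := by
          rw [Finset.inter_biUnion]
          exact Finset.card_biUnion_le
        omega
      have h4 : x ^ Z.card ≤ x ^ (Z \ (Wd c c₀).biUnion (vars lit)).card *
          ((∏ i, wt lit x Z (c i)) * wt lit x Z c₀) := by
        calc x ^ Z.card ≤ x ^ ((Z \ (Wd c c₀).biUnion (vars lit)).card +
              ∑ e ∈ Wd c c₀, (Z ∩ vars lit e).card) := pow_le_pow_right₀ hx h3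
          _ = x ^ (Z \ (Wd c c₀).biUnion (vars lit)).card *
              ∏ e ∈ Wd c c₀, x ^ (Z ∩ vars lit e).card := by
              rw [pow_add, Finset.prod_pow_eq_pow_sum]
          _ ≤ x ^ (Z \ (Wd c c₀).biUnion (vars lit)).card *
              ∏ e ∈ Wd c c₀, wt lit x Z e := by
              refine mul_le_mul_of_nonneg_left ?_ (by positivity)
              exact Finset.prod_le_prod (fun e _ => by positivity) fun e _ => pow_le_wt lit hx Z e
          _ = _ := by
              congr 1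
              show ∏ e ∈ insert c₀ (univ.image c), wt lit x Z e = _
              rw [Finset.prod_insert, Finset.prod_image fun a _ b _ h => hv.1 h, mul_comm]
              intro h
              obtain ⟨i, _, hi⟩ := Finset.mem_image.1 h
              exact hv.2.1 i hi
      have h5 : ((Cell c c₀).card : ℝ) * (x ^ (Z \ (Wd c c₀).biUnion (vars lit)).card *
          R ^ B.card) ≤ R ^ j / R ^ (v + 1) := by
        rw [le_div_iff₀ (by positivity)]
        refine le_trans (le_of_eq ?_) h2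
        rw [pow_add R B.card]
        ring
      calc ((Cell c c₀).card : ℝ) * (x ^ Z.card * R ^ B.card)
          ≤ ((Cell c c₀).card : ℝ) * ((x ^ (Z \ (Wd c c₀).biUnion (vars lit)).card *
          ((∏ i, wt lit x Z (c i)) * wt lit x Z c₀)) * R ^ B.card) := by gcongr
        _ = (((Cell c c₀).card : ℝ) * (x ^ (Z \ (Wd c c₀).biUnion (vars lit)).card *
          R ^ B.card)) * ((∏ i, wt lit x Z (c i)) * wt lit x Z c₀) := by ring
        _ ≤ _ := mul_le_mul_of_nonneg_right h5 hP
    · have h1 : Cell c c₀ = ∅ := if_neg hv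
      rw [h1, Finset.card_empty, Nat.cast_zero, zero_mul]
      positivity
  -- the bad members are covered by the cells
  have hcov : (Fam lit 𝓜 B Z).filter (fun T => ¬ Priv lit Z (T \ B)) ⊆
      (Finset.range j).biUnion fun v => (univ : Finset (Fin v → Fin n)).biUnion fun u =>
        (Fintype.piFinset (A u) ×ˢ A₀ u).biUnion fun p => Cell p.1 p.2 := by
    intro T hT
    obtain ⟨hT1, hT2⟩ := Finset.mem_filter.1 hT
    obtain ⟨hTM, hBT, hZT⟩ := Finset.mem_filter.1 hT1
    obtain ⟨v, hv, u, c, c₀, hc, hne, hcD, hc₀D, huZ, hcZ, hc₀Z⟩ := exists_violator lit hT2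
    have hvj : v < j := by
      refine lt_of_lt_of_le hv ?_
      rw [← h𝓜 T hTM]
      exact Finset.card_le_card Finset.sdiff_subset
    have hWT : Wd c c₀ ⊆ T \ B := by
      intro e he
      rcases Finset.mem_insert.1 he with rfl | he
      · exact hc₀D
      · obtain ⟨i, _, rfl⟩ := Finset.mem_image.1 he
        exact hcD i
    have hdisj : Disjoint B (Wd c c₀) := by
      rw [Finset.disjoint_right]
      exact fun e he => (Finset.mem_sdiff.1 (hWT he)).2
    refine Finset.mem_biUnion.2 ⟨v, Finset.mem_range.2 hvj, Finset.mem_biUnion.2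
      ⟨u, Finset.mem_univ _, Finset.mem_biUnion.2 ⟨(c, c₀), ?_, ?_⟩⟩⟩
    · refine Finset.mem_product.2 ⟨Fintype.mem_piFinset.2 fun i => ?_, ?_⟩
      · exact Finset.mem_filter.2 ⟨Finset.mem_univ _, (huZ i).1, (huZ i).2, hcZ i⟩
      · exact Finset.mem_filter.2 ⟨Finset.mem_univ _, hc₀Z⟩
    · show T ∈ Cell c c₀
      have h1 : Cell c c₀ = Fam lit 𝓜 (B ∪ Wd c c₀) (Z \ (Wd c c₀).biUnion (vars lit)) :=
        if_pos ⟨hc, hne, hdisj⟩
      rw [h1]
      refine Finset.mem_filter.2 ⟨hTM, Finset.union_subset hBT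
        (hWT.trans Finset.sdiff_subset), ?_⟩
      intro z hz
      obtain ⟨hz1, hz2⟩ := Finset.mem_sdiff.1 hz
      obtain ⟨e, he, hze⟩ := Finset.mem_biUnion.1 (hZT hz1)
      refine Finset.mem_biUnion.2 ⟨e, ?_, hze⟩
      obtain ⟨he1, he2⟩ := Finset.mem_sdiff.1 he
      refine Finset.mem_sdiff.2 ⟨he1, fun h => ?_⟩
      rcases Finset.mem_union.1 h with h | h
      · exact he2 h
      · exact hz2 (Finset.mem_biUnion.2 ⟨e, h, hze⟩)
  have hcard : ((((Fam lit 𝓜 B Z).filter fun T => ¬ Priv lit Z (T \ B)).card : ℕ) : ℝ) ≤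
      ∑ v ∈ Finset.range j, ∑ u : Fin v → Fin n, ∑ c ∈ Fintype.piFinset (A u),
        ∑ c₀ ∈ A₀ u, ((Cell c c₀).card : ℝ) := by
    have h1 := (Finset.card_le_card hcov).trans Finset.card_biUnion_le
    have h2 : ∀ v ∈ Finset.range j, ((univ : Finset (Fin v → Fin n)).biUnion fun u =>
        (Fintype.piFinset (A u) ×ˢ A₀ u).biUnion fun p => Cell p.1 p.2).card ≤
        ∑ u : Fin v → Fin n, ∑ c ∈ Fintype.piFinset (A u), ∑ c₀ ∈ A₀ u, (Cell c c₀).card := by
      intro v _
      refine Finset.card_biUnion_le.trans (Finset.sum_le_sum fun u _ => ?_)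
      refine Finset.card_biUnion_le.trans (le_of_eq ?_)
      rw [Finset.sum_product]
    have h3 := h1.trans (Finset.sum_le_sum h2)
    exact_mod_cast h3
  -- the sum over the codes with `v` variables
  have hsum : ∀ v ∈ Finset.range j, ∑ u : Fin v → Fin n, ∑ c ∈ Fintype.piFinset (A u),
      ∑ c₀ ∈ A₀ u, ((∏ i, wt lit x Z (c i)) * wt lit x Z c₀) ≤
      (n : ℝ) ^ v * ((k * (2 * Y ^ (k - 1))) ^ v * Y ^ k) := by
    intro v hv
    have hvj := Finset.mem_range.1 hv
    have hYv : ∀ u : Fin v → Fin n, 2 * (x * Z.card + (univ.image u).card) ≤ Y := by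
      intro u
      refine le_trans ?_ hY
      have h1 : (univ.image u).card ≤ j := by
        refine Finset.card_image_le.trans ?_
        rw [Finset.card_univ, Fintype.card_fin]
        exact hvj.le
      have h2 : ((univ.image u).card : ℝ) ≤ j := by exact_mod_cast h1
      linarith
    have h1 : ∀ u : Fin v → Fin n, ∑ c ∈ Fintype.piFinset (A u),
        ∑ c₀ ∈ A₀ u, ((∏ i, wt lit x Z (c i)) * wt lit x Z c₀) ≤
        (k * (2 * Y ^ (k - 1))) ^ v * Y ^ k := by
      intro u
      have h2 : ∑ c ∈ Fintype.piFinset (A u),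
          ∑ c₀ ∈ A₀ u, ((∏ i, wt lit x Z (c i)) * wt lit x Z c₀) =
          (∏ i, ∑ e ∈ A u i, wt lit x Z e) * ∑ c₀ ∈ A₀ u, wt lit x Z c₀ := by
        rw [Finset.prod_univ_sum, Finset.sum_mul]
        refine Finset.sum_congr rfl fun c _ => ?_
        rw [Finset.mul_sum]
      rw [h2]
      have h3 : ∏ i, ∑ e ∈ A u i, wt lit x Z e ≤ ∏ _i : Fin v, (k * (2 * Y ^ (k - 1)) : ℝ) := by
        refine Finset.prod_le_prod (fun i _ => Finset.sum_nonneg fun e _ =>
          wt_nonneg lit hx Z e) fun i _ => ?_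
        by_cases hi : u i ∈ Z
        · have h4 : A u i = ∅ := by
            refine Finset.filter_eq_empty_iff.2 fun e _ h => h.1 hi
          rw [h4, Finset.sum_empty]
          positivity
        · refine sum_wt_one lit hlit hx Z (univ.image u) (hYv u) hi (A u i) fun e he => ?_
          exact (Finset.mem_filter.1 he).2.2
      rw [Finset.prod_const, Finset.card_univ, Fintype.card_fin] at h3
      have h4 := sum_wt_all lit hlit hx Z (univ.image u) (hYv u) (A₀ u)
        fun e he => (Finset.mem_filter.1 he).2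
      exact mul_le_mul h3 h4 (Finset.sum_nonneg fun e _ => wt_nonneg lit hx Z e) (by positivity)
    refine (Finset.sum_le_sum fun u _ => h1 u).trans (le_of_eq ?_)
    rw [Finset.sum_const, Finset.card_univ, Fintype.card_fun, Fintype.card_fin, Fintype.card_fin,
      nsmul_eq_mul]
    push_cast
    rfl
  -- the conclusion
  have hn0 : (0 : ℝ) < n := by exact_mod_cast hn
  have hk0 : (1 : ℝ) ≤ k := by exact_mod_cast hk
  have hterm : ∀ v ∈ Finset.range j, (∑ u : Fin v → Fin n, ∑ c ∈ Fintype.piFinset (A u),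
      ∑ c₀ ∈ A₀ u, ((Cell c c₀).card : ℝ)) * (x ^ Z.card * R ^ B.card) ≤
      R ^ j * (1 / 8 * (1 / 4) ^ v) := by
    intro v hv
    have h1 : (∑ u : Fin v → Fin n, ∑ c ∈ Fintype.piFinset (A u),
      ∑ c₀ ∈ A₀ u, ((Cell c c₀).card : ℝ)) * (x ^ Z.card * R ^ B.card) ≤
      R ^ j / R ^ (v + 1) * ∑ u : Fin v → Fin n, ∑ c ∈ Fintype.piFinset (A u),
      ∑ c₀ ∈ A₀ u, ((∏ i, wt lit x Z (c i)) * wt lit x Z c₀) := by
      rw [Finset.sum_mul, Finset.mul_sum]
      refine Finset.sum_le_sum fun u _ => ?_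
      rw [Finset.sum_mul, Finset.mul_sum]
      refine Finset.sum_le_sum fun c _ => ?_
      rw [Finset.sum_mul, Finset.mul_sum]
      exact Finset.sum_le_sum fun c₀ _ => hcell v c c₀
    refine h1.trans ?_
    refine (mul_le_mul_of_nonneg_left (hsum v hv) (by positivity)).trans ?_
    have h2 : Y ^ k = Y ^ (k - 1) * Y := by
      rw [← pow_succ]
      congr 1
      omega
    have h3 : (n : ℝ) ^ v * ((k * (2 * Y ^ (k - 1))) ^ v * Y ^ k) ≤
        R ^ (v + 1) * (1 / 8 * (1 / 4) ^ v) := by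
      have h4 : (n : ℝ) * (k * (2 * Y ^ (k - 1))) ≤ R * (1 / 4) := by nlinarith
      have h5 : Y ^ k ≤ R * (1 / 8) := by
        rw [h2]
        have h6 : Y ^ (k - 1) * Y ≤ Y ^ (k - 1) * (k * n) := by
          refine mul_le_mul_of_nonneg_left ?_ (by positivity)
          nlinarith
        nlinarith
      calc (n : ℝ) ^ v * ((k * (2 * Y ^ (k - 1))) ^ v * Y ^ k)
          = (n * (k * (2 * Y ^ (k - 1)))) ^ v * Y ^ k := by
            rw [mul_pow (n : ℝ)]
            ring
        _ ≤ (R * (1 / 4)) ^ v * (R * (1 / 8)) := by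
            refine mul_le_mul (pow_le_pow_left₀ (by positivity) h4 v) h5 (by positivity)
              (by positivity)
        _ = _ := by
            rw [mul_pow, pow_succ]
            ring
    calc R ^ j / R ^ (v + 1) * ((n : ℝ) ^ v * ((k * (2 * Y ^ (k - 1))) ^ v * Y ^ k))
        ≤ R ^ j / R ^ (v + 1) * (R ^ (v + 1) * (1 / 8 * (1 / 4) ^ v)) := by gcongr
      _ = _ := by
          field_simp
  have hgeo : ∑ v ∈ Finset.range j, (1 / 4 : ℝ) ^ v ≤ 4 / 3 := by
    have h1 : ∀ m : ℕ, ∑ v ∈ Finset.range m, (1 / 4 : ℝ) ^ v = 4 / 3 * (1 - (1 / 4) ^ m) := by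
      intro m
      induction m with
      | zero => simp
      | succ m ih =>
        rw [Finset.sum_range_succ, ih]
        ring
    rw [h1]
    have : (0 : ℝ) ≤ (1 / 4) ^ j := by positivity
    linarith
  calc ((((Fam lit 𝓜 B Z).filter fun T => ¬ Priv lit Z (T \ B)).card : ℕ) : ℝ) *
      (x ^ Z.card * R ^ B.card)
      ≤ (∑ v ∈ Finset.range j, ∑ u : Fin v → Fin n, ∑ c ∈ Fintype.piFinset (A u),
        ∑ c₀ ∈ A₀ u, ((Cell c c₀).card : ℝ)) * (x ^ Z.card * R ^ B.card) :=
        mul_le_mul_of_nonneg_right hcard (by positivity)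
    _ ≤ ∑ v ∈ Finset.range j, R ^ j * (1 / 8 * (1 / 4) ^ v) := by
        rw [Finset.sum_mul]
        exact Finset.sum_le_sum hterm
    _ = R ^ j * (1 / 8) * ∑ v ∈ Finset.range j, (1 / 4) ^ v := by
        rw [Finset.mul_sum]
        refine Finset.sum_congr rfl fun v _ => ?_
        ring
    _ ≤ R ^ j * (1 / 8) * (4 / 3) := mul_le_mul_of_nonneg_left hgeo (by positivity)
    _ = _ := by ring

end

end Pool.Agent.H25.RS
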